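import Pool.Agent.Lib_MP_f78f32_gb.Defs
import Pool.Agent.Lib_MP_f78f32_gt.Smoothing

/-!
# APPR: smooth approximation from inside the unit ball condition

## Proof

Let `s = ε/2`. `smoothing p m 1 ... s` gives a seminorm `q1` and its jet `J1` with
`|q1 x - p x| ≤ s ‖x‖`. Put `κ = 1/(1 + s) ∈ (0, 1)`, `q = κ q1` (`κ.toNNReal • q1`, see `scl` in
Final.lean of the library) and `J` = `κ` times `J1` in all six entries; it is `Ok` by linearity
(prove a lemma `Jet.smul`; every field is linear). Then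
`q x ≤ κ (p x + s ‖x‖) ≤ κ (1 + s) ‖x‖ = ‖x‖`,
`|q x - q1 x| = (1 - κ) q1 x ≤ (1 - κ)(1 + s) ‖x‖ = s ‖x‖`, so `|q x - p x| ≤ 2 s ‖x‖ = ε ‖x‖`, and
`q x ≥ p x - ε ‖x‖ ≥ (m - m/4) ‖x‖ ≥ (m/2) ‖x‖`.
-/

open MeasureTheory Real
open scoped Matrix
open Pool.Agent.Lib_MP_f78f32_gt

namespace Pool.Agent.Lib_MP_f78f32_gb

/-- scaled jet -/
def apprJ (κ : ℝ) (J : Jet) : Jet where
  f := fun g => κ * J.f g
  X := fun g => κ * J.X g
  Y := fun g => κ * J.Y g
  XX := fun g => κ * J.XX g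
  XY := fun g => κ * J.XY g
  YY := fun g => κ * J.YY g

lemma apprJ_ok (κ : ℝ) (J : Jet) (h : J.Ok) : (apprJ κ J).Ok where
  cf := continuous_const.mul h.cf
  cX := continuous_const.mul h.cX
  cY := continuous_const.mul h.cY
  cXX := continuous_const.mul h.cXX
  cXY := continuous_const.mul h.cXY
  cYY := continuous_const.mul h.cYY
  inv := fun g t => by
    show κ * J.f (g * fr t) = κ * J.f g
    rw [h.inv]
  invX := fun g t => by
    show κ * J.X (g * fr t) = cos t * (κ * J.X g) + sin t * (κ * J.Y g)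
    rw [h.invX]; ring
  invY := fun g t => by
    show κ * J.Y (g * fr t) = -sin t * (κ * J.X g) + cos t * (κ * J.Y g)
    rw [h.invY]; ring
  invXX := fun g t => by
    show κ * J.XX (g * fr t) = cos t ^ 2 * (κ * J.XX g) + 2 * cos t * sin t * (κ * J.XY g) +
      sin t ^ 2 * (κ * J.YY g)
    rw [h.invXX]; ring
  invXY := fun g t => by
    show κ * J.XY (g * fr t) = cos t * sin t * (κ * J.YY g - κ * J.XX g) +
      (cos t ^ 2 - sin t ^ 2) * (κ * J.XY g)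
    rw [h.invXY]; ring
  invYY := fun g t => by
    show κ * J.YY (g * fr t) = sin t ^ 2 * (κ * J.XX g) - 2 * cos t * sin t * (κ * J.XY g) +
      cos t ^ 2 * (κ * J.YY g)
    rw [h.invYY]; ring
  dX := fun g => (h.dX g).const_mul κ
  dY := fun g => (h.dY g).const_mul κ
  dXX := fun g => (h.dXX g).const_mul κ
  dXY := fun g => (h.dXY g).const_mul κ
  dYX := fun g => (h.dYX g).const_mul κ
  dYY := fun g => (h.dYY g).const_mul κ

theorem appr (p : Seminorm ℝ E3) (m : ℝ) (hm : 0 < m) (hm1 : m ≤ 1) (h1 : ∀ x, m * ‖x‖ ≤ p x)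
    (h2 : ∀ x, p x ≤ ‖x‖) (ε : ℝ) (hε : 0 < ε) (hε1 : ε ≤ m / 4) :
    ∃ (q : Seminorm ℝ E3) (J : Jet), Dat q J (m / 2) ∧ ∀ x, |q x - p x| ≤ ε * ‖x‖ := by
  obtain ⟨q1, J1, ok1, hJ1, hq1⟩ := smoothing p m 1 hm h1 (fun x => by rw [one_mul]; exact h2 x)
    (ε / 2) (half_pos hε)
  set s := ε / 2 with hs
  have hs0 : 0 < s := half_pos hε
  set κ : ℝ := 1 / (1 + s) with hκ
  have hκ0 : 0 < κ := by positivity
  have hκs : κ * (1 + s) = 1 := by rw [hκ]; field_simp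
  have hκ1 : κ ≤ 1 := by nlinarith
  have hqa : ∀ x, (κ.toNNReal • q1) x = κ * q1 x := by
    intro x
    rw [_root_.smul_apply, NNReal.smul_def, Real.coe_toNNReal κ hκ0.le, smul_eq_mul]
  have hup1 : ∀ x, q1 x ≤ (1 + s) * ‖x‖ := by
    intro x
    have a1 := (abs_le.1 (hq1 x)).2
    have a2 := h2 x
    linarith
  have hup : ∀ x, κ * q1 x ≤ ‖x‖ := by
    intro x
    calc κ * q1 x ≤ κ * ((1 + s) * ‖x‖) := mul_le_mul_of_nonneg_left (hup1 x) hκ0.le
      _ = (κ * (1 + s)) * ‖x‖ := by ring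
      _ = ‖x‖ := by rw [hκs, one_mul]
  have hdiff : ∀ x, |κ * q1 x - p x| ≤ ε * ‖x‖ := by
    intro x
    have b1 : |κ * q1 x - q1 x| ≤ s * ‖x‖ := by
      have e : κ * q1 x - q1 x = -((1 - κ) * q1 x) := by ring
      rw [e, abs_neg, abs_of_nonneg (mul_nonneg (by linarith) (apply_nonneg q1 x))]
      calc (1 - κ) * q1 x ≤ (1 - κ) * ((1 + s) * ‖x‖) :=
            mul_le_mul_of_nonneg_left (hup1 x) (by linarith)
        _ = ((1 + s) - κ * (1 + s)) * ‖x‖ := by ring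
        _ = s * ‖x‖ := by rw [hκs]; ring
    have b2 := hq1 x
    calc |κ * q1 x - p x| = |(κ * q1 x - q1 x) + (q1 x - p x)| := by congr 1; ring
      _ ≤ |κ * q1 x - q1 x| + |q1 x - p x| := abs_add_le _ _
      _ ≤ s * ‖x‖ + s * ‖x‖ := add_le_add b1 b2
      _ = ε * ‖x‖ := by rw [hs]; ring
  refine ⟨κ.toNNReal • q1, apprJ κ J1, ⟨apprJ_ok κ J1 ok1, ?_, by linarith, by linarith, ?_, ?_⟩, ?_⟩
  · intro g
    rw [hqa, ← hJ1]
    rfl
  · intro x
    rw [hqa]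
    have a1 := (abs_le.1 (hdiff x)).1
    have a2 := h1 x
    have a3 : ε * ‖x‖ ≤ m / 4 * ‖x‖ := mul_le_mul_of_nonneg_right hε1 (norm_nonneg x)
    have a4 : 0 ≤ m * ‖x‖ := by positivity
    linarith
  · intro x
    rw [hqa]
    exact hup x
  · intro x
    rw [hqa]
    exact hdiff x

end Pool.Agent.Lib_MP_f78f32_gb
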