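import Pool.Agent.Lib_MP_f78f32_gb.Defs
import Pool.Agent.Lib_MP_f78f32_gt.SecArc

/-!
# NEAR: the seminorm near a point where it is almost maximal

## Proof

Let `a = inner x0 (col g 0)`, `x = col g 0`. By `co_eq_inner` and `uu_eq` (the vector
`fun i => x0 i` has `v 0 ^ 2 + v 1 ^ 2 + v 2 ^ 2 = 1` as `‖x0‖ = 1`), `uu _ g = 1 - a²`.
As `q (-x) = q x` we may work with `s = |a|` (replace `x` by `-x` if `a < 0`); `0 ≤ s ≤ 1` by
Cauchy-Schwarz. The vector `x' = 2 a • x0 - x` has norm `1` (`‖x'‖² = 4a² - 4a² + 1`), so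
`2 |a| q x0 = q (2 a • x0) = q (x + x') ≤ q x + q x' ≤ q x + 1`. Hence
`1 - q x ≤ 2 - 2 |a| q x0 ≤ 2 - 2|a|(1 - ε) ≤ 2 (1 - |a|) + 2 ε ≤ 2 (1 - a²) + 2 ε`
(as `1 - |a| ≤ (1 - |a|)(1 + |a|)`). No case distinction on the sign of `a` is needed.
-/

open MeasureTheory Real
open scoped Matrix
open Pool.Agent.Lib_MP_f78f32_gt

namespace Pool.Agent.Lib_MP_f78f32_gb

theorem unit_sq (x0 : E3) (hx0 : ‖x0‖ = 1) : x0 0 ^ 2 + x0 1 ^ 2 + x0 2 ^ 2 = 1 := by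
  have h := EuclideanSpace.norm_sq_eq x0
  rw [hx0, Fin.sum_univ_three] at h
  simp only [Real.norm_eq_abs, sq_abs] at h
  linarith

theorem near (q : Seminorm ℝ E3) (hup : ∀ x, q x ≤ ‖x‖) (x0 : E3) (hx0 : ‖x0‖ = 1) (ε : ℝ)
    (hε : 0 ≤ ε) (h : 1 - ε ≤ q x0) (g : G) :
    1 - q (col g 0) ≤ 2 * uu (fun i => x0 i) g + 2 * ε := by
  have hu : uu (fun i => x0 i) g = 1 - (inner ℝ x0 (col g 0)) ^ 2 := by
    rw [uu_eq _ (unit_sq x0 hx0) g, co_eq_inner]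
  rw [hu]
  have hn : ‖col g 0‖ = 1 := SecArc.norm_col g 0
  set a : ℝ := inner ℝ x0 (col g 0) with ha
  have ha1 : |a| ≤ 1 := by
    have := abs_real_inner_le_norm x0 (col g 0)
    rw [hx0, hn] at this
    simpa using this
  have hx' : ‖(2 * a) • x0 - col g 0‖ = 1 := by
    have h1 : ‖(2 * a) • x0 - col g 0‖ ^ 2 = 1 := by
      rw [norm_sub_sq_real, norm_smul, real_inner_smul_left, hx0, hn, ← ha, Real.norm_eq_abs,
        mul_one, sq_abs]
      ring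
    have h2 : (0 : ℝ) ≤ ‖(2 * a) • x0 - col g 0‖ := norm_nonneg _
    nlinarith
  have h3 : 2 * |a| * q x0 ≤ q (col g 0) + 1 := by
    have h4 : q ((2 * a) • x0) = 2 * |a| * q x0 := by
      rw [map_smul_eq_mul, Real.norm_eq_abs, abs_mul, abs_two]
    have h5 : (2 * a) • x0 = col g 0 + ((2 * a) • x0 - col g 0) := by abel
    have h6 : q (col g 0 + ((2 * a) • x0 - col g 0)) ≤
        q (col g 0) + q ((2 * a) • x0 - col g 0) := map_add_le_add q _ _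
    have h7 := hup ((2 * a) • x0 - col g 0)
    rw [hx'] at h7
    rw [← h5, h4] at h6
    linarith
  have h8 : a ^ 2 = |a| ^ 2 := (sq_abs a).symm
  have h9 : (0 : ℝ) ≤ |a| := abs_nonneg a
  rw [h8]
  have h10 : 2 * |a| * (1 - ε) ≤ 2 * |a| * q x0 := mul_le_mul_of_nonneg_left h (by positivity)
  nlinarith [mul_nonneg hε (sub_nonneg.2 ha1), mul_nonneg h9 (sub_nonneg.2 ha1)]

end Pool.Agent.Lib_MP_f78f32_gb
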