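import Pool.Agent.Lib_MP_f78f32_gb.Supp
import Pool.Agent.Lib_MP_f78f32_gb.Near
import Pool.Agent.Lib_MP_f78f32_gt.SecMono

/-!
# DET: two different axes

## Proof

Let `v = fun i => x0 i`, `v' = fun i => x1 i`, and
`d g = co v 1 g * co v' 2 g - co v 2 g * co v' 1 g`. With `(b, c) = (co v 1 g, co v 2 g)`,
`(b', c') = (co v' 1 g, co v' 2 g)`, `L = LL v J g = c X - b Y`, `L' = LL v' J g = c' X - b' Y`:
`b' L - b L' = -d X`, `c' L - c L' = -d Y` and `b² + c² ≤ 1`, `b'² + c'² ≤ 1`, so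
`d² (X² + Y²) = (b' L - b L')² + (c' L - c L')² ≤ 2 (b'² + c'²) L² + 2 (b² + c²) L'² ≤ 2 (L² + L'²)`.
Since `1 - J.f² = (1 - nN J) + X² + Y²`, `|d| ≤ 1` (`d² ≤ (b²+c²)(b'²+c'²)`), `1 - nN J ≥ 0`:
`∫ d² (1 - J.f²) ≤ ∫ (1 - nN) + 2 ∫ L² + 2 ∫ L'² ≤ 5 η`.
And `|J.f g² - p(col g 0)²| ≤ 2 |q - p| ≤ 2 η`, so `∫ d² (1 - p(col g 0)²) dμ ≤ 7 η` for all
`η > 0`; the function `d² (1 - p(col g 0)²)` is continuous and nonnegative, so it vanishes
identically (`μ` is positive on nonempty open sets: `IsHaarMeasure`; lemma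
`Continuous.integral_pos_of_hasCompactSupport_nonneg_nonzero` or
`MeasureTheory.Measure.eq_of_ae_eq` / `integral_eq_zero_iff_of_nonneg`). Thus
`p (col g 0) = 1` whenever `d g ≠ 0`.

`d g` is a function of `col g 0`: `d g = inner n (col g 0)` with
`n = (x0 1 * x1 2 - x0 2 * x1 1, x0 2 * x1 0 - x0 0 * x1 2, x0 0 * x1 1 - x0 1 * x1 0)` the vector
product (check with `G.cross`: `col g 0 = col g 1 × col g 2`; polynomial identity:
`b c' - c b' = (x0 × x1) · (τ × e)`). `n ≠ 0`: by Lagrange `‖n‖² = 1 - (inner x0 x1)²`, which is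
`0` only if `x1 = ± x0` (equality in Cauchy-Schwarz; or directly `‖x1 - s x0‖² = 1 - s²` for
`s = inner x0 x1`, so `x1 = s x0`, `s = ±1`).

Every unit vector is `col g 0` for some `g` (`smo_surj` in Smoothing.lean, `col_surj` in Final.lean:
copy the proof). So `p x = ‖x‖` for all `x` with `inner n x ≠ 0` (homogeneity). For a general `x`
with `inner n x = 0` the points `x + t n`, `t ≠ 0`, satisfy it, and `p` is continuous
(`sm_cont` in SecMono.lean): let `t → 0`.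
-/

open MeasureTheory Real
open scoped Matrix
open Pool.Agent.Lib_MP_f78f32_gt

namespace Pool.Agent.Lib_MP_f78f32_gb

/-- the linear form vanishing on the plane of the two axes -/
def detN (x0 x1 x : E3) : ℝ :=
  (x0 1 * x1 2 - x0 2 * x1 1) * x 0 + (x0 2 * x1 0 - x0 0 * x1 2) * x 1 +
    (x0 0 * x1 1 - x0 1 * x1 0) * x 2

lemma det_eq (x0 x1 : E3) (g : G) :
    co (fun i => x0 i) 1 g * co (fun i => x1 i) 2 g - co (fun i => x0 i) 2 g *
      co (fun i => x1 i) 1 g = detN x0 x1 (col g 0) := by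
  obtain ⟨h0, h1, h2⟩ := G.cross g
  have e0 : (col g 0) 0 = g.1 0 0 := rfl
  have e1 : (col g 0) 1 = g.1 1 0 := rfl
  have e2 : (col g 0) 2 = g.1 2 0 := rfl
  unfold detN
  rw [e0, e1, e2, h0, h1, h2]
  simp only [co, Fin.sum_univ_three]
  ring

lemma det_point (v v' : Fin 3 → ℝ) (hv : v 0 ^ 2 + v 1 ^ 2 + v 2 ^ 2 = 1)
    (hv' : v' 0 ^ 2 + v' 1 ^ 2 + v' 2 ^ 2 = 1) (J : Jet) (g : G) (hn : nN J g ≤ 1) :
    (co v 1 g * co v' 2 g - co v 2 g * co v' 1 g) ^ 2 ≤ 1 ∧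
    (co v 1 g * co v' 2 g - co v 2 g * co v' 1 g) ^ 2 * (1 - J.f g ^ 2) ≤
      2 * ((1 - nN J g) + LL v J g ^ 2) + 2 * ((1 - nN J g) + LL v' J g ^ 2) := by
  have h1 := uu_le_one v hv g
  have h2 := uu_le_one v' hv' g
  unfold uu at h1 h2
  have hd : (co v 1 g * co v' 2 g - co v 2 g * co v' 1 g) ^ 2 ≤ 1 := by
    have e : (co v 1 g * co v' 2 g - co v 2 g * co v' 1 g) ^ 2 +
        (co v 1 g * co v' 1 g + co v 2 g * co v' 2 g) ^ 2 =
        (co v 1 g ^ 2 + co v 2 g ^ 2) * (co v' 1 g ^ 2 + co v' 2 g ^ 2) := by ring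
    have e2 : (co v 1 g ^ 2 + co v 2 g ^ 2) * (co v' 1 g ^ 2 + co v' 2 g ^ 2) ≤ 1 * 1 :=
      mul_le_mul h1 h2 (by positivity) (by norm_num)
    have e3 := sq_nonneg (co v 1 g * co v' 1 g + co v 2 g * co v' 2 g)
    linarith
  refine ⟨hd, ?_⟩
  have hX : (co v 1 g * co v' 2 g - co v 2 g * co v' 1 g) ^ 2 * (J.X g ^ 2 + J.Y g ^ 2) ≤
      2 * (LL v J g ^ 2 + LL v' J g ^ 2) := by
    have e : (co v 1 g * co v' 2 g - co v 2 g * co v' 1 g) ^ 2 * (J.X g ^ 2 + J.Y g ^ 2) =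
        (co v' 1 g * LL v J g - co v 1 g * LL v' J g) ^ 2 +
        (co v' 2 g * LL v J g - co v 2 g * LL v' J g) ^ 2 := by
      unfold LL
      ring
    rw [e]
    have a1 : (co v' 1 g * LL v J g - co v 1 g * LL v' J g) ^ 2 ≤
        2 * (co v' 1 g ^ 2 * LL v J g ^ 2) + 2 * (co v 1 g ^ 2 * LL v' J g ^ 2) := by
      have := sq_nonneg (co v' 1 g * LL v J g + co v 1 g * LL v' J g)
      linarith
    have a2 : (co v' 2 g * LL v J g - co v 2 g * LL v' J g) ^ 2 ≤
        2 * (co v' 2 g ^ 2 * LL v J g ^ 2) + 2 * (co v 2 g ^ 2 * LL v' J g ^ 2) := by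
      have := sq_nonneg (co v' 2 g * LL v J g + co v 2 g * LL v' J g)
      linarith
    have a3 : (co v' 1 g ^ 2 + co v' 2 g ^ 2) * LL v J g ^ 2 ≤ 1 * LL v J g ^ 2 :=
      mul_le_mul_of_nonneg_right h2 (sq_nonneg _)
    have a4 : (co v 1 g ^ 2 + co v 2 g ^ 2) * LL v' J g ^ 2 ≤ 1 * LL v' J g ^ 2 :=
      mul_le_mul_of_nonneg_right h1 (sq_nonneg _)
    linarith
  have hN : (co v 1 g * co v' 2 g - co v 2 g * co v' 1 g) ^ 2 * (1 - nN J g) ≤
      1 * (1 - nN J g) := mul_le_mul_of_nonneg_right hd (by linarith)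
  have e : (1 - J.f g ^ 2) = (1 - nN J g) + (J.X g ^ 2 + J.Y g ^ 2) := by
    unfold nN
    ring
  rw [e, mul_add]
  linarith

lemma det_LL_cont (v : Fin 3 → ℝ) (J : Jet) (hJ : J.Ok) : Continuous (LL v J) := by
  unfold LL
  exact ((co_cont v 2).mul hJ.cX).sub ((co_cont v 1).mul hJ.cY)

lemma det_nN_cont (J : Jet) (hJ : J.Ok) : Continuous (nN J) := by
  unfold nN
  exact ((hJ.cf.pow 2).add (hJ.cX.pow 2)).add (hJ.cY.pow 2)

lemma det_col_cont : Continuous fun g : G => col g 0 := by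
  unfold col
  apply (PiLp.continuous_toLp 2 _).comp
  exact continuous_pi fun i => G.cont_entry i 0

/-- every unit vector is the first vector of a frame -/
lemma det_surj (x : E3) (hx : ‖x‖ = 1) : ∃ g : G, col g 0 = x := by
  have h1 : x 0 ^ 2 + x 1 ^ 2 + x 2 ^ 2 = 1 := unit_sq x hx
  set z : ℂ := ⟨x 1, x 2⟩ with hz
  have hzn : ‖z‖ = √(1 - x 0 ^ 2) := by
    rw [Complex.norm_def, Complex.normSq_apply]
    congr 1
    simp only [hz]
    linarith
  have hc : ‖z‖ * cos z.arg = x 1 := by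
    rw [Complex.norm_mul_cos_arg]
  have hs : ‖z‖ * sin z.arg = x 2 := by
    rw [Complex.norm_mul_sin_arg]
  have h0 : -1 ≤ x 0 ∧ x 0 ≤ 1 := by
    constructor <;> nlinarith [sq_nonneg (x 1), sq_nonneg (x 2)]
  have hcos := Real.cos_arccos h0.1 h0.2
  have hsin := Real.sin_arccos (x 0)
  refine ⟨fr z.arg * fa (arccos (x 0)), ?_⟩
  ext i
  show (fr z.arg * fa (arccos (x 0))).1 i 0 = x i
  rw [(mul_fa (fr z.arg) (arccos (x 0)) i).1, hcos, hsin, ← hzn]
  fin_cases i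
  · simp [fr_val]
  · simp only [fr_val]
    simp [hc]
  · simp only [fr_val]
    simp [hs]

lemma det_int (A B : G → ℝ) (hA : Continuous A) (hB : Continuous B) (c : ℝ) :
    ∫ g, ((2 * A g + 2 * B g) + c) ∂μ = (2 * ∫ g, A g ∂μ + 2 * ∫ g, B g ∂μ) + c := by
  have h1 : Integrable (fun g => 2 * A g) μ := intg (hA.const_mul 2)
  have h2 : Integrable (fun g => 2 * B g) μ := intg (hB.const_mul 2)
  have h3 : Integrable (fun g => 2 * A g + 2 * B g) μ := h1.add h2
  have h4 : Integrable (fun _ : G => c) μ := integrable_const c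
  rw [integral_add h3 h4, integral_add h1 h2, integral_const_mul, integral_const_mul]
  simp

theorem det_arg (p : Seminorm ℝ E3) (m : ℝ) (h2 : ∀ x, p x ≤ ‖x‖) (x0 x1 : E3) (hx0 : ‖x0‖ = 1)
    (hx1 : ‖x1‖ = 1) (hne : x1 ≠ x0) (hne' : x1 ≠ -x0)
    (H : ∀ η : ℝ, 0 < η → ∃ (q : Seminorm ℝ E3) (J : Jet), Dat q J m ∧
      (∀ x, |q x - p x| ≤ η * ‖x‖) ∧
      ∫ g, ((1 - nN J g) + LL (fun i => x0 i) J g ^ 2) ∂μ ≤ η ∧
      ∫ g, ((1 - nN J g) + LL (fun i => x1 i) J g ^ 2) ∂μ ≤ η) :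
    ∀ x, p x = ‖x‖ := by
  have hu0 := unit_sq x0 hx0
  have hu1 := unit_sq x1 hx1
  have hpc : Continuous p := sm_cont p
  have hcolc := det_col_cont
  have hcol1 : ∀ g : G, ‖col g 0‖ = 1 := fun g => SecArc.norm_col g 0
  set d : G → ℝ := fun g => co (fun i => x0 i) 1 g * co (fun i => x1 i) 2 g -
    co (fun i => x0 i) 2 g * co (fun i => x1 i) 1 g with hd
  have hdc : Continuous d := by
    simp only [hd]
    exact ((co_cont _ 1).mul (co_cont _ 2)).sub ((co_cont _ 2).mul (co_cont _ 1))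
  set Φ : G → ℝ := fun g => d g ^ 2 * (1 - p (col g 0) ^ 2) with hΦ
  have hΦc : Continuous Φ := (hdc.pow 2).mul (continuous_const.sub ((hpc.comp hcolc).pow 2))
  have hp1 : ∀ g : G, p (col g 0) ≤ 1 := fun g => by
    have := h2 (col g 0); rwa [hcol1] at this
  have hp0 : ∀ g : G, 0 ≤ p (col g 0) := fun g => apply_nonneg p _
  have hΦ0 : ∀ g, 0 ≤ Φ g := by
    intro g
    have a1 := hp1 g
    have a2 := hp0 g
    have a3 : p (col g 0) ^ 2 ≤ 1 := pow_le_one₀ a2 a1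
    exact mul_nonneg (sq_nonneg _) (by linarith)
  have hle : ∀ η : ℝ, 0 < η → ∫ g, Φ g ∂μ ≤ 6 * η := by
    intro η hη
    obtain ⟨q, J, hD, hq, hi0, hi1⟩ := H η hη
    have hc0 : Continuous fun g => (1 - nN J g) + LL (fun i => x0 i) J g ^ 2 :=
      (continuous_const.sub (det_nN_cont J hD.ok)).add ((det_LL_cont _ J hD.ok).pow 2)
    have hc1 : Continuous fun g => (1 - nN J g) + LL (fun i => x1 i) J g ^ 2 :=
      (continuous_const.sub (det_nN_cont J hD.ok)).add ((det_LL_cont _ J hD.ok).pow 2)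
    have hpt : ∀ g, Φ g ≤ (2 * ((1 - nN J g) + LL (fun i => x0 i) J g ^ 2) +
        2 * ((1 - nN J g) + LL (fun i => x1 i) J g ^ 2)) + 2 * η := by
      intro g
      obtain ⟨b1, b2⟩ := det_point (fun i => x0 i) (fun i => x1 i) hu0 hu1 J g
        (nN_le_one q J m hD g)
      have b3 : |q (col g 0) - p (col g 0)| ≤ η := by
        have := hq (col g 0); rwa [hcol1, mul_one] at this
      have b4 : q (col g 0) ≤ 1 := by
        have := hD.up (col g 0); rwa [hcol1] at this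
      have b5 : 0 ≤ q (col g 0) := apply_nonneg q _
      have b6 := hp1 g
      have b7 := hp0 g
      have b8 : J.f g ^ 2 - p (col g 0) ^ 2 ≤ 2 * η := by
        rw [hD.jq]
        have e : q (col g 0) ^ 2 - p (col g 0) ^ 2 =
            (q (col g 0) - p (col g 0)) * (q (col g 0) + p (col g 0)) := by ring
        rw [e]
        calc (q (col g 0) - p (col g 0)) * (q (col g 0) + p (col g 0))
            ≤ η * (q (col g 0) + p (col g 0)) :=
              mul_le_mul_of_nonneg_right ((le_abs_self _).trans b3) (by linarith)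
          _ ≤ η * 2 := mul_le_mul_of_nonneg_left (by linarith) hη.le
          _ = 2 * η := by ring
      have b9 : Φ g = d g ^ 2 * (1 - J.f g ^ 2) + d g ^ 2 * (J.f g ^ 2 - p (col g 0) ^ 2) := by
        simp only [hΦ]
        ring
      have b10 : d g ^ 2 * (J.f g ^ 2 - p (col g 0) ^ 2) ≤ 2 * η := by
        calc d g ^ 2 * (J.f g ^ 2 - p (col g 0) ^ 2) ≤ d g ^ 2 * (2 * η) :=
              mul_le_mul_of_nonneg_left b8 (sq_nonneg _)
          _ ≤ 1 * (2 * η) := mul_le_mul_of_nonneg_right b1 (by linarith)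
          _ = 2 * η := one_mul _
      rw [b9]
      exact add_le_add b2 b10
    calc ∫ g, Φ g ∂μ ≤ ∫ g, ((2 * ((1 - nN J g) + LL (fun i => x0 i) J g ^ 2) +
        2 * ((1 - nN J g) + LL (fun i => x1 i) J g ^ 2)) + 2 * η) ∂μ :=
          integral_mono (intg hΦc) (intg (((hc0.const_mul 2).add (hc1.const_mul 2)).add
            continuous_const)) hpt
      _ = (2 * ∫ g, ((1 - nN J g) + LL (fun i => x0 i) J g ^ 2) ∂μ +
          2 * ∫ g, ((1 - nN J g) + LL (fun i => x1 i) J g ^ 2) ∂μ) + 2 * η := by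
          exact det_int _ _ hc0 hc1 _
      _ ≤ 6 * η := by linarith
  have hzero : ∫ g, Φ g ∂μ = 0 := by
    apply le_antisymm _ (integral_nonneg hΦ0)
    by_contra hc
    push Not at hc
    have := hle ((∫ g, Φ g ∂μ) / 12) (by positivity)
    linarith
  have hΦz : Φ = fun _ => 0 := by
    rw [integral_eq_zero_iff_of_nonneg hΦ0 (intg hΦc)] at hzero
    exact (Continuous.ae_eq_iff_eq μ hΦc continuous_const).1 hzero
  have hgood : ∀ g : G, detN x0 x1 (col g 0) ≠ 0 → p (col g 0) = 1 := by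
    intro g hg
    have a1 : Φ g = 0 := congrFun hΦz g
    have a2 : d g ≠ 0 := by
      simp only [hd]
      rw [det_eq]
      exact hg
    have a3 : 1 - p (col g 0) ^ 2 = 0 := by
      rcases mul_eq_zero.1 a1 with h | h
      · exact absurd (pow_eq_zero_iff (two_ne_zero) |>.1 h) a2
      · exact h
    have a4 := hp0 g
    nlinarith
  have hgood2 : ∀ x : E3, detN x0 x1 x ≠ 0 → p x = ‖x‖ := by
    intro x hx
    have hxne : x ≠ 0 := by
      rintro rfl
      apply hx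
      simp [detN]
    have hxn : 0 < ‖x‖ := norm_pos_iff.2 hxne
    obtain ⟨g, hg⟩ := det_surj (‖x‖⁻¹ • x) (by
      rw [norm_smul, norm_inv, norm_norm, inv_mul_cancel₀ hxn.ne'])
    have a1 : detN x0 x1 (‖x‖⁻¹ • x) = ‖x‖⁻¹ * detN x0 x1 x := by
      simp only [detN, PiLp.smul_apply, smul_eq_mul]
      ring
    have a2 := hgood g (by
      rw [hg, a1]
      exact mul_ne_zero (inv_ne_zero hxn.ne') hx)
    rw [hg, map_smul_eq_mul, norm_inv, norm_norm, inv_mul_eq_one₀ hxn.ne'] at a2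
    exact a2.symm
  -- the normal vector
  set n : E3 := WithLp.toLp 2 ![x0 1 * x1 2 - x0 2 * x1 1, x0 2 * x1 0 - x0 0 * x1 2,
    x0 0 * x1 1 - x0 1 * x1 0] with hn
  have hnn : detN x0 x1 n ≠ 0 := by
    intro hz
    have a1 : detN x0 x1 n = (x0 1 * x1 2 - x0 2 * x1 1) ^ 2 + (x0 2 * x1 0 - x0 0 * x1 2) ^ 2 +
        (x0 0 * x1 1 - x0 1 * x1 0) ^ 2 := by
      simp only [detN, hn]
      simp
      ring
    rw [a1] at hz
    set s : ℝ := x0 0 * x1 0 + x0 1 * x1 1 + x0 2 * x1 2 with hs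
    have a2 : s ^ 2 = 1 := by
      have e : (x0 1 * x1 2 - x0 2 * x1 1) ^ 2 + (x0 2 * x1 0 - x0 0 * x1 2) ^ 2 +
        (x0 0 * x1 1 - x0 1 * x1 0) ^ 2 + s ^ 2 =
        (x0 0 ^ 2 + x0 1 ^ 2 + x0 2 ^ 2) * (x1 0 ^ 2 + x1 1 ^ 2 + x1 2 ^ 2) := by
        rw [hs]; ring
      rw [hz, hu0, hu1] at e
      linarith
    have a3 : (x1 0 - s * x0 0) ^ 2 + (x1 1 - s * x0 1) ^ 2 + (x1 2 - s * x0 2) ^ 2 = 0 := by
      have e : (x1 0 - s * x0 0) ^ 2 + (x1 1 - s * x0 1) ^ 2 + (x1 2 - s * x0 2) ^ 2 =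
        (x1 0 ^ 2 + x1 1 ^ 2 + x1 2 ^ 2) - 2 * s * (x0 0 * x1 0 + x0 1 * x1 1 + x0 2 * x1 2) +
          s ^ 2 * (x0 0 ^ 2 + x0 1 ^ 2 + x0 2 ^ 2) := by ring
      rw [e, ← hs, hu0, hu1]
      linear_combination -a2
    have q0 := sq_nonneg (x1 0 - s * x0 0)
    have q1 := sq_nonneg (x1 1 - s * x0 1)
    have q2 := sq_nonneg (x1 2 - s * x0 2)
    have c0 : (x1 0 - s * x0 0) ^ 2 = 0 := by linarith
    have b0 : x1 0 = s * x0 0 := by
      have := pow_eq_zero_iff (two_ne_zero) |>.1 c0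
      linarith
    have c1 : (x1 1 - s * x0 1) ^ 2 = 0 := by linarith
    have b1 : x1 1 = s * x0 1 := by
      have := pow_eq_zero_iff (two_ne_zero) |>.1 c1
      linarith
    have c2 : (x1 2 - s * x0 2) ^ 2 = 0 := by linarith
    have b2 : x1 2 = s * x0 2 := by
      have := pow_eq_zero_iff (two_ne_zero) |>.1 c2
      linarith
    have hs1 : s = 1 ∨ s = -1 := by have h := mul_self_eq_one_iff.1 (by rw [← pow_two]; exact a2 : s * s = 1); exact h
    rcases hs1 with h | h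
    · apply hne
      ext i
      fin_cases i
      · simpa [h] using b0
      · simpa [h] using b1
      · simpa [h] using b2
    · apply hne'
      ext i
      fin_cases i
      · simpa [h] using b0
      · simpa [h] using b1
      · simpa [h] using b2
  intro x
  by_cases hx : detN x0 x1 x ≠ 0
  · exact hgood2 x hx
  · push Not at hx
    have hF : Continuous fun t : ℝ => p (x + t • n) := hpc.comp (by fun_prop)
    have hG : Continuous fun t : ℝ => ‖x + t • n‖ := by fun_prop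
    have heq : (fun t : ℝ => p (x + t • n)) = fun t : ℝ => ‖x + t • n‖ := by
      apply Continuous.ext_on (dense_compl_singleton (0 : ℝ)) hF hG
      intro t ht
      have ht0 : t ≠ 0 := ht
      apply hgood2
      have e : detN x0 x1 (x + t • n) = detN x0 x1 x + t * detN x0 x1 n := by
        simp only [detN, PiLp.add_apply, PiLp.smul_apply, smul_eq_mul]
        ring
      rw [e, hx, zero_add]
      exact mul_ne_zero ht0 hnn
    have := congrFun heq 0
    simpa using this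

end Pool.Agent.Lib_MP_f78f32_gb
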