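import Pool.Agent.Lib_MP_f78f32_gb.Defs
import Pool.Agent.Lib_MP_f78f32_gt.BodyNorm
import Pool.Agent.Lib_MP_f78f32_gt.SecMono
import Pool.Agent.Lib_MP_f78f32_gt.Smoothing

/-!
# FIN: reduction of the theorem on bodies to normalised seminorms

## Proof

`K` compact, convex, symmetric with an interior point `x`: then `-x` is interior too (`K = -K`) and
`0 = (1/2) x + (1/2)(-x)` is interior (`Convex.interior`), so `closedBall 0 r ⊆ K` for some `r > 0`;
`K ⊆ closedBall 0 R` as `K` is bounded, `R > 0`. `body_norm` gives a seminorm `p` with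
`x ∈ K ↔ p x ≤ 1`, `‖x‖ ≤ R p x`, `r p x ≤ ‖x‖`, `relBd K e = sec1 p e` for unit `e`. `p` is
continuous (`sm_cont`); let `M = p x0` be its maximum over the unit sphere (compact, nonempty);
`M > 0`. Put `p' = M⁻¹ • p` (`(M⁻¹).toNNReal • p`, see `scl` in Final.lean of the library):
`p' x ≤ ‖x‖`, `p' x0 = 1`, `(1/(R M)) ‖x‖ ≤ p' x`; `m = min 1 (1/(R M))`. By `sec_close` used twice
(see `sec_two` in Final.lean) all `H¹ (sec1 p' e)`, `‖e‖ = 1`, are equal to `ofReal M * P` or so. The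
hypothesis `hmain` gives `p' x = ‖x‖`, so `p x = M ‖x‖` and `K = closedBall 0 (1/M)`.
-/

open MeasureTheory Real
open scoped Matrix
open Pool.Agent.Lib_MP_f78f32_gt

namespace Pool.Agent.Lib_MP_f78f32_gb

/-- scaling a seminorm by a positive factor -/
noncomputable def FIN_scl (c : ℝ) (p : Seminorm ℝ E3) : Seminorm ℝ E3 := c.toNNReal • p

lemma FIN_scl_apply (c : ℝ) (hc : 0 ≤ c) (p : Seminorm ℝ E3) (x : E3) :
    FIN_scl c p x = c * p x := by
  rw [FIN_scl, Seminorm.smul_apply, NNReal.smul_def, Real.coe_toNNReal c hc, smul_eq_mul]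

/-- two sided comparison of section perimeters -/
lemma FIN_sec_two (p q : Seminorm ℝ E3) (m : ℝ) (hm : 0 < m) (hp : ∀ x, m * ‖x‖ ≤ p x)
    (hq : ∀ x, m * ‖x‖ ≤ q x) (c : ℝ) (hc : 0 < c) (h : ∀ x, q x = c * p x) (e : E3) :
    Measure.hausdorffMeasure (1:ℝ) (sec1 p e) =
      ENNReal.ofReal c * Measure.hausdorffMeasure (1:ℝ) (sec1 q e) := by
  apply le_antisymm
  · exact sec_close p q m hm hp hq c hc (fun x => (h x).le) e
  · have h1 := sec_close q p m hm hq hp c⁻¹ (inv_pos.mpr hc) (fun x => by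
      rw [h x]; field_simp; exact le_rfl) e
    calc ENNReal.ofReal c * Measure.hausdorffMeasure (1:ℝ) (sec1 q e)
        ≤ ENNReal.ofReal c * (ENNReal.ofReal c⁻¹ * Measure.hausdorffMeasure (1:ℝ) (sec1 p e)) := by
          gcongr
      _ = (ENNReal.ofReal c * ENNReal.ofReal c⁻¹) *
          Measure.hausdorffMeasure (1:ℝ) (sec1 p e) := by rw [mul_assoc]
      _ = Measure.hausdorffMeasure (1:ℝ) (sec1 p e) := by
          rw [← ENNReal.ofReal_mul hc.le, mul_inv_cancel₀ hc.ne']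
          simp

/-- a symmetric convex set with interior points contains a ball around the origin -/
lemma FIN_ball (K : Set E3) (hconv : Convex ℝ K) (hint : (interior K).Nonempty)
    (hsym : ∀ x ∈ K, -x ∈ K) : ∃ r : ℝ, 0 < r ∧ Metric.closedBall 0 r ⊆ K := by
  obtain ⟨x, hx⟩ := hint
  have hK : -K = K := by
    ext y
    rw [Set.mem_neg]
    exact ⟨fun h => by simpa using hsym _ h, fun h => hsym y h⟩
  have hx' : -x ∈ interior K := by
    have h1 : (fun y : E3 => -y) ⁻¹' interior K ⊆ interior K := by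
      have h2 : (fun y : E3 => -y) ⁻¹' K = K := hK
      calc (fun y : E3 => -y) ⁻¹' interior K ⊆ interior ((fun y : E3 => -y) ⁻¹' K) :=
            preimage_interior_subset_interior_preimage continuous_neg
        _ = interior K := by rw [h2]
    apply h1
    rw [Set.mem_preimage, neg_neg]
    exact hx
  have h0 : (0 : E3) ∈ interior K := by
    have h1 := hconv.interior hx hx' (a := 1 / 2) (b := 1 / 2) (by norm_num) (by norm_num)
      (by norm_num)
    have h2 : (1 / 2 : ℝ) • x + (1 / 2 : ℝ) • -x = 0 := by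
      rw [smul_neg, add_neg_cancel]
    rwa [h2] at h1
  rw [mem_interior_iff_mem_nhds, Metric.nhds_basis_closedBall.mem_iff] at h0
  obtain ⟨r, hr, h⟩ := h0
  exact ⟨r, hr, h⟩

/-- maximum of a seminorm on the sphere -/
lemma FIN_max (p : Seminorm ℝ E3) :
    ∃ x0 : E3, ‖x0‖ = 1 ∧ ∀ x, p x ≤ p x0 * ‖x‖ := by
  have hne : (Metric.sphere (0 : E3) 1).Nonempty := ⟨EuclideanSpace.single 0 1, by simp⟩
  obtain ⟨x0, hx0, hmax⟩ := (isCompact_sphere (0 : E3) 1).exists_isMaxOn hne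
    (sm_cont p).continuousOn
  have hx0' : ‖x0‖ = 1 := by simpa using hx0
  refine ⟨x0, hx0', fun x => ?_⟩
  by_cases hx : x = 0
  · rw [hx, map_zero, norm_zero, mul_zero]
  · have hn : 0 < ‖x‖ := norm_pos_iff.2 hx
    have h1 : ‖x‖⁻¹ • x ∈ Metric.sphere (0 : E3) 1 := by
      rw [mem_sphere_zero_iff_norm, norm_smul, norm_inv, norm_norm, inv_mul_cancel₀ hn.ne']
    have h2 : p (‖x‖⁻¹ • x) ≤ p x0 := hmax h1
    rw [map_smul_eq_mul, norm_inv, norm_norm, inv_mul_le_iff₀ hn] at h2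
    linarith

theorem fin_red
    (hmain : ∀ (p : Seminorm ℝ E3) (m : ℝ), 0 < m → m ≤ 1 → (∀ x, m * ‖x‖ ≤ p x) →
      (∀ x, p x ≤ ‖x‖) → (∃ x0 : E3, ‖x0‖ = 1 ∧ p x0 = 1) →
      (∃ P : ENNReal, ∀ e : E3, ‖e‖ = 1 → Measure.hausdorffMeasure (1:ℝ) (sec1 p e) = P) →
      ∀ x, p x = ‖x‖)
    (K : Set E3) (hK : IsCompact K) (hconv : Convex ℝ K) (hint : (interior K).Nonempty)
    (hsym : ∀ x ∈ K, -x ∈ K)
    (hper : ∃ P : ENNReal, ∀ e : E3, ‖e‖ = 1 → Measure.hausdorffMeasure (1:ℝ) (relBd K e) = P) :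
    ∃ (c : E3) (r : ℝ), K = Metric.closedBall c r := by
  obtain ⟨P, hP⟩ := hper
  obtain ⟨r, hr, hin⟩ := FIN_ball K hconv hint hsym
  obtain ⟨R, hR1, hout⟩ : ∃ R : ℝ, 1 ≤ R ∧ K ⊆ Metric.closedBall 0 R := by
    obtain ⟨R, hR⟩ := hK.isBounded.subset_closedBall (0 : E3)
    exact ⟨max 1 R, le_max_left _ _, hR.trans (Metric.closedBall_subset_closedBall
      (le_max_right _ _))⟩
  have hR0 : 0 < R := by linarith
  obtain ⟨p, hKp, hp1, hp2, hrel⟩ := body_norm K hK hconv hsym r R hr hin hout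
  have hPp : ∀ e : E3, ‖e‖ = 1 → Measure.hausdorffMeasure (1:ℝ) (sec1 p e) = P := by
    intro e he
    rw [← hrel e he]
    exact hP e he
  obtain ⟨x0, hx0, hmax⟩ := FIN_max p
  obtain ⟨M, hM⟩ : ∃ M : ℝ, M = p x0 := ⟨_, rfl⟩
  rw [← hM] at hmax
  have hM0 : 0 < M := by
    have h1 := hp1 x0
    rw [hx0, ← hM] at h1
    by_contra hc
    push Not at hc
    nlinarith
  obtain ⟨q, hq⟩ : ∃ q : Seminorm ℝ E3, q = FIN_scl M⁻¹ p := ⟨_, rfl⟩
  have hqa : ∀ x, q x = M⁻¹ * p x := fun x => by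
    rw [hq]
    exact FIN_scl_apply _ (by positivity) p x
  -- lower bounds
  have hlow : ∀ x, (R * M)⁻¹ * ‖x‖ ≤ q x := fun x => by
    rw [hqa, mul_inv]
    have h1 := hp1 x
    calc R⁻¹ * M⁻¹ * ‖x‖ ≤ R⁻¹ * M⁻¹ * (R * p x) := by gcongr
      _ = M⁻¹ * p x := by field_simp
  have hup : ∀ x, q x ≤ ‖x‖ := fun x => by
    rw [hqa, inv_mul_le_iff₀ hM0]
    exact hmax x
  have hx1 : q x0 = 1 := by
    rw [hqa, ← hM, inv_mul_cancel₀ hM0.ne']
  obtain ⟨m, hm⟩ : ∃ m : ℝ, m = min 1 (R * M)⁻¹ := ⟨_, rfl⟩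
  have hm0 : 0 < m := by
    rw [hm]
    exact lt_min one_pos (by positivity)
  have hm1 : m ≤ 1 := by
    rw [hm]
    exact min_le_left _ _
  have hmq : ∀ x, m * ‖x‖ ≤ q x := fun x =>
    (mul_le_mul_of_nonneg_right (by rw [hm]; exact min_le_right _ _) (norm_nonneg x)).trans (hlow x)
  -- perimeters
  have hper' : ∃ P : ENNReal, ∀ e : E3, ‖e‖ = 1 →
      Measure.hausdorffMeasure (1:ℝ) (sec1 q e) = P := by
    refine ⟨ENNReal.ofReal M * P, fun e he => ?_⟩
    obtain ⟨m', hm'⟩ : ∃ m' : ℝ, m' = min m (M * m) := ⟨_, rfl⟩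
    have hm'0 : 0 < m' := by
      rw [hm']
      exact lt_min hm0 (by positivity)
    have h1 := FIN_sec_two q p m' hm'0
      (fun x => (mul_le_mul_of_nonneg_right (by rw [hm']; exact min_le_left _ _)
        (norm_nonneg x)).trans (hmq x))
      (fun x => by
        have h2 := hmq x
        rw [hqa] at h2
        have h3 : m' ≤ M * m := by rw [hm']; exact min_le_right _ _
        calc m' * ‖x‖ ≤ M * m * ‖x‖ := mul_le_mul_of_nonneg_right h3 (norm_nonneg x)
          _ = M * (m * ‖x‖) := by ring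
          _ ≤ M * (M⁻¹ * p x) := by gcongr
          _ = p x := by field_simp)
      M hM0 (fun x => by rw [hqa]; field_simp) e
    rw [h1, hPp e he]
  have hfin := hmain q m hm0 hm1 hmq hup ⟨x0, hx0, hx1⟩ hper'
  refine ⟨0, M⁻¹, ?_⟩
  ext x
  rw [hKp x, mem_closedBall_zero_iff, ← hfin x, hqa]
  constructor
  · intro h
    have : 0 < M⁻¹ := by positivity
    nlinarith
  · intro h
    have : 0 < M⁻¹ := by positivity
    by_contra hc
    push Not at hc
    nlinarith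

end Pool.Agent.Lib_MP_f78f32_gb
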