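import Pool.Agent.Lib_MP_f78f32_gb.Defs

/-!
# DENSA: the length density `FF` and its derivatives along `fr`

`D = dD J = f² + X² > 0` because `f = q (col g 0) ≥ m > 0` (`‖col g 0‖ = 1`: lemma `SecArc.norm_col`
in `Pool.Agent.Lib_MP_f78f32_gt.SecArc`, or reprove from `G.col_dot`).

## Proof

Along `fr`: `f' = 0` (from `Jet.Ok.inv`: `J.f (g * fr t) = J.f g`), `X' = Y`, `Y' = -X`
(from `invX`, `invY`: `J.X (g * fr t) = cos t * J.X g + sin t * J.Y g`, ...; compare `FD_co1`,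
`FD_co2` in `Defs`). Hence `(√D)' = 2 X Y / (2 √D) = X Y / √D`, so `FF' = X Y / (f² √D) = F1`, and
`F1' = (1/f²) [ (Y² - X²)/√D - X Y (X Y / √D) / D ]`; with `r = √D`, `r² = D = f² + X²`:
`F1' + FF = (1/f²) [ (Y² - X²) r² - X² Y² + r⁴ ] / r³ = (1/f²) (r² - X²)(r² + Y²)/r³ = N / r³ = Th`.
Use `FD.comp`, `FD.mul`, or prove the `HasDerivAt` directly at each `g` (`simp [fr_zero]`).
-/

open MeasureTheory Real
open scoped Matrix
open Pool.Agent.Lib_MP_f78f32_gt

namespace Pool.Agent.Lib_MP_f78f32_gb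

namespace DensA

lemma inner_col (g h : G) (j k : Fin 3) :
    inner ℝ (col g j) (col h k) = ∑ i, g.1 i j * h.1 i k := by
  simp [col, PiLp.inner_apply, mul_comm]

lemma norm_col (g : G) (j : Fin 3) : ‖col g j‖ = 1 := by
  have h : inner ℝ (col g j) (col g j) = (1 : ℝ) := by
    rw [inner_col, G.col_dot, if_pos rfl]
  rw [real_inner_self_eq_norm_sq] at h
  have h0 := norm_nonneg (col g j)
  nlinarith

lemma f_pos {q : Seminorm ℝ E3} {J : Jet} {m : ℝ} (hD : Dat q J m) (g : G) : 0 < J.f g := by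
  rw [hD.jq]
  have h1 := hD.lo (col g 0)
  rw [norm_col, mul_one] at h1
  exact lt_of_lt_of_le hD.m0 h1

lemma dD_pos {q : Seminorm ℝ E3} {J : Jet} {m : ℝ} (hD : Dat q J m) (g : G) : 0 < dD J g := by
  have := f_pos hD g
  unfold dD
  positivity

lemma sq_pos {q : Seminorm ℝ E3} {J : Jet} {m : ℝ} (hD : Dat q J m) (g : G) : 0 < √(dD J g) :=
  Real.sqrt_pos.2 (dD_pos hD g)

lemma dD_cont {q : Seminorm ℝ E3} {J : Jet} {m : ℝ} (hD : Dat q J m) : Continuous (dD J) := by
  have h1 := hD.ok.cf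
  have h2 := hD.ok.cX
  unfold dD
  exact (h1.pow 2).add (h2.pow 2)

lemma FD_f {q : Seminorm ℝ E3} {J : Jet} {m : ℝ} (hD : Dat q J m) : FD fr J.f (fun _ => 0) := by
  intro g
  simp only [hD.ok.inv]
  exact hasDerivAt_const _ _

lemma FD_X {q : Seminorm ℝ E3} {J : Jet} {m : ℝ} (hD : Dat q J m) : FD fr J.X J.Y := by
  intro g
  have h1 : (fun t => J.X (g * fr t)) = fun t => cos t * J.X g + sin t * J.Y g :=
    funext fun t => hD.ok.invX g t
  rw [h1]
  have := HasDerivAt.fun_add ((hasDerivAt_cos 0).mul_const (J.X g))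
    ((hasDerivAt_sin 0).mul_const (J.Y g))
  simpa using this

lemma FD_Y {q : Seminorm ℝ E3} {J : Jet} {m : ℝ} (hD : Dat q J m) :
    FD fr J.Y (fun g => -J.X g) := by
  intro g
  have h1 : (fun t => J.Y (g * fr t)) = fun t => -sin t * J.X g + cos t * J.Y g :=
    funext fun t => hD.ok.invY g t
  rw [h1]
  have := HasDerivAt.fun_add ((hasDerivAt_sin 0).fun_neg.mul_const (J.X g))
    ((hasDerivAt_cos 0).mul_const (J.Y g))
  simpa using this

lemma FD_D {q : Seminorm ℝ E3} {J : Jet} {m : ℝ} (hD : Dat q J m) :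
    FD fr (dD J) (fun g => 2 * (J.X g * J.Y g)) := by
  have h1 := FD.add (FD.pow fr_zero (FD_f hD) 2) (FD.pow fr_zero (FD_X hD) 2)
  refine FD.congr h1 fun g => ?_
  push_cast
  ring

/-- the square root of `dD` -/
lemma FD_S {q : Seminorm ℝ E3} {J : Jet} {m : ℝ} (hD : Dat q J m) :
    FD fr (fun g => √(dD J g)) (fun g => J.X g * J.Y g / √(dD J g)) := by
  have h1 : FD fr (fun g => √(dD J g)) (fun g => 1 / (2 * √(dD J g)) * (2 * (J.X g * J.Y g))) :=
    FD.comp (φ := fun x => √x) (φ' := fun x => 1 / (2 * √x)) fr_zero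
      (fun g => Real.hasDerivAt_sqrt (dD_pos hD g).ne') (FD_D hD)
  refine FD.congr h1 fun g => ?_
  have := sq_pos hD g
  field_simp

lemma FD_quot {F F' H H' : G → ℝ} (h : FD fr F F') (hH : FD fr H H') (hne : ∀ g, H g ≠ 0) :
    FD fr (fun g => F g / H g) (fun g => (F' g * H g - F g * H' g) / H g ^ 2) := fun g => by
  have h1 := (h g).fun_div (hH g) (by simpa using hne g)
  simpa using h1

end DensA

theorem FF_cont (q : Seminorm ℝ E3) (J : Jet) (m : ℝ) (hD : Dat q J m) : Continuous (FF J) := by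
  unfold FF
  refine Continuous.div (DensA.dD_cont hD).sqrt (hD.ok.cf.pow 2) fun g => ?_
  have := DensA.f_pos hD g
  positivity
theorem F1_cont (q : Seminorm ℝ E3) (J : Jet) (m : ℝ) (hD : Dat q J m) : Continuous (F1 J) := by
  unfold F1
  refine Continuous.div (hD.ok.cX.mul hD.ok.cY)
    ((hD.ok.cf.pow 2).mul (DensA.dD_cont hD).sqrt) fun g => ?_
  have := DensA.f_pos hD g
  have := DensA.sq_pos hD g
  positivity
theorem Th_cont (q : Seminorm ℝ E3) (J : Jet) (m : ℝ) (hD : Dat q J m) : Continuous (Th J) := by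
  unfold Th nN
  refine Continuous.div (((hD.ok.cf.pow 2).add (hD.ok.cX.pow 2)).add (hD.ok.cY.pow 2))
    ((DensA.dD_cont hD).mul (DensA.dD_cont hD).sqrt) fun g => ?_
  have := DensA.dD_pos hD g
  have := DensA.sq_pos hD g
  positivity

theorem dens_FD (q : Seminorm ℝ E3) (J : Jet) (m : ℝ) (hD : Dat q J m) : FD fr (FF J) (F1 J) := by
  have h1 := DensA.FD_quot (DensA.FD_S hD) (FD.pow fr_zero (DensA.FD_f hD) 2)
    (fun g => by have := DensA.f_pos hD g; positivity)
  refine FD.congr h1 fun g => ?_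
  have h2 := DensA.f_pos hD g
  have h3 := DensA.sq_pos hD g
  unfold F1
  field_simp
  ring

theorem dens_FD1 (q : Seminorm ℝ E3) (J : Jet) (m : ℝ) (hD : Dat q J m) :
    FD fr (F1 J) (fun g => Th J g - FF J g) := by
  have h0 := FD.mul fr_zero (DensA.FD_X hD) (DensA.FD_Y hD)
  have h00 := FD.mul fr_zero (FD.pow fr_zero (DensA.FD_f hD) 2) (DensA.FD_S hD)
  have h1 := DensA.FD_quot h0 h00
    (fun g => by have := DensA.f_pos hD g; have := DensA.sq_pos hD g; positivity)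
  refine FD.congr h1 fun g => ?_
  have h2 := DensA.f_pos hD g
  have h3 := DensA.sq_pos hD g
  have h4 := Real.sq_sqrt (DensA.dD_pos hD g).le
  have h5 : dD J g = √(dD J g) ^ 2 := h4.symm
  have h6 : J.X g ^ 2 = √(dD J g) ^ 2 - J.f g ^ 2 := by rw [h4]; unfold dD; ring
  unfold Th FF nN
  rw [h5]
  rw [Real.sqrt_sq h3.le]
  generalize √(dD J g) = r at *
  push_cast
  field_simp
  linear_combination (-(J.f g * (r ^ 2 + J.Y g ^ 2 + J.f g ^ 2))) * h6

end Pool.Agent.Lib_MP_f78f32_gb
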