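import Pool.Agent.Lib_MP_f78f32_gb.DensB
import Pool.Agent.Lib_MP_f78f32_gb.DensA
import Pool.Agent.Lib_MP_f78f32_gt.SecArc
import Pool.Agent.Lib_MP_f78f32_gt.SecMono
import Pool.Agent.Lib_MP_f78f32_gt.JetInv
import Pool.Agent.Lib_MP_f78f32_gt.Wirt

/-!
# PER: almost constant perimeters of the smooth approximation

## Proof

Let `I g = ∫ t in 0..2π, FF J (g * fa t)`. The jet `J' = JetInvAux.invJ J` is `Ok`
(`JetInvAux.invJ_ok`) with `1 + J'.f g = 1 / q (col g 0)` and `J'.X = -J.X / J.f²`, so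
`√((1 + J'.f)² + J'.X²) = √(f² + X²)/f² = FF J`, and `sec_arc` gives
`H¹ (sec1 q (col g 2)) = ENNReal.ofReal (I g)`.
By `FF_le`: `0 ≤ I g ≤ 2π/m²`. From `|q x - p x| ≤ ε ‖x‖ ≤ (ε/m) p x` and `≤ (ε/m) q x`:
`q ≤ (1 + ε/m) p`, `p ≤ (1 + ε/m) q`, so by `sec_close` (twice, `e = col g 2`, `‖e‖ = 1` by
`SecArc.norm_col`): `P ≤ ofReal (1 + ε/m) * ofReal (I g)` and `ofReal (I g) ≤ ofReal (1 + ε/m) * P`.
So `P ≠ ⊤`; with `P0 = P.toReal`: `P0 ≤ (1 + ε/m) I g`, `I g ≤ (1 + ε/m) P0`, hence (`ε ≤ m`)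
`P0 ≤ 2 · 2π/m²` and `|I g - P0| ≤ (ε/m) max (I g) P0 ≤ 4 π ε/m³`.
`avg_fa` (file Wirt.lean of the library; `co v 2 (g * fa t) = co v 2 g` by `co_fa`) or the argument
of `mom_int_avg` gives `2π ∫ FF φ(c) = ∫ I φ(c) = ∫ (I - P0) φ(c)` because `∫ φ(c) = 0`. So
`|∫ FF φ(c)| ≤ (1/(2π)) (4πε/m³) A = 2 ε A / m³`.
(Continuity of `I`: `wirt_avg_cont` with `fa`, or `intervalIntegral.continuous_parametric...`.)
-/

open MeasureTheory Real
open scoped Matrix
open Pool.Agent.Lib_MP_f78f32_gt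

namespace Pool.Agent.Lib_MP_f78f32_gb

theorem per (p q : Seminorm ℝ E3) (J : Jet) (m : ℝ) (hD : Dat q J m) (hp : ∀ x, m * ‖x‖ ≤ p x)
    (ε : ℝ) (hε : 0 < ε) (hε1 : ε ≤ m) (hclose : ∀ x, |q x - p x| ≤ ε * ‖x‖)
    (P : ENNReal) (hP : ∀ e : E3, ‖e‖ = 1 → Measure.hausdorffMeasure (1:ℝ) (sec1 p e) = P)
    (v : Fin 3 → ℝ) (φ : ℝ → ℝ) (hφ : Continuous φ) (A : ℝ) (hA : ∀ c, |φ c| ≤ A)
    (hint : ∫ g, φ (co v 2 g) ∂μ = 0) :
    |∫ g, FF J g * φ (co v 2 g) ∂μ| ≤ 10 * ε * A / m ^ 3 := by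
  have hm := hD.m0
  have hpi := Real.pi_pos
  have hA0 : 0 ≤ A := (abs_nonneg _).trans (hA 0)
  have hfpos : ∀ g, 0 < J.f g := by
    intro g
    have := hD.lo (col g 0)
    rw [SecArc.norm_col, mul_one, ← hD.jq] at this
    linarith
  have hne : ∀ g, J.f g ≠ 0 := fun g => (hfpos g).ne'
  have cFF := FF_cont q J m hD
  have hI : ∃ I : G → ℝ, ∀ g, I g = ∫ t in (0:ℝ)..(2 * π), FF J (g * fa t) := ⟨_, fun _ => rfl⟩
  obtain ⟨I, hI⟩ := hI
  have cI : Continuous I := by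
    have h1 := wirt_avg_cont (FF J) cFF
    have h2 : I = fun g => ∫ t in (0:ℝ)..(2 * π), FF J (g * fa t) := funext hI
    rw [h2]; exact h1
  have hsec : ∀ g, Measure.hausdorffMeasure (1:ℝ) (sec1 q (col g 2)) = ENNReal.ofReal (I g) := by
    intro g
    rw [sec_arc q m hm hD.lo (JetInvAux.invJ J) (JetInvAux.invJ_ok J hD.ok hne) ?_ g, hI]
    · congr 1
      apply intervalIntegral.integral_congr
      intro t _
      show √((1 + ((J.f (g * fa t))⁻¹ - 1)) ^ 2 + (-J.X (g * fa t) / J.f (g * fa t) ^ 2) ^ 2) =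
        √(J.f (g * fa t) ^ 2 + J.X (g * fa t) ^ 2) / J.f (g * fa t) ^ 2
      have h0 := hfpos (g * fa t)
      have e1 : (1 + ((J.f (g * fa t))⁻¹ - 1)) ^ 2 +
          (-J.X (g * fa t) / J.f (g * fa t) ^ 2) ^ 2 =
          (J.f (g * fa t) ^ 2 + J.X (g * fa t) ^ 2) / (J.f (g * fa t) ^ 2) ^ 2 := by
        field_simp
        ring
      rw [e1, Real.sqrt_div' _ (by positivity), Real.sqrt_sq (by positivity)]
    · intro g
      show 1 + ((J.f g)⁻¹ - 1) = 1 / q (col g 0)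
      rw [hD.jq]; ring
  have hI0 : ∀ g, 0 ≤ I g := by
    intro g
    rw [hI]
    apply intervalIntegral.integral_nonneg (by positivity)
    intro t _
    exact zero_le_one.trans (FF_ge_one q J m hD _)
  have hI1 : ∀ g, I g ≤ 2 * π / m ^ 2 := by
    intro g
    rw [hI]
    have h1 : ∫ t in (0:ℝ)..(2 * π), FF J (g * fa t) ≤ ∫ _t in (0:ℝ)..(2 * π), 1 / m ^ 2 := by
      apply intervalIntegral.integral_mono_on (by positivity)
      · exact (cFF.comp (continuous_const.mul fa_cont)).intervalIntegrable _ _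
      · exact intervalIntegrable_const
      · intro t _
        exact FF_le q J m hD _
    rw [intervalIntegral.integral_const, smul_eq_mul, sub_zero] at h1
    refine h1.trans (le_of_eq ?_)
    ring
  have hc0 : (0:ℝ) < 1 + ε / m := by positivity
  have hc2 : 1 + ε / m ≤ 2 := by
    have : ε / m ≤ 1 := by rw [div_le_one hm]; exact hε1
    linarith
  have hqp : ∀ x, q x ≤ (1 + ε / m) * p x := by
    intro x
    have h1 := (abs_le.mp (hclose x)).2
    have h2 := hp x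
    have h3 : ε * ‖x‖ ≤ ε / m * p x := by
      have : ε * ‖x‖ = ε / m * (m * ‖x‖) := by field_simp
      rw [this]
      exact mul_le_mul_of_nonneg_left h2 (by positivity)
    linarith
  have hpq : ∀ x, p x ≤ (1 + ε / m) * q x := by
    intro x
    have h1 := (abs_le.mp (hclose x)).1
    have h2 := hD.lo x
    have h3 : ε * ‖x‖ ≤ ε / m * q x := by
      have : ε * ‖x‖ = ε / m * (m * ‖x‖) := by field_simp
      rw [this]
      exact mul_le_mul_of_nonneg_left h2 (by positivity)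
    linarith
  have h1 : ∀ g, P ≤ ENNReal.ofReal ((1 + ε / m) * I g) := by
    intro g
    have := sec_close p q m hm hp hD.lo (1 + ε / m) hc0 hqp (col g 2)
    rw [hP _ (SecArc.norm_col g 2), hsec] at this
    rw [ENNReal.ofReal_mul hc0.le]
    exact this
  have h2 : ∀ g, ENNReal.ofReal (I g) ≤ ENNReal.ofReal (1 + ε / m) * P := by
    intro g
    have := sec_close q p m hm hD.lo hp (1 + ε / m) hc0 hpq (col g 2)
    rw [hP _ (SecArc.norm_col g 2), hsec] at this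
    exact this
  have hPt : P ≠ ⊤ := ne_top_of_le_ne_top ENNReal.ofReal_ne_top (h1 1)
  obtain ⟨P0, hP0⟩ : ∃ P0 : ℝ, P0 = P.toReal := ⟨_, rfl⟩
  have hP0n : 0 ≤ P0 := by rw [hP0]; exact ENNReal.toReal_nonneg
  have hPe : P = ENNReal.ofReal P0 := by rw [hP0, ENNReal.ofReal_toReal hPt]
  have h3 : ∀ g, P0 ≤ (1 + ε / m) * I g := by
    intro g
    have := h1 g
    rw [hPe, ENNReal.ofReal_le_ofReal_iff (mul_nonneg hc0.le (hI0 g))] at this
    exact this
  have h4 : ∀ g, I g ≤ (1 + ε / m) * P0 := by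
    intro g
    have := h2 g
    rw [hPe, ← ENNReal.ofReal_mul hc0.le,
      ENNReal.ofReal_le_ofReal_iff (mul_nonneg hc0.le hP0n)] at this
    exact this
  have hP1 : P0 ≤ 4 * π / m ^ 2 := by
    have a1 := h3 1
    have a2 := hI1 1
    have a3 : (1 + ε / m) * I 1 ≤ 2 * (2 * π / m ^ 2) :=
      mul_le_mul hc2 a2 (hI0 1) (by norm_num)
    calc P0 ≤ 2 * (2 * π / m ^ 2) := a1.trans a3
      _ = 4 * π / m ^ 2 := by ring
  have h5 : ∀ g, |I g - P0| ≤ 4 * π * ε / m ^ 3 := by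
    intro g
    have e0 : 4 * π * ε / m ^ 3 = ε / m * (4 * π / m ^ 2) := by field_simp
    rw [e0, abs_le]
    have a1 := h3 g
    have a2 := h4 g
    have a3 : ε / m * I g ≤ ε / m * (4 * π / m ^ 2) := by
      apply mul_le_mul_of_nonneg_left _ (by positivity)
      refine (hI1 g).trans ?_
      apply div_le_div_of_nonneg_right _ (by positivity)
      linarith
    have a4 : ε / m * P0 ≤ ε / m * (4 * π / m ^ 2) :=
      mul_le_mul_of_nonneg_left hP1 (by positivity)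
    constructor <;> nlinarith
  have hu : Continuous fun g : G => φ (co v 2 g) := hφ.comp (co_cont v 2)
  have h6 := avg_fa (fun g => φ (co v 2 g)) (FF J) hu cFF (fun g t => by
    show φ (co v 2 (g * fa t)) = φ (co v 2 g)
    rw [(co_fa v g t).2.2])
  have h7 : ∫ g, FF J g * φ (co v 2 g) ∂μ = ∫ g, φ (co v 2 g) * FF J g ∂μ := by
    congr 1
    funext g
    ring
  rw [h7, h6]
  have h8 : ∫ g, φ (co v 2 g) * ((1 / (2 * π)) * ∫ t in (0:ℝ)..(2 * π), FF J (g * fa t)) ∂μ =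
      ∫ g, (1 / (2 * π)) * (φ (co v 2 g) * (I g - P0)) ∂μ := by
    have e1 : ∫ g, (1 / (2 * π)) * (φ (co v 2 g) * (I g - P0)) ∂μ =
        ∫ g, (φ (co v 2 g) * ((1 / (2 * π)) * ∫ t in (0:ℝ)..(2 * π), FF J (g * fa t)) -
          (P0 / (2 * π)) * φ (co v 2 g)) ∂μ := by
      congr 1
      funext g
      rw [hI]
      ring
    rw [e1, integral_sub, integral_const_mul, hint, mul_zero, sub_zero]
    · apply intg
      have : Continuous fun g : G => φ (co v 2 g) * ((1 / (2 * π)) * I g) :=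
        hu.mul (continuous_const.mul cI)
      simp only [hI] at this
      exact this
    · exact intg (continuous_const.mul hu)
  rw [h8]
  have h9 : ∀ g, ‖(1 / (2 * π)) * (φ (co v 2 g) * (I g - P0))‖ ≤ 2 * ε * A / m ^ 3 := by
    intro g
    rw [Real.norm_eq_abs, abs_mul, abs_mul, abs_of_pos (by positivity : (0:ℝ) < 1 / (2 * π))]
    have a1 : |φ (co v 2 g)| * |I g - P0| ≤ A * (4 * π * ε / m ^ 3) :=
      mul_le_mul (hA _) (h5 g) (abs_nonneg _) hA0
    calc 1 / (2 * π) * (|φ (co v 2 g)| * |I g - P0|)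
        ≤ 1 / (2 * π) * (A * (4 * π * ε / m ^ 3)) :=
          mul_le_mul_of_nonneg_left a1 (by positivity)
      _ = 2 * ε * A / m ^ 3 := by field_simp; ring
  have h10 := norm_integral_le_of_norm_le_const (μ := μ) (Filter.Eventually.of_forall h9)
  rw [Real.norm_eq_abs, probReal_univ, mul_one] at h10
  refine h10.trans ?_
  apply div_le_div_of_nonneg_right _ (by positivity)
  have : 0 ≤ ε * A := by positivity
  linarith

end Pool.Agent.Lib_MP_f78f32_gb
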