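import Pool.Agent.Lib_MP_f78f32_gb.Defs
import Pool.Agent.Lib_MP_f78f32_gt.Moments

/-!
# LAW: a coordinate of a uniformly distributed unit vector is uniformly distributed on `[-1, 1]`
-/

open MeasureTheory Real
open scoped Matrix
open Pool.Agent.Lib_MP_f78f32_gt

namespace Pool.Agent.Lib_MP_f78f32_gb

private lemma law_surj (x : Fin 3 → ℝ) (h1 : x 0 ^ 2 + x 1 ^ 2 + x 2 ^ 2 = 1) :
    ∃ g : G, (fun i => g.1 i 0) = x := by
  set z : ℂ := ⟨x 1, x 2⟩ with hz
  have hzn : ‖z‖ = √(1 - x 0 ^ 2) := by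
    rw [Complex.norm_def, Complex.normSq_apply]
    congr 1
    simp only [hz]
    linarith
  have hc : ‖z‖ * cos z.arg = x 1 := by
    rw [Complex.norm_mul_cos_arg]
  have hs : ‖z‖ * sin z.arg = x 2 := by
    rw [Complex.norm_mul_sin_arg]
  have h0 : -1 ≤ x 0 ∧ x 0 ≤ 1 := by
    constructor <;> nlinarith [sq_nonneg (x 1), sq_nonneg (x 2)]
  have hcos := Real.cos_arccos h0.1 h0.2
  have hsin := Real.sin_arccos (x 0)
  refine ⟨fr z.arg * fa (arccos (x 0)), ?_⟩
  funext i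
  show (fr z.arg * fa (arccos (x 0))).1 i 0 = x i
  rw [(mul_fa (fr z.arg) (arccos (x 0)) i).1, hcos, hsin, ← hzn]
  fin_cases i
  · simp [fr_val]
  · simp only [fr_val]
    simp [hc]
  · simp only [fr_val]
    simp [hs]

/-- the columns of a random frame have the same law -/
private lemma law_col (v : Fin 3 → ℝ) (j : Fin 3) (φ : ℝ → ℝ) :
    ∫ g, φ (co v j g) ∂μ = ∫ g, φ (co v 0 g) ∂μ := by
  fin_cases j
  · rfl
  · have h1 := int_right (fun g => φ (co v 0 g)) (fa (π / 2))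
    rw [← h1]
    refine integral_congr_ae (Filter.Eventually.of_forall fun g => ?_)
    simp [(co_fa v g (π / 2)).1]
  · have h1 := int_right (fun g => φ (co v 0 g)) (fb (π / 2))
    rw [← h1]
    refine integral_congr_ae (Filter.Eventually.of_forall fun g => ?_)
    simp [(co_fb v g (π / 2)).1]

private lemma law_pow (v : Fin 3 → ℝ) (hv : v 0 ^ 2 + v 1 ^ 2 + v 2 ^ 2 = 1) (n : ℕ) :
    ∫ g, co v 0 g ^ n ∂μ = (1 / 2) * ∫ t in (-1:ℝ)..1, t ^ n := by
  rw [integral_pow]
  obtain ⟨k, rfl | rfl⟩ := n.even_or_odd'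
  · obtain ⟨h, hh⟩ := law_surj v hv
    have h1 := moment h k
    simp only [kk_eq_co, hh] at h1
    rw [h1]
    have h2 : ((-1:ℝ)) ^ (2 * k + 1) = -1 := Odd.neg_one_pow ⟨k, rfl⟩
    rw [h2]
    push_cast
    simp
    ring
  · have h1 := int_right (fun g => co v 0 g ^ (2 * k + 1)) (fa π)
    have h2 : ∀ g, co v 0 (g * fa π) ^ (2 * k + 1) = -(co v 0 g ^ (2 * k + 1)) := by
      intro g
      rw [(co_fa v g π).1]
      simp only [cos_pi, sin_pi, zero_mul, add_zero, neg_mul, one_mul]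
      exact Odd.neg_pow ⟨k, rfl⟩ _
    simp only [h2, integral_neg] at h1
    have h3 : ∫ g, co v 0 g ^ (2 * k + 1) ∂μ = 0 := by linarith
    rw [h3]
    have h4 : ((-1:ℝ)) ^ (2 * k + 1 + 1) = 1 := Even.neg_one_pow ⟨k + 1, by ring⟩
    rw [h4]
    simp

private lemma law_poly (v : Fin 3 → ℝ) (hv : v 0 ^ 2 + v 1 ^ 2 + v 2 ^ 2 = 1)
    (P : Polynomial ℝ) :
    ∫ g, P.eval (co v 0 g) ∂μ = (1 / 2) * ∫ t in (-1:ℝ)..1, P.eval t := by
  induction P using Polynomial.induction_on' with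
  | add p q hp hq =>
    simp only [Polynomial.eval_add]
    have c1 : Continuous fun g => p.eval (co v 0 g) := by fun_prop
    have c2 : Continuous fun g => q.eval (co v 0 g) := by fun_prop
    rw [integral_add (intg c1) (intg c2), intervalIntegral.integral_add
      (p.continuous.intervalIntegrable _ _) (q.continuous.intervalIntegrable _ _), hp, hq]
    ring
  | monomial n a =>
    simp only [Polynomial.eval_monomial]
    rw [integral_const_mul, intervalIntegral.integral_const_mul, law_pow v hv n]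
    ring

private lemma co_mem (v : Fin 3 → ℝ) (hv : v 0 ^ 2 + v 1 ^ 2 + v 2 ^ 2 = 1) (g : G) :
    co v 0 g ∈ Set.Icc (-1 : ℝ) 1 := by
  have := co_sq v g
  have h1 := sq_nonneg (co v 1 g)
  have h2 := sq_nonneg (co v 2 g)
  have h3 : co v 0 g ^ 2 ≤ 1 := by linarith
  exact abs_le.mp ((sq_le_one_iff_abs_le_one _).mp h3)

theorem int_zonal (v : Fin 3 → ℝ) (hv : v 0 ^ 2 + v 1 ^ 2 + v 2 ^ 2 = 1) (j : Fin 3) (φ : ℝ → ℝ)
    (hφ : Continuous φ) : ∫ g, φ (co v j g) ∂μ = (1 / 2) * ∫ t in (-1:ℝ)..1, φ t := by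
  rw [law_col]
  have key : ∀ ε > 0, |∫ g, φ (co v 0 g) ∂μ - (1 / 2) * ∫ t in (-1:ℝ)..1, φ t| ≤ 2 * ε := by
    intro ε hε
    obtain ⟨P, hP⟩ := exists_polynomial_near_of_continuousOn (-1) 1 φ hφ.continuousOn ε hε
    have c1 : Continuous fun g => φ (co v 0 g) := by fun_prop
    have c2 : Continuous fun g => P.eval (co v 0 g) := by fun_prop
    have e1 : |∫ g, φ (co v 0 g) ∂μ - ∫ g, P.eval (co v 0 g) ∂μ| ≤ ε := by
      rw [← integral_sub (intg c1) (intg c2), ← Real.norm_eq_abs]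
      refine (norm_integral_le_of_norm_le_const (C := ε)
        (Filter.Eventually.of_forall fun g => ?_)).trans ?_
      · rw [Real.norm_eq_abs, abs_sub_comm]
        exact (hP _ (co_mem v hv g)).le
      · simp
    have e2 : |(∫ t in (-1:ℝ)..1, P.eval t) - ∫ t in (-1:ℝ)..1, φ t| ≤ 2 * ε := by
      rw [← intervalIntegral.integral_sub (P.continuous.intervalIntegrable _ _)
        (hφ.intervalIntegrable _ _), ← Real.norm_eq_abs]
      refine (intervalIntegral.norm_integral_le_of_norm_le_const (C := ε) fun t ht => ?_).trans ?_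
      · rw [Real.norm_eq_abs]
        rw [Set.uIoc_of_le (by norm_num)] at ht
        exact (hP t ⟨ht.1.le, ht.2⟩).le
      · norm_num
        linarith
    have e3 := law_poly v hv P
    rw [abs_le] at e1 e2 ⊢
    constructor <;> linarith [e1.1, e1.2, e2.1, e2.2]
  have h0 : |∫ g, φ (co v 0 g) ∂μ - (1 / 2) * ∫ t in (-1:ℝ)..1, φ t| ≤ 0 := by
    refine le_of_forall_pos_le_add fun ε hε => ?_
    have := key (ε / 2) (by positivity)
    linarith
  have := abs_nonpos_iff.mp h0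
  linarith

theorem law (v : Fin 3 → ℝ) (hv : v 0 ^ 2 + v 1 ^ 2 + v 2 ^ 2 = 1) (j : Fin 3) :
    Measure.map (co v j) μ = (2 : ENNReal)⁻¹ • (volume.restrict (Set.Icc (-1 : ℝ) 1)) := by
  have hm : Measurable (co v j) := (co_cont v j).measurable
  have : IsFiniteMeasure (Measure.map (co v j) μ) := Measure.isFiniteMeasure_map μ (co v j)
  have : IsFiniteMeasure ((2 : ENNReal)⁻¹ • (volume.restrict (Set.Icc (-1 : ℝ) 1))) := by
    refine Measure.smul_finite _ (by simp)
  refine ext_of_forall_integral_eq_of_IsFiniteMeasure fun f => ?_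
  rw [integral_map hm.aemeasurable f.continuous.aestronglyMeasurable,
    int_zonal v hv j f f.continuous, integral_smul_measure,
    intervalIntegral.integral_of_le (by norm_num), integral_Icc_eq_integral_Ioc]
  simp

private lemma mes_eq (v : Fin 3 → ℝ) (hv : v 0 ^ 2 + v 1 ^ 2 + v 2 ^ 2 = 1) (j : Fin 3)
    (S : Set ℝ) (hS : MeasurableSet S) :
    μ.real {g | co v j g ∈ S} = (1 / 2) * volume.real (S ∩ Set.Icc (-1 : ℝ) 1) := by
  have hm : Measurable (co v j) := (co_cont v j).measurable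
  have h1 : μ {g | co v j g ∈ S} = Measure.map (co v j) μ S := by
    rw [Measure.map_apply hm hS]; rfl
  rw [measureReal_def, h1, law v hv j, Measure.smul_apply, Measure.restrict_apply hS,
    smul_eq_mul, ENNReal.toReal_mul, measureReal_def]
  simp

theorem mes_c (v : Fin 3 → ℝ) (hv : v 0 ^ 2 + v 1 ^ 2 + v 2 ^ 2 = 1) (t : ℝ) (ht : 0 ≤ t) :
    μ.real {g | |co v 2 g| ≤ t} ≤ t := by
  have h1 : {g : G | |co v 2 g| ≤ t} = {g | co v 2 g ∈ Set.Icc (-t) t} := by
    ext g
    simp [abs_le]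
  rw [h1, mes_eq v hv 2 _ measurableSet_Icc]
  have h2 : volume.real (Set.Icc (-t) t ∩ Set.Icc (-1 : ℝ) 1) ≤ volume.real (Set.Icc (-t) t) :=
    measureReal_mono Set.inter_subset_left (by simp)
  rw [Real.volume_real_Icc_of_le (by linarith)] at h2
  linarith

theorem mes_u (v : Fin 3 → ℝ) (hv : v 0 ^ 2 + v 1 ^ 2 + v 2 ^ 2 = 1) (t : ℝ) (ht : 0 ≤ t) :
    μ.real {g | uu v g ≤ t} ≤ t := by
  rcases le_or_gt 1 t with h | h
  · exact measureReal_le_one.trans h
  set s := √(1 - t) with hs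
  have hs0 : 0 ≤ s := Real.sqrt_nonneg _
  have hss : s ^ 2 = 1 - t := Real.sq_sqrt (by linarith)
  have hs1 : s ≤ 1 := by nlinarith
  have h1 : {g : G | uu v g ≤ t} = {g | co v 0 g ∈ (Set.Ioo (-s) s)ᶜ} := by
    ext g
    simp only [Set.mem_ofPred_eq, Set.mem_compl_iff, Set.mem_Ioo, ← abs_lt, not_lt]
    rw [uu_eq v hv]
    constructor
    · intro h2
      have h3 : s ^ 2 ≤ co v 0 g ^ 2 := by linarith
      have := Real.sqrt_le_sqrt h3
      rwa [Real.sqrt_sq hs0, Real.sqrt_sq_eq_abs] at this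
    · intro h2
      have h3 : s ^ 2 ≤ |co v 0 g| ^ 2 := pow_le_pow_left₀ hs0 h2 2
      rw [sq_abs] at h3
      linarith
  rw [h1, mes_eq v hv 0 _ measurableSet_Ioo.compl]
  have h2 : volume.real ((Set.Ioo (-s) s)ᶜ ∩ Set.Icc (-1 : ℝ) 1) ≤
      volume.real (Set.Icc (-1) (-s) ∪ Set.Icc s 1) := by
    refine measureReal_mono ?_ ?_
    · intro x hx
      simp only [Set.mem_inter_iff, Set.mem_compl_iff, Set.mem_Ioo, Set.mem_Icc, not_and,
        not_lt] at hx
      rcases le_or_gt x (-s) with h3 | h3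
      · left; exact ⟨hx.2.1, h3⟩
      · right; exact ⟨hx.1 h3, hx.2.2⟩
    · exact (measure_union_lt_top (by simp) (by simp)).ne
  have h3 := measureReal_union_le (μ := volume) (Set.Icc (-1) (-s)) (Set.Icc s 1)
  rw [Real.volume_real_Icc_of_le (by linarith), Real.volume_real_Icc_of_le hs1] at h3
  nlinarith

end Pool.Agent.Lib_MP_f78f32_gb
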