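import Pool.Agent.Lib_MP_f78f32_gb.Supp
import Pool.Agent.Lib_MP_f78f32_gb.Near
import Pool.Agent.Lib_MP_f78f32_gb.Law
import Pool.Agent.Lib_MP_f78f32_gt.SecArc
import Pool.Agent.Lib_MP_f78f32_gt.SecMono

/-!
# SECOND: a second point where the seminorm is maximal

## Proof

Let `v = fun i => x0 i` (unit vector: `unit_sq`). The set
`S = {y : ‖y‖ = 1 ∧ m/8 ≤ ‖y - x0‖ ∧ m/8 ≤ ‖y + x0‖}` is compact and `p` is continuous (`sm_cont` in
SecMono.lean of the library). Claim: for every `η ∈ (0, 1/2)` there is `y ∈ S` with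
`p y ≥ 1 - η`. Then `S` is nonempty, `p` attains its maximum over `S` at some `x1` and `p x1 ≥ 1 - η`
for all `η`, so `p x1 ≥ 1`, and `p x1 ≤ ‖x1‖ = 1`; `x1 ≠ ± x0` because `m > 0`.
(Note: `p x0 = 1` is not needed.)

Proof of the claim: apply `H` with `η' = η m / 16` to get `q, J`. The set
`B = {g : |co v 0 g| ≤ m/4}` has measure `≥ m/4` (by `law v hv 0` it is exactly `m/4`; `m ≤ 1`). Since
`1 - nN J g ≥ 0` (`nN_le_one`) and its integral is `≤ η m/16`, some `g ∈ B` has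
`1 - nN J g ≤ η/2` (otherwise the integral over `B` is `> (m/4)(η/2)`; Markov:
`mul_meas_ge_le_integral_of_nonneg` or `exists_le_average`-type lemmas). Let `V = VV J g`,
`‖V‖² = nN J g ∈ [1 - η/2, 1]`, so `V ≠ 0`, and `y = V/‖V‖`. `supp` gives
`q V ≥ ‖V‖²`, i.e. `q y ≥ ‖V‖ ≥ ‖V‖² ≥ 1 - η/2`, `p y ≥ q y - η' ≥ 1 - η`. Moreover
`inner y (col g 0) = J.f g / ‖V‖ ≥ J.f g ≥ m/2` (`inner_VV_col`, `hD.lo`, `‖V‖ ≤ 1`) and
`|inner x0 (col g 0)| = |co v 0 g| ≤ m/4` (`co_eq_inner`), so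
`‖y ∓ x0‖ ≥ |inner (y ∓ x0) (col g 0)| ≥ m/2 - m/4 ≥ m/8`.
-/

open MeasureTheory Real
open scoped Matrix
open Pool.Agent.Lib_MP_f78f32_gt

namespace Pool.Agent.Lib_MP_f78f32_gb

private lemma second_mes (v : Fin 3 → ℝ) (hv : v 0 ^ 2 + v 1 ^ 2 + v 2 ^ 2 = 1) (m : ℝ)
    (hm : 0 < m) (hm1 : m ≤ 1) : m / 4 ≤ μ.real {g | |co v 0 g| ≤ m / 4} := by
  have h1 : {g | |co v 0 g| ≤ m / 4} = (co v 0) ⁻¹' (Set.Icc (-(m / 4)) (m / 4)) := by
    ext g
    simp only [Set.mem_ofPred_eq, Set.mem_preimage, Set.mem_Icc, abs_le]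
  have h2 : μ.real {g | |co v 0 g| ≤ m / 4} =
      (Measure.map (co v 0) μ).real (Set.Icc (-(m / 4)) (m / 4)) := by
    rw [h1, measureReal_def, measureReal_def, Measure.map_apply (co_cont v 0).measurable
      measurableSet_Icc]
  rw [h2, law v hv 0, measureReal_def]
  simp only [Measure.smul_apply, smul_eq_mul]
  rw [Measure.restrict_apply measurableSet_Icc]
  have h3 : Set.Icc (-(m / 4)) (m / 4) ∩ Set.Icc (-1 : ℝ) 1 = Set.Icc (-(m / 4)) (m / 4) := by
    apply Set.inter_eq_left.2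
    intro t ht
    exact ⟨by linarith [ht.1], by linarith [ht.2]⟩
  rw [h3, Real.volume_Icc, ENNReal.toReal_mul, ENNReal.toReal_inv]
  rw [ENNReal.toReal_ofReal (by linarith)]
  simp only [ENNReal.toReal_ofNat]
  linarith

private lemma second_mk (q : Seminorm ℝ E3) (J : Jet) (m : ℝ) (hm : 0 < m) (hD : Dat q J (m / 2))
    (g : G) (η : ℝ) (hη : 0 < η) (hη1 : η < 1 / 2) (h : 1 - nN J g ≤ η / 2) :
    ∃ y : E3, ‖y‖ = 1 ∧ 1 - η / 2 ≤ q y ∧ m / 2 ≤ inner ℝ y (col g 0) := by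
  have h1 := norm_VV_sq J g
  have h2 := nN_le_one q J _ hD g
  have h3 : 0 ≤ ‖VV J g‖ := norm_nonneg _
  have h4 : ‖VV J g‖ ≤ 1 := by nlinarith
  have h5 : 0 < ‖VV J g‖ := by
    rcases h3.lt_or_eq with h5 | h5
    · exact h5
    · rw [← h5] at h1
      linarith
  refine ⟨‖VV J g‖⁻¹ • VV J g, ?_, ?_, ?_⟩
  · rw [norm_smul, norm_inv, norm_norm]
    exact inv_mul_cancel₀ h5.ne'
  · rw [map_smul_eq_mul, norm_inv, norm_norm]
    have h6 := supp q J hD.ok hD.jq g (VV J g)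
    rw [real_inner_self_eq_norm_sq] at h6
    have h7 : ‖VV J g‖ ≤ ‖VV J g‖⁻¹ * q (VV J g) := by
      calc ‖VV J g‖ = ‖VV J g‖⁻¹ * ‖VV J g‖ ^ 2 := by field_simp
        _ ≤ _ := by gcongr
    nlinarith
  · rw [real_inner_smul_left, inner_VV_col]
    have h8 : m / 2 ≤ J.f g := by
      have := hD.lo (col g 0)
      rw [SecArc.norm_col, mul_one] at this
      rw [hD.jq g]
      exact this
    have h9 : 1 ≤ ‖VV J g‖⁻¹ := (one_le_inv₀ h5).2 h4
    nlinarith

theorem second (p : Seminorm ℝ E3) (m : ℝ) (hm : 0 < m) (hm1 : m ≤ 1) (h1 : ∀ x, m * ‖x‖ ≤ p x)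
    (h2 : ∀ x, p x ≤ ‖x‖) (x0 : E3) (hx0 : ‖x0‖ = 1)
    (H : ∀ η : ℝ, 0 < η → ∃ (q : Seminorm ℝ E3) (J : Jet), Dat q J (m / 2) ∧
      (∀ x, |q x - p x| ≤ η * ‖x‖) ∧ ∫ g, (1 - nN J g) ∂μ ≤ η) :
    ∃ x1 : E3, ‖x1‖ = 1 ∧ p x1 = 1 ∧ x1 ≠ x0 ∧ x1 ≠ -x0 := by
  set S : Set E3 := Metric.sphere 0 1 ∩ {y | m / 8 ≤ ‖y - x0‖ ∧ m / 8 ≤ ‖y + x0‖} with hS
  have hSc : IsCompact S := by
    apply (isCompact_sphere _ _).inter_right
    apply IsClosed.inter (s₁ := {y : E3 | m / 8 ≤ ‖y - x0‖}) (s₂ := {y : E3 | m / 8 ≤ ‖y + x0‖})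
    · exact isClosed_le continuous_const (by fun_prop)
    · exact isClosed_le continuous_const (by fun_prop)
  have claim : ∀ η : ℝ, 0 < η → η < 1 / 2 → ∃ y ∈ S, 1 - η ≤ p y := by
    intro η hη hη1
    obtain ⟨q, J, hD, hqp, hint⟩ := H (η * m / 16) (by positivity)
    have hv := unit_sq x0 hx0
    obtain ⟨g, hgB, hg⟩ : ∃ g, |co (fun i => x0 i) 0 g| ≤ m / 4 ∧ 1 - nN J g ≤ η / 2 := by
      by_contra hcon
      push Not at hcon
      have hB := second_mes (fun i => x0 i) hv m hm hm1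
      set B : Set G := {g | |co (fun i => x0 i) 0 g| ≤ m / 4} with hBd
      have mB : MeasurableSet B := (isClosed_le (by fun_prop) continuous_const).measurableSet
      have hcn : Continuous (fun g => 1 - nN J g) := by
        unfold nN
        have := hD.ok.cf
        have := hD.ok.cX
        have := hD.ok.cY
        fun_prop
      have h3 : ∫ g, B.indicator (fun _ => η / 2) g ∂μ ≤ ∫ g, (1 - nN J g) ∂μ := by
        apply integral_mono ((integrable_const _).indicator mB) (intg hcn)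
        intro g
        by_cases hgB : g ∈ B
        · simp only [Set.indicator_of_mem hgB]
          exact (hcon g hgB).le
        · simp only [Set.indicator_of_notMem hgB]
          have := nN_le_one q J _ hD g
          linarith
      rw [integral_indicator_const _ mB, smul_eq_mul] at h3
      have h4 : m / 4 * (η / 2) ≤ μ.real B * (η / 2) := by gcongr
      have h5 : 0 < η * m := by positivity
      nlinarith
    obtain ⟨y, hy1, hy2, hy3⟩ := second_mk q J m hm hD g η hη hη1 hg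
    have hnc : ‖col g 0‖ = 1 := SecArc.norm_col g 0
    have hx0c : |inner ℝ x0 (col g 0)| ≤ m / 4 := by
      rw [← co_eq_inner]
      exact hgB
    have hx0c' := abs_le.1 hx0c
    refine ⟨y, ⟨?_, ?_, ?_⟩, ?_⟩
    · simp [hy1]
    · have h6 := real_inner_le_norm (y - x0) (col g 0)
      rw [hnc, mul_one, inner_sub_left] at h6
      linarith [hx0c'.2]
    · have h6 := real_inner_le_norm (y + x0) (col g 0)
      rw [hnc, mul_one, inner_add_left] at h6
      linarith [hx0c'.1]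
    · have h7 := (abs_le.1 (hqp y)).2
      rw [hy1, mul_one] at h7
      have h8 : η * m ≤ η * 1 := by gcongr
      linarith
  obtain ⟨y0, hy0, _⟩ := claim (1 / 4) (by norm_num) (by norm_num)
  obtain ⟨x1, hx1, hmax⟩ := hSc.exists_isMaxOn ⟨y0, hy0⟩ (sm_cont p).continuousOn
  have hx1n : ‖x1‖ = 1 := by
    have := hx1.1
    simpa using this
  have hp1 : 1 ≤ p x1 := by
    by_contra hlt
    push Not at hlt
    obtain ⟨y, hy, hyp⟩ := claim (min (1 / 4) ((1 - p x1) / 2))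
      (lt_min (by norm_num) (by linarith)) (lt_of_le_of_lt (min_le_left _ _) (by norm_num))
    have h3 := hmax hy
    simp only [Set.mem_ofPred_eq] at h3
    have h4 := min_le_right (1 / 4) ((1 - p x1) / 2)
    linarith
  refine ⟨x1, hx1n, le_antisymm ((h2 x1).trans hx1n.le) hp1, ?_, ?_⟩
  · rintro rfl
    have := hx1.2.1
    rw [sub_self, norm_zero] at this
    linarith
  · rintro rfl
    have := hx1.2.2
    rw [neg_add_cancel, norm_zero] at this
    linarith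

end Pool.Agent.Lib_MP_f78f32_gb
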