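import Pool.Agent.Lib_MP_f78f32_gb.Main
import Pool.Agent.Lib_MP_f78f32_gb.Per
import Pool.Agent.Lib_MP_f78f32_gb.Appr
import Pool.Agent.Lib_MP_f78f32_gb.Second
import Pool.Agent.Lib_MP_f78f32_gb.Det
import Pool.Agent.Lib_MP_f78f32_gb.Fin

/-!
# Global rigidity
-/

open MeasureTheory Real
open scoped Matrix
open Pool.Agent.Lib_MP_f78f32_gt

namespace Pool.Agent.Lib_MP_f78f32_gb

/-- the main estimate for (non smooth) seminorms with sections of constant perimeter -/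
theorem bodies (p : Seminorm ℝ E3) (m : ℝ) (hm : 0 < m) (hm1 : m ≤ 1) (h1 : ∀ x, m * ‖x‖ ≤ p x)
    (h2 : ∀ x, p x ≤ ‖x‖) (P : ENNReal)
    (hP : ∀ e : E3, ‖e‖ = 1 → Measure.hausdorffMeasure (1:ℝ) (sec1 p e) = P) (η : ℝ) (hη : 0 < η) :
    ∃ (q : Seminorm ℝ E3) (J : Jet), Dat q J (m / 2) ∧ (∀ x, |q x - p x| ≤ η * ‖x‖) ∧
      ∀ x0 : E3, ‖x0‖ = 1 → p x0 = 1 →
        ∫ g, ((1 - nN J g) + LL (fun i => x0 i) J g ^ 2) ∂μ ≤ η := by
  set c : ℝ := 1000000 / (m / 2) ^ 3 with hc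
  have hc0 : 0 < c := by positivity
  set θ : ℝ := min (1 / 4) (η / c) with hθdef
  have hθ : 0 < θ := lt_min (by norm_num) (by positivity)
  have hθ1 : θ ≤ 1 / 4 := min_le_left _ _
  have hθ2 : c * θ ≤ η := by
    have h3 : θ ≤ η / c := min_le_right _ _
    rw [le_div_iff₀ hc0] at h3
    linarith
  set ε : ℝ := min (min (m / 4) η) (θ ^ 13 * (m / 2) ^ 3 / 60) with hεdef
  have hε : 0 < ε := lt_min (lt_min (by positivity) hη) (by positivity)
  have hε1 : ε ≤ m / 4 := (min_le_left _ _).trans (min_le_left _ _)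
  have hε2 : ε ≤ η := (min_le_left _ _).trans (min_le_right _ _)
  have hε3 : ε ≤ θ ^ 13 * (m / 2) ^ 3 / 60 := min_le_right _ _
  obtain ⟨q, J, hD, hclose⟩ := appr p m hm hm1 h1 h2 ε hε hε1
  refine ⟨q, J, hD, fun x => (hclose x).trans (by have := norm_nonneg x; gcongr), ?_⟩
  intro x0 hx0 hpx0
  have hε8 : ε ≤ θ ^ 8 := by
    have a1 : θ ^ 13 ≤ θ ^ 8 := pow_le_pow_of_le_one hθ.le (by linarith) (by norm_num)
    have a2 : (m / 2) ^ 3 ≤ 1 := pow_le_one₀ (by positivity) (by linarith)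
    have a3 : θ ^ 13 * (m / 2) ^ 3 ≤ θ ^ 8 * 1 := mul_le_mul a1 a2 (by positivity) (by positivity)
    have a4 : 0 < θ ^ 8 := by positivity
    linarith
  have hq0 : 1 - θ ^ 8 ≤ q x0 := by
    have a1 := (abs_le.mp (hclose x0)).1
    rw [hx0, mul_one, hpx0] at a1
    linarith
  have hδ1 : θ ^ 4 ≤ 1 := by
    have : θ ^ 4 ≤ 1 ^ 4 := by gcongr; linarith
    simpa using this
  have hint := int_k2 (fun i => x0 i) (unit_sq x0 hx0) (θ ^ 4) (by positivity) hδ1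
  have hE := per p q J (m / 2) hD (fun x => by
      have a1 := h1 x
      have a2 := norm_nonneg x
      nlinarith) ε hε (by linarith) hclose P hP (fun i => x0 i) (k2 (θ ^ 4)) (k2_cont _)
      (6 / (θ ^ 4) ^ 2) (fun c => k2_abs (θ ^ 4) c (by positivity)) hint
  refine (main_smooth q J (m / 2) hD x0 hx0 θ hθ hθ1 hq0 (hE.trans ?_)).trans hθ2
  have e1 : 10 * ε * (6 / (θ ^ 4) ^ 2) / (m / 2) ^ 3 = 60 * ε / (θ ^ 8 * (m / 2) ^ 3) := by
    field_simp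
    ring
  rw [e1, div_le_iff₀ (by positivity)]
  have e2 : θ ^ 5 * (θ ^ 8 * (m / 2) ^ 3) = 60 * (θ ^ 13 * (m / 2) ^ 3 / 60) := by ring
  rw [e2]
  linarith

/-- **Rigidity for seminorms.** -/
theorem seminorm_rigid (p : Seminorm ℝ E3) (m : ℝ) (hm : 0 < m) (hm1 : m ≤ 1)
    (h1 : ∀ x, m * ‖x‖ ≤ p x) (h2 : ∀ x, p x ≤ ‖x‖) (hx : ∃ x0 : E3, ‖x0‖ = 1 ∧ p x0 = 1)
    (hP : ∃ P : ENNReal, ∀ e : E3, ‖e‖ = 1 → Measure.hausdorffMeasure (1:ℝ) (sec1 p e) = P) :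
    ∀ x, p x = ‖x‖ := by
  obtain ⟨x0, hx0, hpx0⟩ := hx
  obtain ⟨P, hP⟩ := hP
  have hB := bodies p m hm hm1 h1 h2 P hP
  obtain ⟨x1, hx1, hpx1, hne, hne'⟩ := second p m hm hm1 h1 h2 x0 hx0 (by
    intro η hη
    obtain ⟨q, J, hD, hcl, hI⟩ := hB η hη
    refine ⟨q, J, hD, hcl, ?_⟩
    refine le_trans ?_ (hI x0 hx0 hpx0)
    have cN := nN_cont J hD.ok
    have cL := LL_cont (fun i => x0 i) J hD.ok
    apply integral_mono (intg (continuous_const.sub cN))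
      (intg ((continuous_const.sub cN).add (cL.pow 2)))
    intro g
    show 1 - nN J g ≤ (1 - nN J g) + LL (fun i => x0 i) J g ^ 2
    have := sq_nonneg (LL (fun i => x0 i) J g)
    linarith)
  refine det_arg p (m / 2) h2 x0 x1 hx0 hx1 hne hne' ?_
  intro η hη
  obtain ⟨q, J, hD, hcl, hI⟩ := hB η hη
  exact ⟨q, J, hD, hcl, hI x0 hx0 hpx0, hI x1 hx1 hpx1⟩

/-- **Global rigidity.** An origin-symmetric convex body of 3-space whose central sections all have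
the same perimeter is a ball. -/
theorem global_rigidity (K : Set E3) (hK : IsCompact K) (hconv : Convex ℝ K)
    (hint : (interior K).Nonempty) (hsym : ∀ x ∈ K, -x ∈ K)
    (hper : ∃ P : ENNReal, ∀ e : E3, ‖e‖ = 1 → Measure.hausdorffMeasure (1:ℝ) (relBd K e) = P) :
    ∃ (c : E3) (r : ℝ), K = Metric.closedBall c r :=
  fin_red seminorm_rigid K hK hconv hint hsym hper

end Pool.Agent.Lib_MP_f78f32_gb
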