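import Pool.Agent.Lib_MP_f78f32_gt.Defs
import Pool.Agent.Lib_MP_f78f32_gt.Bodies
import Pool.Agent.Lib_MP_f78f32_gt.SmJ

/-!
# Global rigidity: definitions

`q` is a seminorm of 3-space (the gauge of a smooth body), `J` the jet of `q` on the frames
`g = (x, τ, e)`. The section perimeter is the integral of `FF = √(q² + X²)/q²` along the flow `fa`;
along the flow `fr` (which fixes `x`) one has `FF'' + FF = Th = N / D^(3/2)`.
-/

open MeasureTheory Real
open scoped Matrix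
open Pool.Agent.Lib_MP_f78f32_gt

namespace Pool.Agent.Lib_MP_f78f32_gb

/-- a smooth seminorm with bounds, and its jet -/
structure Dat (q : Seminorm ℝ E3) (J : Jet) (m : ℝ) : Prop where
  ok : J.Ok
  jq : ∀ g, J.f g = q (col g 0)
  m0 : 0 < m
  m1 : m ≤ 1
  lo : ∀ x, m * ‖x‖ ≤ q x
  up : ∀ x, q x ≤ ‖x‖

/-- `q² + X²` -/
noncomputable def dD (J : Jet) (g : G) : ℝ := J.f g ^ 2 + J.X g ^ 2
/-- squared norm of the gradient of `q` -/
noncomputable def nN (J : Jet) (g : G) : ℝ := J.f g ^ 2 + J.X g ^ 2 + J.Y g ^ 2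
/-- length density of the section curve -/
noncomputable def FF (J : Jet) (g : G) : ℝ := √(dD J g) / J.f g ^ 2
/-- derivative of `FF` along `fr` -/
noncomputable def F1 (J : Jet) (g : G) : ℝ := J.X g * J.Y g / (J.f g ^ 2 * √(dD J g))
/-- `FF'' + FF` -/
noncomputable def Th (J : Jet) (g : G) : ℝ := nN J g / (dD J g * √(dD J g))
/-- rotation derivative of `q` about the axis `v` -/
noncomputable def LL (v : Fin 3 → ℝ) (J : Jet) (g : G) : ℝ := co v 2 g * J.X g - co v 1 g * J.Y g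
/-- gradient of the seminorm at the point `col g 0` -/
noncomputable def VV (J : Jet) (g : G) : E3 := J.f g • col g 0 + J.X g • col g 1 + J.Y g • col g 2

/-- positive part of `1 - c²/δ²` -/
noncomputable def kp (δ c : ℝ) : ℝ := max 0 (1 - c ^ 2 / δ ^ 2)
/-- bump function supported in `|c| ≤ δ` -/
noncomputable def k0 (δ c : ℝ) : ℝ := kp δ c ^ 3
/-- derivative of `k0` -/
noncomputable def k1 (δ c : ℝ) : ℝ := -(6 * c / δ ^ 2) * kp δ c ^ 2
/-- derivative of `k1` -/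
noncomputable def k2 (δ c : ℝ) : ℝ := 24 * c ^ 2 / δ ^ 4 * kp δ c - 6 / δ ^ 2 * kp δ c ^ 2
/-- `c k0 - c² k1` -/
noncomputable def p0 (δ c : ℝ) : ℝ := c * k0 δ c - c ^ 2 * k1 δ c
/-- derivative of `p0` -/
noncomputable def p1 (δ c : ℝ) : ℝ := k0 δ c - c * k1 δ c - c ^ 2 * k2 δ c

/-- squared distance of `col g 0` to the axis `v` (for a unit vector `v`) -/
noncomputable def uu (v : Fin 3 → ℝ) (g : G) : ℝ := co v 1 g ^ 2 + co v 2 g ^ 2
/-- cut off function: `0` for `u ≤ 4δ²`, `1` for `u ≥ 8δ²` -/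
noncomputable def et (δ u : ℝ) : ℝ := min 1 (max 0 (u / (4 * δ ^ 2) - 1))
/-- `et / u` -/
noncomputable def w1 (δ : ℝ) (v : Fin 3 → ℝ) (g : G) : ℝ := et δ (uu v g) / max (uu v g) (4 * δ ^ 2)
/-- `et / u²` -/
noncomputable def w2 (δ : ℝ) (v : Fin 3 → ℝ) (g : G) : ℝ := w1 δ v g / max (uu v g) (4 * δ ^ 2)

/-! ### basic facts -/

lemma co_eq_inner (x : E3) (j : Fin 3) (g : G) : co (fun i => x i) j g = inner ℝ x (col g j) := by
  simp [co, col, PiLp.inner_apply, mul_comm]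

lemma FD_co1 (v : Fin 3 → ℝ) : FD fr (fun g => co v 1 g) (fun g => co v 2 g) := by
  intro g
  have h1 : (fun t => co v 1 (g * fr t)) = fun t => cos t * co v 1 g + sin t * co v 2 g :=
    funext fun t => (co_fr v g t).2.1
  rw [h1]
  have := HasDerivAt.fun_add ((hasDerivAt_cos 0).mul_const (co v 1 g))
    ((hasDerivAt_sin 0).mul_const (co v 2 g))
  simpa using this

lemma FD_co2 (v : Fin 3 → ℝ) : FD fr (fun g => co v 2 g) (fun g => -co v 1 g) := by
  intro g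
  have h1 : (fun t => co v 2 (g * fr t)) = fun t => -sin t * co v 1 g + cos t * co v 2 g :=
    funext fun t => (co_fr v g t).2.2
  rw [h1]
  have := HasDerivAt.fun_add ((hasDerivAt_sin 0).fun_neg.mul_const (co v 1 g))
    ((hasDerivAt_cos 0).mul_const (co v 2 g))
  simpa using this

lemma uu_fr (v : Fin 3 → ℝ) (g : G) (t : ℝ) : uu v (g * fr t) = uu v g := by
  unfold uu
  rw [(co_fr v g t).2.1, (co_fr v g t).2.2]
  have := sin_sq_add_cos_sq t
  linear_combination (co v 1 g ^ 2 + co v 2 g ^ 2) * this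

lemma uu_nonneg (v : Fin 3 → ℝ) (g : G) : 0 ≤ uu v g := by unfold uu; positivity

lemma uu_eq (v : Fin 3 → ℝ) (hv : v 0 ^ 2 + v 1 ^ 2 + v 2 ^ 2 = 1) (g : G) :
    uu v g = 1 - co v 0 g ^ 2 := by
  unfold uu
  have := co_sq v g
  linarith

lemma uu_le_one (v : Fin 3 → ℝ) (hv : v 0 ^ 2 + v 1 ^ 2 + v 2 ^ 2 = 1) (g : G) :
    uu v g ≤ 1 := by
  rw [uu_eq v hv]
  have := sq_nonneg (co v 0 g)
  linarith

@[fun_prop] lemma uu_cont (v : Fin 3 → ℝ) : Continuous (uu v) := by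
  unfold uu
  fun_prop

lemma et_nonneg (δ u : ℝ) : 0 ≤ et δ u := le_min zero_le_one (le_max_left _ _)
lemma et_le_one (δ u : ℝ) : et δ u ≤ 1 := min_le_left _ _
lemma et_zero (δ u : ℝ) (hδ : 0 < δ) (h : u ≤ 4 * δ ^ 2) : et δ u = 0 := by
  unfold et
  have h1 : u / (4 * δ ^ 2) ≤ 1 := by rw [div_le_one (by positivity)]; exact h
  rw [max_eq_left (by linarith), min_eq_right zero_le_one]
lemma et_one (δ u : ℝ) (hδ : 0 < δ) (h : 8 * δ ^ 2 ≤ u) : et δ u = 1 := by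
  unfold et
  have h1 : 2 ≤ u / (4 * δ ^ 2) := by rw [le_div_iff₀ (by positivity)]; linarith
  rw [max_eq_right (by linarith), min_eq_left (by linarith)]
@[fun_prop] lemma et_cont (δ : ℝ) : Continuous (et δ) := by
  unfold et
  fun_prop

lemma w1_cont (δ : ℝ) (hδ : 0 < δ) (v : Fin 3 → ℝ) : Continuous (w1 δ v) := by
  unfold w1
  apply Continuous.div (by fun_prop) (by fun_prop)
  intro g
  have : 0 < max (uu v g) (4 * δ ^ 2) := lt_max_of_lt_right (by positivity)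
  exact this.ne'

lemma w2_cont (δ : ℝ) (hδ : 0 < δ) (v : Fin 3 → ℝ) : Continuous (w2 δ v) := by
  unfold w2
  apply Continuous.div (w1_cont δ hδ v) (by fun_prop)
  intro g
  have : 0 < max (uu v g) (4 * δ ^ 2) := lt_max_of_lt_right (by positivity)
  exact this.ne'

lemma w1_mul (δ : ℝ) (hδ : 0 < δ) (v : Fin 3 → ℝ) (g : G) :
    w1 δ v g * uu v g = et δ (uu v g) := by
  unfold w1
  by_cases h : uu v g ≤ 4 * δ ^ 2
  · rw [et_zero δ _ hδ h]; simp
  · push Not at h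
    rw [max_eq_left h.le]
    have : 0 < uu v g := lt_trans (by positivity) h
    field_simp

lemma w2_mul (δ : ℝ) (hδ : 0 < δ) (v : Fin 3 → ℝ) (g : G) :
    w2 δ v g * uu v g = w1 δ v g := by
  unfold w2
  by_cases h : uu v g ≤ 4 * δ ^ 2
  · have : w1 δ v g = 0 := by unfold w1; rw [et_zero δ _ hδ h]; simp
    rw [this]; simp
  · push Not at h
    rw [max_eq_left h.le]
    have : 0 < uu v g := lt_trans (by positivity) h
    field_simp

lemma w1_fr (δ : ℝ) (v : Fin 3 → ℝ) (g : G) (t : ℝ) : w1 δ v (g * fr t) = w1 δ v g := by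
  unfold w1; rw [uu_fr]
lemma w2_fr (δ : ℝ) (v : Fin 3 → ℝ) (g : G) (t : ℝ) : w2 δ v (g * fr t) = w2 δ v g := by
  unfold w2; rw [w1_fr, uu_fr]

lemma w1_nonneg (δ : ℝ) (v : Fin 3 → ℝ) (g : G) : 0 ≤ w1 δ v g := by
  unfold w1
  exact div_nonneg (et_nonneg _ _) (le_max_of_le_left (uu_nonneg v g))
lemma w2_nonneg (δ : ℝ) (v : Fin 3 → ℝ) (g : G) : 0 ≤ w2 δ v g := by
  unfold w2
  exact div_nonneg (w1_nonneg _ _ _) (le_max_of_le_left (uu_nonneg v g))

/-- `w1` dominates the cut off function, because `u ≤ 1` -/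
lemma et_le_w1 (δ : ℝ) (hδ : 0 < δ) (v : Fin 3 → ℝ) (hv : v 0 ^ 2 + v 1 ^ 2 + v 2 ^ 2 = 1) (g : G) :
    et δ (uu v g) ≤ w1 δ v g := by
  have h1 := w1_mul δ hδ v g
  have h2 := w1_nonneg δ v g
  have h3 := uu_le_one v hv g
  calc et δ (uu v g) = w1 δ v g * uu v g := h1.symm
    _ ≤ w1 δ v g * 1 := mul_le_mul_of_nonneg_left h3 h2
    _ = w1 δ v g := mul_one _

end Pool.Agent.Lib_MP_f78f32_gb
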