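import Pool.Agent.Lib_MP_f78f32_gb.Supp

/-!
# DENSB: bounds of the length density

`f = q (col g 0) ∈ [m, 1]` (`‖col g 0‖ = 1`: lemma `SecArc.norm_col` in
`Pool.Agent.Lib_MP_f78f32_gt.SecArc`, or reprove from `G.col_dot`), `D = dD J = f² + X²`,
`N = nN J = D + Y² ≤ 1` (`nN_le_one`).

## Proof

(2) `FF_ge_one`: `√D ≥ √(f²) = f`, so `FF ≥ 1/f ≥ 1` as `0 < f ≤ 1` (`hD.up`).

(3) `FF_le`: `D ≤ N ≤ 1` (`nN_le_one`), so `FF ≤ 1 / f² ≤ 1 / m²`.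

(4) `FF_sub_one_le`: `FF - 1 ≤ (1 - f²)/f² ≤ 2 (1 - f)/m² ≤ 2 (1-f)/m³` (`f ≥ m`, `0 < m ≤ 1`).

(5) `F1_abs_le`: `|X Y| ≤ (X² + Y²)/2 = (N - f²)/2 ≤ (1 - f²)/2 ≤ 1 - f`, `√D ≥ f ≥ m`, so
`|F1| ≤ (1 - f)/m³ ≤ 2 (1-f)/m³`.

(6) `Th_ge`: with `D ≤ N ≤ 1` and `r = √D ∈ (0, 1]`: `Th = N/(D r)`, `N / D = 1 + Y²/D ≥ 1 + Y²`,
`1/r ≥ 1 + (1 - D)/2` (since `D = r²` and `2/r - 2 - 1 + r² = (r - 1)²(r + 2)/r ≥ 0`), thus
`Th ≥ (1 + Y²)(1 + (1-D)/2) ≥ 1 + Y² + (1 - D)/2 ≥ 1 + Y² + (1 - N)/2`.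
-/

open MeasureTheory Real
open scoped Matrix
open Pool.Agent.Lib_MP_f78f32_gt

namespace Pool.Agent.Lib_MP_f78f32_gb

lemma DensB_f (q : Seminorm ℝ E3) (J : Jet) (m : ℝ) (hD : Dat q J m) (g : G) :
    m ≤ J.f g ∧ J.f g ≤ 1 := by
  have h1 := hD.lo (col g 0)
  have h2 := hD.up (col g 0)
  rw [SecArc.norm_col] at h1 h2
  rw [hD.jq]
  exact ⟨by linarith, h2⟩

/-- the square root `r` of `D` with its bounds -/
lemma DensB_r (q : Seminorm ℝ E3) (J : Jet) (m : ℝ) (hD : Dat q J m) (g : G) :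
    J.f g ≤ √(dD J g) ∧ √(dD J g) ≤ 1 ∧ √(dD J g) ^ 2 = J.f g ^ 2 + J.X g ^ 2 ∧
      √(dD J g) ^ 2 + J.Y g ^ 2 ≤ 1 := by
  obtain ⟨hf1, hf2⟩ := DensB_f q J m hD g
  have hm := hD.m0
  have hN := nN_le_one q J m hD g
  unfold nN at hN
  have hf0 : 0 < J.f g := lt_of_lt_of_le hm hf1
  have hs : √(dD J g) ^ 2 = J.f g ^ 2 + J.X g ^ 2 := by
    rw [Real.sq_sqrt (by unfold dD; positivity)]
    rfl
  refine ⟨?_, ?_, hs, by rw [hs]; exact hN⟩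
  · apply Real.le_sqrt_of_sq_le
    unfold dD
    nlinarith [sq_nonneg (J.X g)]
  · rw [Real.sqrt_le_one]
    unfold dD
    nlinarith [sq_nonneg (J.Y g)]

theorem FF_ge_one (q : Seminorm ℝ E3) (J : Jet) (m : ℝ) (hD : Dat q J m) (g : G) : 1 ≤ FF J g := by
  obtain ⟨hf1, hf2⟩ := DensB_f q J m hD g
  obtain ⟨hr1, hr2, hr3, hr4⟩ := DensB_r q J m hD g
  have hf0 : 0 < J.f g := lt_of_lt_of_le hD.m0 hf1
  unfold FF
  rw [le_div_iff₀ (by positivity)]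
  nlinarith

theorem FF_le (q : Seminorm ℝ E3) (J : Jet) (m : ℝ) (hD : Dat q J m) (g : G) :
    FF J g ≤ 1 / m ^ 2 := by
  obtain ⟨hf1, hf2⟩ := DensB_f q J m hD g
  obtain ⟨hr1, hr2, hr3, hr4⟩ := DensB_r q J m hD g
  have hm := hD.m0
  have hf0 : 0 < J.f g := lt_of_lt_of_le hD.m0 hf1
  unfold FF
  apply div_le_div₀ zero_le_one hr2 (by positivity)
  exact pow_le_pow_left₀ hm.le hf1 2

lemma DensB_inv (f m : ℝ) (hm : 0 < m) (hm1 : m ≤ 1) (h1 : m ≤ f) (h2 : f ≤ 1) :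
    (1 - f ^ 2) / f ^ 2 ≤ 2 * (1 - f) / m ^ 3 := by
  have hf0 : 0 < f := lt_of_lt_of_le hm h1
  apply div_le_div₀ (by linarith) (by nlinarith) (by positivity)
  calc m ^ 3 = m ^ 2 * m := by ring
    _ ≤ m ^ 2 * 1 := mul_le_mul_of_nonneg_left hm1 (by positivity)
    _ = m ^ 2 := mul_one _
    _ ≤ f ^ 2 := pow_le_pow_left₀ hm.le h1 2

theorem FF_sub_one_le (q : Seminorm ℝ E3) (J : Jet) (m : ℝ) (hD : Dat q J m) (g : G) :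
    FF J g - 1 ≤ 2 * (1 - J.f g) / m ^ 3 := by
  obtain ⟨hf1, hf2⟩ := DensB_f q J m hD g
  obtain ⟨hr1, hr2, hr3, hr4⟩ := DensB_r q J m hD g
  have hm := hD.m0
  have hf0 : 0 < J.f g := lt_of_lt_of_le hD.m0 hf1
  have h1 := DensB_inv (J.f g) m hm hD.m1 hf1 hf2
  refine le_trans ?_ h1
  unfold FF
  rw [sub_div, div_self (by positivity)]
  have : √(dD J g) / J.f g ^ 2 ≤ 1 / J.f g ^ 2 :=
    div_le_div_of_nonneg_right hr2 (by positivity)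
  linarith

theorem F1_abs_le (q : Seminorm ℝ E3) (J : Jet) (m : ℝ) (hD : Dat q J m) (g : G) :
    |F1 J g| ≤ 2 * (1 - J.f g) / m ^ 3 := by
  obtain ⟨hf1, hf2⟩ := DensB_f q J m hD g
  obtain ⟨hr1, hr2, hr3, hr4⟩ := DensB_r q J m hD g
  have hm := hD.m0
  have hf0 : 0 < J.f g := lt_of_lt_of_le hD.m0 hf1
  have hr0 : 0 < √(dD J g) := lt_of_lt_of_le hf0 hr1
  have hpos : 0 < J.f g ^ 2 * √(dD J g) := by positivity
  unfold F1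
  rw [abs_div, abs_of_pos hpos]
  apply div_le_div₀ (by linarith) _ (by positivity)
  · calc m ^ 3 = m ^ 2 * m := by ring
      _ ≤ J.f g ^ 2 * √(dD J g) :=
        mul_le_mul (pow_le_pow_left₀ hm.le hf1 2) (le_trans hf1 hr1) hm.le (by positivity)
  · have h3 : |J.X g * J.Y g| ≤ (J.X g ^ 2 + J.Y g ^ 2) / 2 := by
      rw [abs_le]
      constructor
      · nlinarith [sq_nonneg (J.X g + J.Y g)]
      · nlinarith [sq_nonneg (J.X g - J.Y g)]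
    nlinarith

lemma DensB_Th (r Y : ℝ) (hr0 : 0 < r) (hr1 : r ≤ 1) :
    Y ^ 2 + (1 - (r ^ 2 + Y ^ 2)) / 2 ≤ (r ^ 2 + Y ^ 2) / (r ^ 2 * r) - 1 := by
  have h1 : (1 + Y ^ 2) * (1 + (1 - r ^ 2) / 2) ≤ (r ^ 2 + Y ^ 2) / (r ^ 2 * r) := by
    have e : (r ^ 2 + Y ^ 2) / (r ^ 2 * r) = (1 + Y ^ 2 / r ^ 2) * (1 / r) := by
      field_simp
    rw [e]
    have a1 : Y ^ 2 ≤ Y ^ 2 / r ^ 2 := by
      rw [le_div_iff₀ (by positivity)]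
      have : r ^ 2 ≤ 1 := by nlinarith
      nlinarith [sq_nonneg Y, mul_nonneg (sq_nonneg Y) (sub_nonneg.2 this)]
    have a2 : 1 + (1 - r ^ 2) / 2 ≤ 1 / r := by
      rw [le_div_iff₀ hr0]
      nlinarith [mul_nonneg (sq_nonneg (r - 1)) (by linarith : (0:ℝ) ≤ r + 2)]
    apply mul_le_mul (by linarith) a2 (by nlinarith) (by positivity)
  have h2 : 0 ≤ Y ^ 2 * ((1 - r ^ 2) / 2) := by
    apply mul_nonneg (sq_nonneg _)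
    nlinarith
  nlinarith [sq_nonneg Y]

theorem Th_ge (q : Seminorm ℝ E3) (J : Jet) (m : ℝ) (hD : Dat q J m) (g : G) :
    J.Y g ^ 2 + (1 - nN J g) / 2 ≤ Th J g - 1 := by
  obtain ⟨hf1, hf2⟩ := DensB_f q J m hD g
  obtain ⟨hr1, hr2, hr3, hr4⟩ := DensB_r q J m hD g
  have hf0 : 0 < J.f g := lt_of_lt_of_le hD.m0 hf1
  have hr0 : 0 < √(dD J g) := lt_of_lt_of_le hf0 hr1
  have h1 : nN J g = √(dD J g) ^ 2 + J.Y g ^ 2 := by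
    rw [hr3]
    rfl
  have h2 : dD J g = √(dD J g) ^ 2 := by
    rw [hr3]
    rfl
  have h3 : Th J g = (√(dD J g) ^ 2 + J.Y g ^ 2) / (√(dD J g) ^ 2 * √(dD J g)) := by
    unfold Th
    rw [h1, ← h2]
  rw [h1, h3]
  exact DensB_Th _ _ hr0 hr2

end Pool.Agent.Lib_MP_f78f32_gb
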