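import Pool.Agent.Lib_MP_f78f32_gb.KFun
import Pool.Agent.Lib_MP_f78f32_gb.Law

/-!
# ERRFAR: the error terms far from the axis

## Proof

`δ = θ⁴`, `b = co v 1 g`, `c = co v 2 g`, `u = uu v g = b² + c² ≤ 1`. If `u ≤ 4δ²` then `w2 = 0`
(`et_zero`). If `|c| ≥ δ` then `p0 = p1 = 0`. Otherwise `u > 4δ²`, `|c| < δ`, `0 ≤ w2 ≤ 1/u²`,
`ε ≤ δ² ≤ u`, so `|f|, |f'| ≤ 2 C0 u`; `|b| ≤ √u`, `|c| ≤ δ`, `|p0| ≤ 7δ`, `|p1| ≤ 13`. The
integrand is at most
`u⁻² (7δ (2 C0 u √u + 2 C0 u δ) + 2 C0 u · 13 δ²) = C0 (14 δ/√u + 40 δ²/u) ≤ 34 C0 δ/√u`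
(as `δ/√u ≤ 1/2`). If `u ≥ θ⁶` then `√u ≥ θ³` and `δ/√u ≤ θ`; if `u ≤ θ⁶` then `δ/√u ≤ 1`. Hence
the integrand is at most `34 C0 (θ · 1_{|c| ≤ δ} + 1_{u ≤ θ⁶})` everywhere in absolute value, and by
`mes_c`, `mes_u` the integral is at most `34 C0 (θ θ⁴ + θ⁶) ≤ 68 C0 θ⁵`.
-/

open MeasureTheory Real
open scoped Matrix
open Pool.Agent.Lib_MP_f78f32_gt

namespace Pool.Agent.Lib_MP_f78f32_gb

private lemma ef_alg (C0 u c b f f' W P0 P1 δ θ s : ℝ) (hC : 0 ≤ C0) (hs : 0 < s) (hδ : 0 < δ)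
    (hsu : s ^ 2 = u) (h2 : 2 * δ < s) (hc : |c| ≤ δ) (hb : |b| ≤ s) (hf : |f| ≤ 2 * C0 * u)
    (hf' : |f'| ≤ 2 * C0 * u) (hW : 0 ≤ W) (hW1 : W * u * u ≤ 1) (hP0 : |P0| ≤ 7 * δ)
    (hP1 : |P1| ≤ 13) (t : ℝ) (ht : δ ≤ t * s) :
    |W * (P0 * (f' * b + f * c) + f * (c ^ 2 * P1))| ≤ 34 * C0 * t := by
  have hu : 0 < u := by rw [← hsu]; positivity
  have e1 : |f' * b + f * c| ≤ 2 * C0 * u * s + 2 * C0 * u * δ := by
    calc |f' * b + f * c| ≤ |f' * b| + |f * c| := abs_add_le _ _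
      _ = |f'| * |b| + |f| * |c| := by rw [abs_mul, abs_mul]
      _ ≤ 2 * C0 * u * s + 2 * C0 * u * δ := by gcongr
  have e2 : |P0 * (f' * b + f * c)| ≤ 7 * δ * (2 * C0 * u * s + 2 * C0 * u * δ) := by
    rw [abs_mul]; gcongr
  have e3 : |f * (c ^ 2 * P1)| ≤ 2 * C0 * u * (δ ^ 2 * 13) := by
    rw [abs_mul, abs_mul, abs_pow]; gcongr
  have e4 : |P0 * (f' * b + f * c) + f * (c ^ 2 * P1)| ≤ 34 * C0 * u * δ * s := by
    have h3 := abs_add_le (P0 * (f' * b + f * c)) (f * (c ^ 2 * P1))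
    have h4 : 0 ≤ C0 * u * δ * (s - 2 * δ) := by
      have : 0 < s - 2 * δ := by linarith
      positivity
    nlinarith
  rw [abs_mul, abs_of_nonneg hW]
  have e5 : W * |P0 * (f' * b + f * c) + f * (c ^ 2 * P1)| ≤ W * (34 * C0 * u * δ * s) :=
    mul_le_mul_of_nonneg_left e4 hW
  have e6 : W * (34 * C0 * u * δ * s) ≤ W * (34 * C0 * u * (t * s) * s) := by gcongr
  have e7 : W * (34 * C0 * u * (t * s) * s) = 34 * C0 * t * (W * u * u) := by
    rw [← hsu]; ring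
  have ht0 : 0 ≤ t := by
    by_contra h
    push Not at h
    have : t * s < 0 := mul_neg_of_neg_of_pos h hs
    linarith
  have e8 : 34 * C0 * t * (W * u * u) ≤ 34 * C0 * t * 1 := by gcongr
  linarith

theorem err_far (v : Fin 3 → ℝ) (hv : v 0 ^ 2 + v 1 ^ 2 + v 2 ^ 2 = 1) (θ : ℝ) (hθ : 0 < θ)
    (hθ1 : θ ≤ 1 / 4) (f f' : G → ℝ) (cf : Continuous f) (cf' : Continuous f') (C0 ε : ℝ)
    (hC : 0 ≤ C0) (hε : 0 ≤ ε) (hε1 : ε ≤ θ ^ 8) (hf : ∀ g, |f g| ≤ C0 * (uu v g + ε))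
    (hf' : ∀ g, |f' g| ≤ C0 * (uu v g + ε)) :
    |∫ g, w2 (θ ^ 4) v g * (p0 (θ ^ 4) (co v 2 g) * (f' g * co v 1 g + f g * co v 2 g) +
        f g * (co v 2 g ^ 2 * p1 (θ ^ 4) (co v 2 g))) ∂μ| ≤ 100 * C0 * θ ^ 5 := by
  set δ := θ ^ 4 with hδd
  have hδ : 0 < δ := by positivity
  have hδ2 : θ ^ 8 = δ ^ 2 := by rw [hδd]; ring
  set S1 : Set G := {g | |co v 2 g| ≤ δ} with hS1
  set S2 : Set G := {g | uu v g ≤ θ ^ 6} with hS2
  have mS1 : MeasurableSet S1 := (isClosed_le (by fun_prop) continuous_const).measurableSet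
  have mS2 : MeasurableSet S2 := (isClosed_le (by fun_prop) continuous_const).measurableSet
  have hpt : ∀ g, ‖w2 δ v g * (p0 δ (co v 2 g) * (f' g * co v 1 g + f g * co v 2 g) +
        f g * (co v 2 g ^ 2 * p1 δ (co v 2 g)))‖ ≤
      S1.indicator (fun _ => 34 * C0 * θ) g + S2.indicator (fun _ => 34 * C0) g := by
    intro g
    have hn1 : 0 ≤ S1.indicator (fun _ => 34 * C0 * θ) g :=
      Set.indicator_nonneg (fun _ _ => by positivity) g
    have hn2 : 0 ≤ S2.indicator (fun _ => 34 * C0) g :=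
      Set.indicator_nonneg (fun _ _ => by positivity) g
    rw [Real.norm_eq_abs]
    by_cases h1 : uu v g ≤ 4 * δ ^ 2
    · have : w2 δ v g = 0 := by
        unfold w2 w1
        rw [et_zero δ _ hδ h1]; simp
      rw [this, zero_mul, abs_zero]
      positivity
    push Not at h1
    by_cases h2 : δ ≤ |co v 2 g|
    · rw [p0_zero δ _ hδ h2, p1_zero δ _ hδ h2]
      simp only [zero_mul, mul_zero, add_zero, abs_zero]
      positivity
    push Not at h2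
    have hu0 : 0 < uu v g := lt_trans (by positivity) h1
    have hs0 : 0 < √(uu v g) := Real.sqrt_pos.2 hu0
    have hs2 : √(uu v g) ^ 2 = uu v g := Real.sq_sqrt hu0.le
    have hsd : 2 * δ < √(uu v g) := by
      apply Real.lt_sqrt_of_sq_lt
      nlinarith
    have hb : |co v 1 g| ≤ √(uu v g) := by
      apply Real.abs_le_sqrt
      unfold uu
      nlinarith [sq_nonneg (co v 2 g)]
    have hW := w2_nonneg δ v g
    have hW1 : w2 δ v g * uu v g * uu v g ≤ 1 := by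
      rw [w2_mul δ hδ, w1_mul δ hδ]
      exact et_le_one _ _
    have hε2 : ε ≤ uu v g := by
      have : 0 < δ ^ 2 := by positivity
      linarith [hδ2 ▸ hε1]
    have hf2 : |f g| ≤ 2 * C0 * uu v g := by
      have := hf g
      nlinarith [mul_le_mul_of_nonneg_left hε2 hC]
    have hf2' : |f' g| ≤ 2 * C0 * uu v g := by
      have := hf' g
      nlinarith [mul_le_mul_of_nonneg_left hε2 hC]
    have hi1 : S1.indicator (fun _ => 34 * C0 * θ) g = 34 * C0 * θ :=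
      Set.indicator_of_mem (show g ∈ S1 from h2.le) _
    rw [hi1]
    by_cases h3 : uu v g ≤ θ ^ 6
    · have hi2 : S2.indicator (fun _ => 34 * C0) g = 34 * C0 :=
        Set.indicator_of_mem (show g ∈ S2 from h3) _
      rw [hi2]
      have := ef_alg C0 (uu v g) (co v 2 g) (co v 1 g) (f g) (f' g) (w2 δ v g) (p0 δ (co v 2 g))
        (p1 δ (co v 2 g)) δ θ (√(uu v g)) hC hs0 hδ hs2 hsd h2.le hb hf2 hf2' hW hW1
        (p0_abs δ _ hδ) (p1_abs δ _ hδ) 1 (by linarith)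
      have h4 : 0 ≤ 34 * C0 * θ := by positivity
      linarith
    · push Not at h3
      have h5 : θ ^ 3 ≤ √(uu v g) := by
        apply Real.le_sqrt_of_sq_le
        calc (θ ^ 3) ^ 2 = θ ^ 6 := by ring
          _ ≤ uu v g := h3.le
      have := ef_alg C0 (uu v g) (co v 2 g) (co v 1 g) (f g) (f' g) (w2 δ v g) (p0 δ (co v 2 g))
        (p1 δ (co v 2 g)) δ θ (√(uu v g)) hC hs0 hδ hs2 hsd h2.le hb hf2 hf2' hW hW1
        (p0_abs δ _ hδ) (p1_abs δ _ hδ) θ (by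
          calc δ = θ * θ ^ 3 := by rw [hδd]; ring
            _ ≤ θ * √(uu v g) := by gcongr)
      linarith
  have hint : Integrable (fun g => S1.indicator (fun _ => 34 * C0 * θ) g +
      S2.indicator (fun _ => 34 * C0) g) μ :=
    ((integrable_const _).indicator mS1).add ((integrable_const _).indicator mS2)
  have h6 := norm_integral_le_of_norm_le hint (Filter.Eventually.of_forall hpt)
  rw [Real.norm_eq_abs] at h6
  refine h6.trans ?_
  rw [integral_add ((integrable_const _).indicator mS1) ((integrable_const _).indicator mS2),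
    integral_indicator_const _ mS1, integral_indicator_const _ mS2, smul_eq_mul, smul_eq_mul]
  have h7 := mes_c v hv δ hδ.le
  have h8 := mes_u v hv (θ ^ 6) (by positivity)
  have h9 : μ.real S1 * (34 * C0 * θ) ≤ δ * (34 * C0 * θ) :=
    mul_le_mul_of_nonneg_right h7 (by positivity)
  have h10 : μ.real S2 * (34 * C0) ≤ θ ^ 6 * (34 * C0) :=
    mul_le_mul_of_nonneg_right h8 (by positivity)
  have h11 : θ ^ 6 * (34 * C0) ≤ θ ^ 5 * (34 * C0) := by
    have : θ ^ 6 ≤ θ ^ 5 := pow_le_pow_of_le_one hθ.le (by linarith) (by norm_num)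
    exact mul_le_mul_of_nonneg_right this (by positivity)
  have h12 : δ * (34 * C0 * θ) = 34 * C0 * θ ^ 5 := by rw [hδd]; ring
  have h13 : 0 ≤ C0 * θ ^ 5 := by positivity
  nlinarith

end Pool.Agent.Lib_MP_f78f32_gb
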