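import Pool.Agent.Lib_MP_f78f32_gb.KFun
import Pool.Agent.Lib_MP_f78f32_gb.Law

/-!
# ERRNEAR: the part near the axis, and the integral of `k2`

## Proof

`int_k2`: by `int_zonal` the integral is `(1/2) ∫_{-1}^1 k2 = (1/2)(k1 1 - k1 (-1)) = 0`
(`intervalIntegral.integral_eq_sub_of_hasDerivAt` with `k1_deriv`; `k1_zero` as `δ ≤ 1`).
`int_k0_le`: `k0 ≤ 1` and `k0 = 0` for `|c| ≥ δ`, so `k0 (co v 2 g) ≤ indicator {|c| ≤ δ}`; `mes_c`.
`err_near`: where `u ≥ 8δ²` the integrand is `0` (`et_one`); where `u ≤ 8δ²` it is at most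
`C0 (u + ε) · 1 · 6/δ² ≤ C0 · 9 δ² · 6/δ² = 54 C0` in absolute value. So the integral is at most
`54 C0 · μ{u ≤ 8δ²} ≤ 432 C0 δ²` by `mes_u`.
-/

open MeasureTheory Real
open scoped Matrix
open Pool.Agent.Lib_MP_f78f32_gt

namespace Pool.Agent.Lib_MP_f78f32_gb

theorem int_k2 (v : Fin 3 → ℝ) (hv : v 0 ^ 2 + v 1 ^ 2 + v 2 ^ 2 = 1) (δ : ℝ) (hδ : 0 < δ)
    (hδ1 : δ ≤ 1) : ∫ g, k2 δ (co v 2 g) ∂μ = 0 := by
  rw [int_zonal v hv 2 (k2 δ) (k2_cont δ)]
  rw [intervalIntegral.integral_eq_sub_of_hasDerivAt (f := k1 δ)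
    (fun c _ => k1_deriv δ hδ c) ((k2_cont δ).intervalIntegrable _ _)]
  rw [k1_zero δ 1 hδ (by simpa using hδ1), k1_zero δ (-1) hδ (by simpa using hδ1)]
  simp

theorem int_k0_le (v : Fin 3 → ℝ) (hv : v 0 ^ 2 + v 1 ^ 2 + v 2 ^ 2 = 1) (δ : ℝ) (hδ : 0 < δ) :
    ∫ g, k0 δ (co v 2 g) ∂μ ≤ δ := by
  have cc : Continuous (co v 2) := co_cont v 2
  have hS : MeasurableSet {g : G | |co v 2 g| ≤ δ} :=
    (isClosed_le (by fun_prop) continuous_const).measurableSet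
  have h1 : ∫ g, k0 δ (co v 2 g) ∂μ ≤ ∫ g, {g : G | |co v 2 g| ≤ δ}.indicator (fun _ => (1:ℝ)) g ∂μ := by
    apply integral_mono (intg ((k0_cont δ).comp cc))
    · exact (integrable_const (1:ℝ)).indicator hS
    · intro g
      by_cases h : |co v 2 g| ≤ δ
      · have : g ∈ {g : G | |co v 2 g| ≤ δ} := h
        simp only [Set.indicator_of_mem this]
        exact k0_le δ _ hδ
      · have : g ∉ {g : G | |co v 2 g| ≤ δ} := h
        simp only [Set.indicator_of_notMem this]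
        exact (k0_zero δ _ hδ (not_le.mp h).le).le
  refine h1.trans ?_
  rw [integral_indicator_const _ hS, smul_eq_mul, mul_one]
  exact mes_c v hv δ hδ.le

theorem err_near (v : Fin 3 → ℝ) (hv : v 0 ^ 2 + v 1 ^ 2 + v 2 ^ 2 = 1) (δ : ℝ) (hδ : 0 < δ)
    (f : G → ℝ) (cf : Continuous f) (C0 ε : ℝ) (hC : 0 ≤ C0) (hε : 0 ≤ ε) (hε1 : ε ≤ δ ^ 2)
    (hf : ∀ g, |f g| ≤ C0 * (uu v g + ε)) :
    |∫ g, f g * ((1 - et δ (uu v g)) * k2 δ (co v 2 g)) ∂μ| ≤ 500 * C0 * δ ^ 2 := by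
  have cc : Continuous (co v 2) := co_cont v 2
  have ck2 : Continuous fun g : G => k2 δ (co v 2 g) := (k2_cont δ).comp cc
  have cet : Continuous fun g : G => et δ (uu v g) := (et_cont δ).comp (uu_cont v)
  have hS : MeasurableSet {g : G | uu v g ≤ 8 * δ ^ 2} :=
    (isClosed_le (uu_cont v) continuous_const).measurableSet
  have hp : ∀ g, |f g * ((1 - et δ (uu v g)) * k2 δ (co v 2 g))| ≤
      {g : G | uu v g ≤ 8 * δ ^ 2}.indicator (fun _ => 54 * C0) g := by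
    intro g
    by_cases h : uu v g ≤ 8 * δ ^ 2
    · have hm : g ∈ {g : G | uu v g ≤ 8 * δ ^ 2} := h
      rw [Set.indicator_of_mem hm, abs_mul, abs_mul]
      have a1 : |f g| ≤ C0 * (9 * δ ^ 2) := by
        refine (hf g).trans ?_
        apply mul_le_mul_of_nonneg_left _ hC
        linarith
      have a2 : |1 - et δ (uu v g)| ≤ 1 := by
        rw [abs_le]
        have := et_nonneg δ (uu v g)
        have := et_le_one δ (uu v g)
        constructor <;> linarith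
      have a3 := k2_abs δ (co v 2 g) hδ
      calc |f g| * (|1 - et δ (uu v g)| * |k2 δ (co v 2 g)|)
          ≤ (C0 * (9 * δ ^ 2)) * (1 * (6 / δ ^ 2)) := by
            apply mul_le_mul a1 _ (by positivity) (by positivity)
            exact mul_le_mul a2 a3 (abs_nonneg _) zero_le_one
        _ = 54 * C0 := by field_simp; ring
    · have hm : g ∉ {g : G | uu v g ≤ 8 * δ ^ 2} := h
      rw [Set.indicator_of_notMem hm, et_one δ _ hδ (not_le.mp h).le]
      simp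
  have h1 : |∫ g, f g * ((1 - et δ (uu v g)) * k2 δ (co v 2 g)) ∂μ| ≤
      ∫ g, |f g * ((1 - et δ (uu v g)) * k2 δ (co v 2 g))| ∂μ := abs_integral_le_integral_abs
  have h2 : ∫ g, |f g * ((1 - et δ (uu v g)) * k2 δ (co v 2 g))| ∂μ ≤
      ∫ g, {g : G | uu v g ≤ 8 * δ ^ 2}.indicator (fun _ => 54 * C0) g ∂μ :=
    integral_mono (intg (by fun_prop)) ((integrable_const _).indicator hS) hp
  rw [integral_indicator_const _ hS, smul_eq_mul] at h2
  have h3 := mes_u v hv (8 * δ ^ 2) (by positivity)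
  have h4 : μ.real {g : G | uu v g ≤ 8 * δ ^ 2} * (54 * C0) ≤ (8 * δ ^ 2) * (54 * C0) :=
    mul_le_mul_of_nonneg_right h3 (by positivity)
  have h5 : 0 ≤ C0 * δ ^ 2 := by positivity
  nlinarith

end Pool.Agent.Lib_MP_f78f32_gb
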