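import Pool.Agent.Lib_MP_f78f32_gb.KFun

/-!
# FIB: lower bound of the fibre averages
-/

open MeasureTheory Real
open scoped Matrix
open Pool.Agent.Lib_MP_f78f32_gt

namespace Pool.Agent.Lib_MP_f78f32_gb

private lemma fib_swap (K : G → ℝ → ℝ) (hK : Continuous (fun p : G × ℝ => K p.1 p.2)) :
    ∫ g, (∫ t in (0:ℝ)..(2 * π), K g t) ∂μ = ∫ t in (0:ℝ)..(2 * π), ∫ g, K g t ∂μ := by
  have hpi := Real.pi_pos
  have h0 : (0:ℝ) ≤ 2 * π := by positivity
  simp only [intervalIntegral.integral_of_le h0]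
  apply integral_integral_swap
  have : IntegrableOn (fun p : G × ℝ => K p.1 p.2) (Set.univ ×ˢ Set.Icc (0:ℝ) (2 * π))
      (μ.prod volume) :=
    hK.continuousOn.integrableOn_compact (isCompact_univ.prod isCompact_Icc)
  have h4 := this.mono_set (s := Set.univ ×ˢ Set.Ioc (0:ℝ) (2 * π))
    (Set.prod_mono le_rfl Set.Ioc_subset_Icc_self)
  rw [IntegrableOn, ← Measure.prod_restrict, Measure.restrict_univ] at h4
  exact h4

/-- the bump function along a cosine of amplitude at most one -/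
private lemma fib_cos (δ s : ℝ) (hδ : 0 < δ) (hδ1 : δ ≤ 1) (hs0 : 0 ≤ s) (hs1 : s ≤ 1) :
    2 / 5 * δ ≤ ∫ t in (0:ℝ)..(2 * π), k0 δ (s * cos t) := by
  have hpi := Real.pi_gt_three
  have hc : Continuous fun t => k0 δ (s * cos t) := (k0_cont δ).comp (by fun_prop)
  have h1 : (∫ t in (π / 2 - δ / 2)..(π / 2 + δ / 2), k0 δ (s * cos t)) ≤
      ∫ t in (0:ℝ)..(2 * π), k0 δ (s * cos t) := by
    refine intervalIntegral.integral_mono_interval (by linarith) (by linarith) (by linarith)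
      (Filter.Eventually.of_forall fun t => k0_nonneg _ _) (hc.intervalIntegrable _ _)
  have h2 : (∫ _t in (π / 2 - δ / 2)..(π / 2 + δ / 2), (2 / 5 : ℝ)) ≤
      ∫ t in (π / 2 - δ / 2)..(π / 2 + δ / 2), k0 δ (s * cos t) := by
    refine intervalIntegral.integral_mono_on (by linarith) (by simp)
      (hc.intervalIntegrable _ _) fun t ht => ?_
    refine k0_low δ _ hδ ?_
    have h3 : |cos t| ≤ δ / 2 := by
      rw [← sin_pi_div_two_sub]
      refine Real.abs_sin_le_abs.trans ?_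
      rw [abs_le]
      constructor <;> linarith [ht.1, ht.2]
    rw [abs_mul, abs_of_nonneg hs0]
    calc s * |cos t| ≤ 1 * |cos t| := mul_le_mul_of_nonneg_right hs1 (abs_nonneg _)
      _ = |cos t| := one_mul _
      _ ≤ δ / 2 := h3
  rw [intervalIntegral.integral_const, smul_eq_mul] at h2
  linarith

private lemma fib_circle (δ P Q : ℝ) (hδ : 0 < δ) (hδ1 : δ ≤ 1) (h : P ^ 2 + Q ^ 2 ≤ 1) :
    2 / 5 * δ ≤ ∫ t in (0:ℝ)..(2 * π), k0 δ (-sin t * Q + cos t * P) := by
  set u : ℝ := √(P ^ 2 + Q ^ 2) with hu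
  have hu0 : 0 ≤ u := Real.sqrt_nonneg _
  have huu : P ^ 2 + Q ^ 2 = u ^ 2 := (Real.sq_sqrt (by positivity)).symm
  have hu1 : u ≤ 1 := by nlinarith
  by_cases hz : u = 0
  · rw [hz] at huu
    have hP : P = 0 := by nlinarith [sq_nonneg P, sq_nonneg Q]
    have hQ : Q = 0 := by nlinarith [sq_nonneg P, sq_nonneg Q]
    have := fib_cos δ 0 hδ hδ1 le_rfl zero_le_one
    simpa [hP, hQ] using this
  · obtain ⟨t0, hc, hs⟩ : ∃ t0 : ℝ, cos t0 = P / u ∧ sin t0 = -Q / u := by
      set z : ℂ := ⟨P / u, -Q / u⟩ with hz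
      have hn : ‖z‖ = 1 := by
        rw [Complex.norm_def, Complex.normSq_apply]
        have : z.re * z.re + z.im * z.im = 1 := by
          simp only [hz]
          field_simp
          linarith
        rw [this, Real.sqrt_one]
      have hz0 : z ≠ 0 := by
        intro h0
        rw [h0, norm_zero] at hn
        exact zero_ne_one hn
      refine ⟨z.arg, ?_, ?_⟩
      · rw [Complex.cos_arg hz0, hn, div_one]
      · rw [Complex.sin_arg, hn, div_one]
    have h1 : ∀ t, k0 δ (-sin t * Q + cos t * P) = k0 δ (u * cos (t - t0)) := by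
      intro t
      congr 1
      rw [cos_sub, hc, hs]
      field_simp
      ring
    simp_rw [h1]
    rw [intervalIntegral.integral_comp_sub_right (fun t => k0 δ (u * cos t))]
    have hper : Function.Periodic (fun t : ℝ => k0 δ (u * cos t)) (2 * π) := by
      intro t
      simp only [cos_add_two_pi]
    have h2 := hper.intervalIntegral_add_eq (0 - t0) 0
    rw [zero_add] at h2
    have h3 := fib_cos δ u hδ hδ1 hu0 hu1
    rw [← h2] at h3
    have h4 : (0 - t0 + 2 * π) = 2 * π - t0 := by ring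
    rwa [h4] at h3

theorem fib (v : Fin 3 → ℝ) (hv : v 0 ^ 2 + v 1 ^ 2 + v 2 ^ 2 = 1) (δ : ℝ) (hδ : 0 < δ)
    (hδ1 : δ ≤ 1) (W : G → ℝ) (cW : Continuous W) (hW : ∀ g, 0 ≤ W g)
    (hinv : ∀ g t, W (g * fr t) = W g) :
    δ / 20 * ∫ g, W g ∂μ ≤ ∫ g, k0 δ (co v 2 g) * W g ∂μ := by
  have hpi := Real.pi_pos
  have hpi4 := Real.pi_le_four
  have h1 : ∀ t : ℝ, ∫ g, k0 δ (co v 2 g) * W g ∂μ =
      ∫ g, k0 δ (-sin t * co v 1 g + cos t * co v 2 g) * W g ∂μ := by
    intro t
    rw [← int_right (fun g => k0 δ (co v 2 g) * W g) (fr t)]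
    simp only [(co_fr v _ t).2.2, hinv]
  have hcont : Continuous (fun p : G × ℝ =>
      k0 δ (-sin p.2 * co v 1 p.1 + cos p.2 * co v 2 p.1) * W p.1) := by
    refine ((k0_cont δ).comp ?_).mul (cW.comp continuous_fst)
    fun_prop
  have h2 := fib_swap (fun g t => k0 δ (-sin t * co v 1 g + cos t * co v 2 g) * W g) hcont
  simp only [← h1, intervalIntegral.integral_const, sub_zero, smul_eq_mul] at h2
  have h3 : ∫ g, (2 / 5 * δ) * W g ∂μ ≤
      ∫ g, (∫ t in (0:ℝ)..(2 * π), k0 δ (-sin t * co v 1 g + cos t * co v 2 g) * W g) ∂μ := by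
    refine integral_mono (intg (by fun_prop)) (intg ?_) fun g => ?_
    · exact intervalIntegral.continuous_parametric_intervalIntegral_of_continuous'
        (f := fun g t => k0 δ (-sin t * co v 1 g + cos t * co v 2 g) * W g) hcont _ _
    · show (2 / 5 * δ) * W g ≤
        ∫ t in (0:ℝ)..(2 * π), k0 δ (-sin t * co v 1 g + cos t * co v 2 g) * W g
      rw [intervalIntegral.integral_mul_const]
      refine mul_le_mul_of_nonneg_right (fib_circle δ _ _ hδ hδ1 ?_) (hW g)
      have := uu_le_one v hv g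
      unfold uu at this
      linarith
  rw [h2, integral_const_mul] at h3
  have h4 : 0 ≤ ∫ g, k0 δ (co v 2 g) * W g ∂μ :=
    integral_nonneg fun g => mul_nonneg (k0_nonneg _ _) (hW g)
  nlinarith

end Pool.Agent.Lib_MP_f78f32_gb
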