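import Pool.Agent.Lib_MP_f78f32_gb.KFun

/-!
# IDS: the two integrations by parts along the flow `fr`

Here `b = co v 1 g`, `c = co v 2 g`, `u = uu v g = b² + c²`; along `fr`: `b' = c`, `c' = -b`, `u' = 0`
(`FD_co1`, `FD_co2`, `uu_fr`), `w1' = w2' = 0` (`w1_fr`, `w2_fr`). `f = F - 1`.

## Proof

(1) With `A(g) = w1 k0(c)`: `A' = -w1 b k1(c)`, `A'' = w1 (b² k2(c) - c k1(c))`. The function
`f A' - F' A` has derivative `f A'' - (T - F) A` along `fr`, so by `int_FDr`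
`∫ (T - F) A = ∫ f A''`, and adding `∫ f A` (`(T - F) + (F - 1) = T - 1`):
`∫ (T - 1) w1 k0 = ∫ f w1 (b² k2 - c k1 + k0)`. As `w1 b² = w1 u - w1 c² = et - w1 c²` (`w1_mul`):
`w1 (b² k2 - c k1 + k0) = et k2 + w1 (k0 - c k1 - c² k2) = et k2 + w1 p1(c)`.

(2) `f b p0(c) w2` has derivative `w2 (F' b p0 + f c p0 - f b² p1)`, so
`∫ w2 f b² p1 = ∫ w2 p0 (F' b + f c)`, and `w1 = w2 u = w2 b² + w2 c²` (`w2_mul`) gives
`∫ f w1 p1 = ∫ w2 (p0 (F' b + f c) + f c² p1)`.

All functions are continuous on the compact group, integrability: `intg`.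
-/

open MeasureTheory Real
open scoped Matrix
open Pool.Agent.Lib_MP_f78f32_gt

namespace Pool.Agent.Lib_MP_f78f32_gb

theorem ids_FD_w1 (δ : ℝ) (v : Fin 3 → ℝ) : FD fr (w1 δ v) (fun _ => 0) := by
  intro g
  have h1 : (fun t => w1 δ v (g * fr t)) = fun _ => w1 δ v g := funext fun t => w1_fr δ v g t
  rw [h1]
  exact hasDerivAt_const _ _

theorem ids_FD_w2 (δ : ℝ) (v : Fin 3 → ℝ) : FD fr (w2 δ v) (fun _ => 0) := by
  intro g
  have h1 : (fun t => w2 δ v (g * fr t)) = fun _ => w2 δ v g := funext fun t => w2_fr δ v g t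
  rw [h1]
  exact hasDerivAt_const _ _

theorem ids (v : Fin 3 → ℝ) (δ : ℝ) (hδ : 0 < δ) (F F' T : G → ℝ) (cF : Continuous F)
    (cF' : Continuous F') (cT : Continuous T) (h1 : FD fr F F')
    (h2 : FD fr F' (fun g => T g - F g)) :
    ∫ g, (T g - 1) * (k0 δ (co v 2 g) * w1 δ v g) ∂μ =
      (∫ g, (F g - 1) * (et δ (uu v g) * k2 δ (co v 2 g)) ∂μ) +
      ∫ g, w2 δ v g * (p0 δ (co v 2 g) * (F' g * co v 1 g + (F g - 1) * co v 2 g) +
        (F g - 1) * (co v 2 g ^ 2 * p1 δ (co v 2 g))) ∂μ := by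
  have cb : Continuous (co v 1) := co_cont v 1
  have cc : Continuous (co v 2) := co_cont v 2
  have ck0 : Continuous fun g : G => k0 δ (co v 2 g) := (k0_cont δ).comp cc
  have ck1 : Continuous fun g : G => k1 δ (co v 2 g) := (k1_cont δ).comp cc
  have ck2 : Continuous fun g : G => k2 δ (co v 2 g) := (k2_cont δ).comp cc
  have cp0 : Continuous fun g : G => p0 δ (co v 2 g) := (p0_cont δ).comp cc
  have cp1 : Continuous fun g : G => p1 δ (co v 2 g) := (p1_cont δ).comp cc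
  have cw1 := w1_cont δ hδ v
  have cw2 := w2_cont δ hδ v
  have cet : Continuous fun g : G => et δ (uu v g) := (et_cont δ).comp (uu_cont v)
  have dk0 : FD fr (fun g => k0 δ (co v 2 g)) (fun g => k1 δ (co v 2 g) * (-co v 1 g)) :=
    FD.comp fr_zero (φ := k0 δ) (φ' := k1 δ) (fun g => k0_deriv δ hδ _) (FD_co2 v)
  have dk1 : FD fr (fun g => k1 δ (co v 2 g)) (fun g => k2 δ (co v 2 g) * (-co v 1 g)) :=
    FD.comp fr_zero (φ := k1 δ) (φ' := k2 δ) (fun g => k1_deriv δ hδ _) (FD_co2 v)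
  have dp0 : FD fr (fun g => p0 δ (co v 2 g)) (fun g => p1 δ (co v 2 g) * (-co v 1 g)) :=
    FD.comp fr_zero (φ := p0 δ) (φ' := p1 δ) (fun g => p0_deriv δ hδ _) (FD_co2 v)
  have df : FD fr (fun g => F g - 1) F' :=
    (FD.sub h1 (FD.const 1)).congr fun g => by ring
  have db := FD_co1 v
  have dc := FD_co2 v
  -- first integration by parts
  have dA : FD fr (fun g => w1 δ v g * k0 δ (co v 2 g))
      (fun g => w1 δ v g * (k1 δ (co v 2 g) * (-co v 1 g))) :=
    (FD.mul fr_zero (ids_FD_w1 δ v) dk0).congr fun g => by ring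
  have dA' : FD fr (fun g => w1 δ v g * (k1 δ (co v 2 g) * (-co v 1 g)))
      (fun g => w1 δ v g * (co v 1 g ^ 2 * k2 δ (co v 2 g) - co v 2 g * k1 δ (co v 2 g))) :=
    (FD.mul fr_zero (ids_FD_w1 δ v) (FD.mul fr_zero dk1 (FD.neg db))).congr fun g => by ring
  have D1 := FD.sub (FD.mul fr_zero df dA') (FD.mul fr_zero h2 dA)
  have I1 := int_FDr D1 (by fun_prop) (by fun_prop)
  -- second integration by parts
  have D2 := FD.mul fr_zero (ids_FD_w2 δ v) (FD.mul fr_zero df (FD.mul fr_zero db dp0))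
  have I2 := int_FDr D2 (by fun_prop) (by fun_prop)
  rw [← integral_add (intg (by fun_prop)) (intg (by fun_prop))]
  have e : ∀ g, (T g - 1) * (k0 δ (co v 2 g) * w1 δ v g) =
      (((F g - 1) * (et δ (uu v g) * k2 δ (co v 2 g)) +
      w2 δ v g * (p0 δ (co v 2 g) * (F' g * co v 1 g + (F g - 1) * co v 2 g) +
        (F g - 1) * (co v 2 g ^ 2 * p1 δ (co v 2 g)))) -
      (F' g * (w1 δ v g * (k1 δ (co v 2 g) * (-co v 1 g))) +
        (F g - 1) * (w1 δ v g * (co v 1 g ^ 2 * k2 δ (co v 2 g) - co v 2 g * k1 δ (co v 2 g))) -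
        ((T g - F g) * (w1 δ v g * k0 δ (co v 2 g)) +
          F' g * (w1 δ v g * (k1 δ (co v 2 g) * (-co v 1 g)))))) -
      (0 * ((F g - 1) * (co v 1 g * p0 δ (co v 2 g))) +
        w2 δ v g * (F' g * (co v 1 g * p0 δ (co v 2 g)) +
          (F g - 1) * (co v 2 g * p0 δ (co v 2 g) +
            co v 1 g * (p1 δ (co v 2 g) * (-co v 1 g))))) := by
    intro g
    have e1 := w1_mul δ hδ v g
    have e2 := w2_mul δ hδ v g
    rw [← e1]
    have hp : p1 δ (co v 2 g) = k0 δ (co v 2 g) - co v 2 g * k1 δ (co v 2 g) -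
        co v 2 g ^ 2 * k2 δ (co v 2 g) := rfl
    have hu : uu v g = co v 1 g ^ 2 + co v 2 g ^ 2 := rfl
    rw [hu] at e1 e2 ⊢
    linear_combination (-(F g - 1) * p1 δ (co v 2 g)) * e2 - (w1 δ v g * (F g - 1)) * hp
  rw [integral_congr_ae (Filter.Eventually.of_forall e)]
  rw [integral_sub (intg (by fun_prop)) (intg (by fun_prop)),
    integral_sub (intg (by fun_prop)) (intg (by fun_prop)), I1, I2]
  ring

end Pool.Agent.Lib_MP_f78f32_gb
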