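import Pool.Agent.Lib_MP_f78f32_gb.Defs

/-!
# KFUN: calculus of the bump function

## Proof

`kp δ c = max 0 (1 - c²/δ²)`. For `n ≥ 2` the function `z ↦ (max 0 z)^n` has derivative
`n (max 0 z)^(n-1)` at every `z` (for `z > 0`, `z < 0` clear; at `z = 0`: `0 ≤ (max 0 z)^n ≤ z²` for
`|z| ≤ 1`, e.g. `HasDerivAt` from `|h z| ≤ C z²`, or write `(max 0 z)^2 = z * max 0 z` ...). Compose with
`z = 1 - c²/δ²`, `z' = -2c/δ²`:
`k0' = 3 kp² (-2c/δ²) = k1`; `k1' = -(6/δ²) kp² - (6c/δ²) · 2 kp · (-2c/δ²) = k2`; `p0' = p1`: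
`(c k0 - c² k1)' = k0 + c k1 - 2 c k1 - c² k2`.
Bounds: if `|c| ≥ δ` then `kp = 0`. If `|c| ≤ δ` then `0 ≤ kp ≤ 1`, `c²/δ² ≤ 1`, `kp = 1 - c²/δ²`,
`24 c²/δ⁴ kp = (24/δ²)(c²/δ²)(1 - c²/δ²) ∈ [0, 6/δ²]`, `6 kp²/δ² ∈ [0, 6/δ²]`, so `|k2| ≤ 6/δ²`;
`|c k1| = 6 (c²/δ²) kp² ≤ 6`, so `|p0| = |c| |k0 - c k1| ≤ 7 |c| ≤ 7 δ`, and
`|p1| ≤ 1 + 6 + c² · 6/δ² ≤ 13`.
`k0_low`: for `|c| ≤ δ/2`: `kp ≥ 3/4`, `k0 ≥ 27/64 ≥ 2/5`.
-/

open MeasureTheory Real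
open scoped Matrix
open Pool.Agent.Lib_MP_f78f32_gt

namespace Pool.Agent.Lib_MP_f78f32_gb

namespace KFun

/-- `(max 0 z)^2` has derivative `2 max 0 z` -/
lemma sq_deriv (z : ℝ) : HasDerivAt (fun z : ℝ => (max 0 z) ^ 2) (2 * max 0 z) z := by
  rcases lt_trichotomy z 0 with h | h | h
  · have h1 : (fun z : ℝ => (max 0 z) ^ 2) =ᶠ[nhds z] fun _ => (0 : ℝ) := by
      filter_upwards [Iio_mem_nhds h] with y hy
      rw [max_eq_left (le_of_lt hy)]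
      simp
    rw [max_eq_left h.le, mul_zero]
    exact (hasDerivAt_const z (0 : ℝ)).congr_of_eventuallyEq h1
  · subst h
    rw [max_self, mul_zero]
    rw [hasDerivAt_iff_isLittleO_nhds_zero]
    simp only [zero_add, max_self, smul_eq_mul, mul_zero, sub_zero, ne_eq, OfNat.ofNat_ne_zero,
      not_false_eq_true, zero_pow]
    have h1 : (fun h : ℝ => (max 0 h) ^ 2) =O[nhds 0] fun h : ℝ => h ^ 2 := by
      refine Asymptotics.IsBigO.of_bound 1 (Filter.Eventually.of_forall fun h => ?_)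
      rw [one_mul, Real.norm_eq_abs, Real.norm_eq_abs, abs_pow, abs_pow]
      refine pow_le_pow_left₀ (abs_nonneg _) ?_ 2
      rcases le_total 0 h with h2 | h2
      · rw [max_eq_right h2]
      · rw [max_eq_left h2]; simp
    exact h1.trans_isLittleO (by simpa using Asymptotics.isLittleO_pow_id (𝕜 := ℝ) (n := 2) one_lt_two)
  · have h1 : (fun z : ℝ => (max 0 z) ^ 2) =ᶠ[nhds z] fun z => z ^ 2 := by
      filter_upwards [Ioi_mem_nhds h] with y hy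
      rw [max_eq_right (le_of_lt hy)]
    rw [max_eq_right h.le]
    have h2 := (hasDerivAt_pow 2 z)
    simp only [Nat.cast_ofNat, Nat.add_one_sub_one, pow_one, Nat.reduceSub] at h2
    exact h2.congr_of_eventuallyEq h1

/-- `(max 0 z)^3` has derivative `3 (max 0 z)^2` -/
lemma cube_deriv (z : ℝ) : HasDerivAt (fun z : ℝ => (max 0 z) ^ 3) (3 * (max 0 z) ^ 2) z := by
  have h1 : (fun z : ℝ => (max 0 z) ^ 3) = fun z : ℝ => z * (max 0 z) ^ 2 := by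
    funext z
    rcases le_total 0 z with h2 | h2
    · rw [max_eq_right h2]; ring
    · rw [max_eq_left h2]; simp
  rw [h1]
  have h2 := (hasDerivAt_id z).fun_mul (sq_deriv z)
  have h3 : (1 : ℝ) * (max 0 z) ^ 2 + id z * (2 * max 0 z) = 3 * (max 0 z) ^ 2 := by
    rcases le_total 0 z with h2 | h2
    · rw [max_eq_right h2]; simp; ring
    · rw [max_eq_left h2]; simp
  rw [h3] at h2
  exact h2

lemma arg_deriv (δ : ℝ) (c : ℝ) : HasDerivAt (fun c : ℝ => 1 - c ^ 2 / δ ^ 2) (-(2 * c / δ ^ 2)) c := by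
  have h := ((hasDerivAt_pow 2 c).div_const (δ ^ 2)).const_sub 1
  simpa using h

lemma kp2_deriv (δ : ℝ) (c : ℝ) :
    HasDerivAt (fun c => kp δ c ^ 2) (2 * kp δ c * (-(2 * c / δ ^ 2))) c := by
  have h := (sq_deriv (1 - c ^ 2 / δ ^ 2)).comp c (arg_deriv δ c)
  exact h

lemma kp_cont (δ : ℝ) : Continuous (kp δ) := by
  unfold kp
  fun_prop

lemma kp_nonneg (δ c : ℝ) : 0 ≤ kp δ c := le_max_left _ _

lemma kp_zero (δ c : ℝ) (hδ : 0 < δ) (h : δ ≤ |c|) : kp δ c = 0 := by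
  unfold kp
  apply max_eq_left
  have h1 : δ ^ 2 ≤ c ^ 2 := by
    rw [← sq_abs c]
    exact pow_le_pow_left₀ hδ.le h 2
  have h2 : 1 ≤ c ^ 2 / δ ^ 2 := by rw [le_div_iff₀ (by positivity)]; linarith
  linarith

lemma kp_in (δ c : ℝ) (hδ : 0 < δ) (h : |c| ≤ δ) : kp δ c = 1 - c ^ 2 / δ ^ 2 ∧
    c ^ 2 / δ ^ 2 ≤ 1 ∧ c ^ 2 ≤ δ ^ 2 := by
  have h1 : c ^ 2 ≤ δ ^ 2 := by
    rw [← sq_abs c]
    exact pow_le_pow_left₀ (abs_nonneg _) h 2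
  have h2 : c ^ 2 / δ ^ 2 ≤ 1 := by rw [div_le_iff₀ (by positivity)]; linarith
  refine ⟨?_, h2, h1⟩
  unfold kp
  exact max_eq_right (by linarith)

lemma kp_le (δ c : ℝ) (hδ : 0 < δ) : kp δ c ≤ 1 := by
  unfold kp
  refine max_le zero_le_one ?_
  have : 0 ≤ c ^ 2 / δ ^ 2 := by positivity
  linarith

end KFun

theorem k0_deriv (δ : ℝ) (hδ : 0 < δ) (c : ℝ) : HasDerivAt (k0 δ) (k1 δ c) c := by
  have h := (KFun.cube_deriv (1 - c ^ 2 / δ ^ 2)).comp c (KFun.arg_deriv δ c)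
  have h1 : 3 * (max 0 (1 - c ^ 2 / δ ^ 2)) ^ 2 * (-(2 * c / δ ^ 2)) = k1 δ c := by
    unfold k1 kp
    ring
  rw [h1] at h
  exact h
theorem k1_deriv (δ : ℝ) (hδ : 0 < δ) (c : ℝ) : HasDerivAt (k1 δ) (k2 δ c) c := by
  have h := (((hasDerivAt_id c).const_mul 6).div_const (δ ^ 2)).fun_neg.fun_mul (KFun.kp2_deriv δ c)
  have h1 : -(6 * 1 / δ ^ 2) * kp δ c ^ 2 + -(6 * id c / δ ^ 2) *
      (2 * kp δ c * (-(2 * c / δ ^ 2))) = k2 δ c := by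
    unfold k2
    simp only [id]
    field_simp
    ring
  rw [h1] at h
  exact h
theorem p0_deriv (δ : ℝ) (hδ : 0 < δ) (c : ℝ) : HasDerivAt (p0 δ) (p1 δ c) c := by
  have h := ((hasDerivAt_id c).fun_mul (k0_deriv δ hδ c)).fun_sub
    ((hasDerivAt_pow 2 c).fun_mul (k1_deriv δ hδ c))
  have h1 : (1 : ℝ) * k0 δ c + id c * k1 δ c - (((2 : ℕ) : ℝ) * c ^ (2 - 1) * k1 δ c +
      c ^ 2 * k2 δ c) = p1 δ c := by
    unfold p1
    simp only [id]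
    push_cast
    ring
  rw [h1] at h
  exact h
theorem k0_cont (δ : ℝ) : Continuous (k0 δ) := (KFun.kp_cont δ).pow 3
theorem k1_cont (δ : ℝ) : Continuous (k1 δ) := by
  have h := KFun.kp_cont δ
  unfold k1
  fun_prop
theorem k2_cont (δ : ℝ) : Continuous (k2 δ) := by
  have h := KFun.kp_cont δ
  unfold k2
  fun_prop
theorem p0_cont (δ : ℝ) : Continuous (p0 δ) := by
  have h := k0_cont δ
  have h1 := k1_cont δ
  unfold p0
  fun_prop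
theorem p1_cont (δ : ℝ) : Continuous (p1 δ) := by
  have h := k0_cont δ
  have h1 := k1_cont δ
  have h2 := k2_cont δ
  unfold p1
  fun_prop
theorem k0_nonneg (δ c : ℝ) : 0 ≤ k0 δ c := pow_nonneg (KFun.kp_nonneg δ c) 3
theorem k0_le (δ c : ℝ) (hδ : 0 < δ) : k0 δ c ≤ 1 :=
  pow_le_one₀ (KFun.kp_nonneg δ c) (KFun.kp_le δ c hδ)
theorem k0_zero (δ c : ℝ) (hδ : 0 < δ) (h : δ ≤ |c|) : k0 δ c = 0 := by
  unfold k0
  rw [KFun.kp_zero δ c hδ h]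
  norm_num
theorem k1_zero (δ c : ℝ) (hδ : 0 < δ) (h : δ ≤ |c|) : k1 δ c = 0 := by
  unfold k1
  rw [KFun.kp_zero δ c hδ h]
  norm_num
theorem k2_zero (δ c : ℝ) (hδ : 0 < δ) (h : δ ≤ |c|) : k2 δ c = 0 := by
  unfold k2
  rw [KFun.kp_zero δ c hδ h]
  norm_num
theorem p0_zero (δ c : ℝ) (hδ : 0 < δ) (h : δ ≤ |c|) : p0 δ c = 0 := by
  unfold p0
  rw [k0_zero δ c hδ h, k1_zero δ c hδ h]
  norm_num
theorem p1_zero (δ c : ℝ) (hδ : 0 < δ) (h : δ ≤ |c|) : p1 δ c = 0 := by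
  unfold p1
  rw [k0_zero δ c hδ h, k1_zero δ c hδ h, k2_zero δ c hδ h]
  norm_num
theorem k2_abs (δ c : ℝ) (hδ : 0 < δ) : |k2 δ c| ≤ 6 / δ ^ 2 := by
  have h6 : 0 ≤ 6 / δ ^ 2 := by positivity
  rcases le_total δ |c| with h | h
  · rw [k2_zero δ c hδ h, abs_zero]; exact h6
  · obtain ⟨h1, h2, h3⟩ := KFun.kp_in δ c hδ h
    have h0 : 0 ≤ c ^ 2 / δ ^ 2 := by positivity
    have e : k2 δ c = 6 / δ ^ 2 * (4 * (c ^ 2 / δ ^ 2) * (1 - c ^ 2 / δ ^ 2) -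
        (1 - c ^ 2 / δ ^ 2) ^ 2) := by
      unfold k2
      rw [h1]
      field_simp
      ring
    rw [e, abs_mul, abs_of_nonneg h6]
    refine mul_le_of_le_one_right h6 ?_
    generalize c ^ 2 / δ ^ 2 = z at *
    rw [abs_le]
    constructor
    · nlinarith
    · nlinarith [sq_nonneg (2 * z - 1), sq_nonneg (1 - z)]
theorem p0_abs (δ c : ℝ) (hδ : 0 < δ) : |p0 δ c| ≤ 7 * δ := by
  rcases le_total δ |c| with h | h
  · rw [p0_zero δ c hδ h, abs_zero]; positivity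
  · obtain ⟨h1, h2, h3⟩ := KFun.kp_in δ c hδ h
    have h0 : 0 ≤ c ^ 2 / δ ^ 2 := by positivity
    have e : p0 δ c = c * (k0 δ c + 6 * (c ^ 2 / δ ^ 2) * kp δ c ^ 2) := by
      unfold p0 k1
      field_simp
      ring
    have e1 := k0_nonneg δ c
    have e2 := k0_le δ c hδ
    have e3 := KFun.kp_nonneg δ c
    have e4 := KFun.kp_le δ c hδ
    have e5 : kp δ c ^ 2 ≤ 1 := pow_le_one₀ e3 e4
    have e6 : 0 ≤ kp δ c ^ 2 := by positivity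
    have e7 : (c ^ 2 / δ ^ 2) * kp δ c ^ 2 ≤ 1 := mul_le_one₀ h2 e6 e5
    have e8 : 0 ≤ (c ^ 2 / δ ^ 2) * kp δ c ^ 2 := by positivity
    rw [e, abs_mul]
    have e9 : |k0 δ c + 6 * (c ^ 2 / δ ^ 2) * kp δ c ^ 2| ≤ 7 := by
      rw [abs_of_nonneg (by positivity)]
      nlinarith
    calc |c| * |k0 δ c + 6 * (c ^ 2 / δ ^ 2) * kp δ c ^ 2| ≤ δ * 7 :=
          mul_le_mul h e9 (abs_nonneg _) hδ.le
      _ = 7 * δ := by ring
theorem p1_abs (δ c : ℝ) (hδ : 0 < δ) : |p1 δ c| ≤ 13 := by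
  rcases le_total δ |c| with h | h
  · rw [p1_zero δ c hδ h, abs_zero]; norm_num
  · obtain ⟨h1, h2, h3⟩ := KFun.kp_in δ c hδ h
    have h0 : 0 ≤ c ^ 2 / δ ^ 2 := by positivity
    have e : p1 δ c = k0 δ c + 6 * ((c ^ 2 / δ ^ 2) * kp δ c ^ 2) - c ^ 2 * k2 δ c := by
      unfold p1 k1
      field_simp
      ring
    have e1 := k0_nonneg δ c
    have e2 := k0_le δ c hδ
    have e3 := KFun.kp_nonneg δ c
    have e4 := KFun.kp_le δ c hδ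
    have e5 : kp δ c ^ 2 ≤ 1 := pow_le_one₀ e3 e4
    have e6 : 0 ≤ kp δ c ^ 2 := by positivity
    have e7 : (c ^ 2 / δ ^ 2) * kp δ c ^ 2 ≤ 1 := mul_le_one₀ h2 e6 e5
    have e8 : 0 ≤ (c ^ 2 / δ ^ 2) * kp δ c ^ 2 := by positivity
    have e9 : |c ^ 2 * k2 δ c| ≤ 6 := by
      rw [abs_mul, abs_of_nonneg (sq_nonneg c)]
      calc c ^ 2 * |k2 δ c| ≤ δ ^ 2 * (6 / δ ^ 2) :=
            mul_le_mul h3 (k2_abs δ c hδ) (abs_nonneg _) (by positivity)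
        _ = 6 := by field_simp
    rw [abs_le] at e9
    rw [e, abs_le]
    constructor
    · linarith [e9.2]
    · linarith [e9.1]
theorem k0_low (δ c : ℝ) (hδ : 0 < δ) (h : |c| ≤ δ / 2) : 2 / 5 ≤ k0 δ c := by
  obtain ⟨h1, -, -⟩ := KFun.kp_in δ c hδ (by linarith)
  have h2 : c ^ 2 ≤ (δ / 2) ^ 2 := by
    rw [← sq_abs c]
    exact pow_le_pow_left₀ (abs_nonneg _) h 2
  have h3 : c ^ 2 / δ ^ 2 ≤ 1 / 4 := by
    rw [div_le_iff₀ (by positivity)]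
    linarith
  have h4 : 3 / 4 ≤ kp δ c := by rw [h1]; linarith
  calc (2 / 5 : ℝ) ≤ (3 / 4) ^ 3 := by norm_num
    _ ≤ k0 δ c := pow_le_pow_left₀ (by norm_num) h4 3

end Pool.Agent.Lib_MP_f78f32_gb
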