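import Pool.Agent.Lib_MP_f78f32_gb.Supp
import Pool.Agent.Lib_MP_f78f32_gb.Near
import Pool.Agent.Lib_MP_f78f32_gb.DensA
import Pool.Agent.Lib_MP_f78f32_gb.DensB
import Pool.Agent.Lib_MP_f78f32_gb.Ids
import Pool.Agent.Lib_MP_f78f32_gb.ErrNear
import Pool.Agent.Lib_MP_f78f32_gb.ErrFar
import Pool.Agent.Lib_MP_f78f32_gb.Fib

/-!
# Main estimate for smooth seminorms
-/

open MeasureTheory Real
open scoped Matrix
open Pool.Agent.Lib_MP_f78f32_gt

namespace Pool.Agent.Lib_MP_f78f32_gb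

/-- the rotation derivative is a function of the point -/
lemma LL_fr (v : Fin 3 → ℝ) (J : Jet) (hJ : J.Ok) (g : G) (t : ℝ) :
    LL v J (g * fr t) = LL v J g := by
  unfold LL
  rw [(co_fr v g t).2.1, (co_fr v g t).2.2, hJ.invX, hJ.invY]
  have := sin_sq_add_cos_sq t
  linear_combination (co v 2 g * J.X g - co v 1 g * J.Y g) * this

lemma nN_fr (J : Jet) (hJ : J.Ok) (g : G) (t : ℝ) : nN J (g * fr t) = nN J g := by
  unfold nN
  rw [hJ.inv, hJ.invX, hJ.invY]
  have := sin_sq_add_cos_sq t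
  linear_combination (J.X g ^ 2 + J.Y g ^ 2) * this

lemma nN_cont (J : Jet) (hJ : J.Ok) : Continuous (nN J) := by
  unfold nN
  exact ((hJ.cf.pow 2).add (hJ.cX.pow 2)).add (hJ.cY.pow 2)

lemma LL_cont (v : Fin 3 → ℝ) (J : Jet) (hJ : J.Ok) : Continuous (LL v J) := by
  unfold LL
  exact ((co_cont v 2).mul hJ.cX).sub ((co_cont v 1).mul hJ.cY)

/-- `L² ≤ X² + Y² ≤ 1` -/
lemma LL_sq_le (q : Seminorm ℝ E3) (J : Jet) (m : ℝ) (hD : Dat q J m) (v : Fin 3 → ℝ)
    (hv : v 0 ^ 2 + v 1 ^ 2 + v 2 ^ 2 = 1) (g : G) : LL v J g ^ 2 ≤ 1 := by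
  have h1 := nN_le_one q J m hD g
  have h2 := uu_le_one v hv g
  unfold nN at h1
  unfold uu at h2
  unfold LL
  have h3 : J.X g ^ 2 + J.Y g ^ 2 ≤ 1 := by nlinarith [sq_nonneg (J.f g)]
  have h4 : (co v 2 g * J.X g - co v 1 g * J.Y g) ^ 2 +
      (co v 1 g * J.X g + co v 2 g * J.Y g) ^ 2 =
      (co v 1 g ^ 2 + co v 2 g ^ 2) * (J.X g ^ 2 + J.Y g ^ 2) := by ring
  have h5 : (co v 1 g ^ 2 + co v 2 g ^ 2) * (J.X g ^ 2 + J.Y g ^ 2) ≤ 1 * 1 :=
    mul_le_mul h2 h3 (by positivity) zero_le_one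
  nlinarith [sq_nonneg (co v 1 g * J.X g + co v 2 g * J.Y g)]

theorem main_smooth (q : Seminorm ℝ E3) (J : Jet) (m : ℝ) (hD : Dat q J m) (x0 : E3)
    (hx0 : ‖x0‖ = 1) (θ : ℝ) (hθ : 0 < θ) (hθ1 : θ ≤ 1 / 4) (hq0 : 1 - θ ^ 8 ≤ q x0)
    (hE : |∫ g, FF J g * k2 (θ ^ 4) (co (fun i => x0 i) 2 g) ∂μ| ≤ θ ^ 5) :
    ∫ g, ((1 - nN J g) + LL (fun i => x0 i) J g ^ 2) ∂μ ≤ 1000000 / m ^ 3 * θ := by
  set v : Fin 3 → ℝ := fun i => x0 i with hvdef
  have hv : v 0 ^ 2 + v 1 ^ 2 + v 2 ^ 2 = 1 := unit_sq x0 hx0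
  set δ : ℝ := θ ^ 4 with hδdef
  have hδ : 0 < δ := by positivity
  have hδ1 : δ ≤ 1 := by
    have : θ ^ 4 ≤ 1 ^ 4 := by gcongr; linarith
    simpa [hδdef] using this
  have hm := hD.m0
  have hm1 := hD.m1
  have hδ2 : δ ^ 2 = θ ^ 8 := by rw [hδdef]; ring
  set C0 : ℝ := 4 / m ^ 3 with hC0
  have hC : 0 < C0 := by positivity
  have hC4 : 4 ≤ C0 := by
    rw [hC0, le_div_iff₀ (by positivity)]
    have : m ^ 3 ≤ 1 := pow_le_one₀ hm.le hm1
    linarith
  -- bounds of f and f'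
  have hnear : ∀ g, 1 - J.f g ≤ 2 * uu v g + 2 * θ ^ 8 := fun g => by
    rw [hD.jq g]
    exact near q hD.up x0 hx0 (θ ^ 8) (by positivity) hq0 g
  have hb : ∀ g, 2 * (1 - J.f g) / m ^ 3 ≤ C0 * (uu v g + θ ^ 8) := fun g => by
    have h1 := hnear g
    rw [hC0, div_mul_eq_mul_div]
    apply div_le_div_of_nonneg_right _ (by positivity)
    linarith
  have hf : ∀ g, |FF J g - 1| ≤ C0 * (uu v g + θ ^ 8) := fun g => by
    rw [abs_of_nonneg (by linarith [FF_ge_one q J m hD g])]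
    exact (FF_sub_one_le q J m hD g).trans (hb g)
  have hf' : ∀ g, |F1 J g| ≤ C0 * (uu v g + θ ^ 8) := fun g =>
    (F1_abs_le q J m hD g).trans (hb g)
  have cFF := FF_cont q J m hD
  have cF1 := F1_cont q J m hD
  have cTh := Th_cont q J m hD
  have cN := nN_cont J hD.ok
  have cL := LL_cont v J hD.ok
  have ck0 : Continuous fun g : G => k0 δ (co v 2 g) := (k0_cont δ).comp (co_cont v 2)
  have ck2 : Continuous fun g : G => k2 δ (co v 2 g) := (k2_cont δ).comp (co_cont v 2)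
  have cet : Continuous fun g : G => et δ (uu v g) := (et_cont δ).comp (uu_cont v)
  have cw1 := w1_cont δ hδ v
  have cQ1 : Continuous fun g : G => FF J g * k2 δ (co v 2 g) := cFF.mul ck2
  have cQ2 : Continuous fun g : G => FF J g * k2 δ (co v 2 g) - k2 δ (co v 2 g) := cQ1.sub ck2
  have cQ3 : Continuous fun g : G =>
      (FF J g - 1) * ((1 - et δ (uu v g)) * k2 δ (co v 2 g)) :=
    (cFF.sub continuous_const).mul ((continuous_const.sub cet).mul ck2)
  have cQ4 : Continuous fun g : G =>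
      (1 - et δ (uu v g)) * ((1 - nN J g) + LL v J g ^ 2) :=
    (continuous_const.sub cet).mul ((continuous_const.sub cN).add (cL.pow 2))
  -- the identity
  have hid := ids v δ hδ (FF J) (F1 J) (Th J) cFF cF1 cTh (dens_FD q J m hD) (dens_FD1 q J m hD)
  -- near error
  have hn := err_near v hv δ hδ (fun g => FF J g - 1) (cFF.sub continuous_const) C0 (θ ^ 8) hC.le
    (by positivity) hδ2.ge hf
  have hfar := err_far v hv θ hθ hθ1 (fun g => FF J g - 1) (F1 J) (cFF.sub continuous_const) cF1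
    C0 (θ ^ 8) hC.le (by positivity) le_rfl hf hf'
  have hk2 := int_k2 v hv δ hδ hδ1
  have hsplit : (∫ g, (FF J g - 1) * (et δ (uu v g) * k2 δ (co v 2 g)) ∂μ) =
      (∫ g, FF J g * k2 δ (co v 2 g) ∂μ) -
      ∫ g, (FF J g - 1) * ((1 - et δ (uu v g)) * k2 δ (co v 2 g)) ∂μ := by
    have e1 : ∀ g, (FF J g - 1) * (et δ (uu v g) * k2 δ (co v 2 g)) =
        (FF J g * k2 δ (co v 2 g) - k2 δ (co v 2 g)) -
        (FF J g - 1) * ((1 - et δ (uu v g)) * k2 δ (co v 2 g)) := fun g => by ring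
    simp_rw [e1]
    rw [integral_sub (intg cQ2) (intg cQ3), integral_sub (intg cQ1) (intg ck2), hk2, sub_zero]
  have hup : ∫ g, (Th J g - 1) * (k0 δ (co v 2 g) * w1 δ v g) ∂μ ≤
      θ ^ 5 + 500 * C0 * δ ^ 2 + 100 * C0 * θ ^ 5 := by
    rw [hid, hsplit]
    have h1 := (abs_le.mp hE).2
    have h2 := (abs_le.mp hn).1
    have h3 := (abs_le.mp hfar).2
    linarith
  -- lower bound
  set W : G → ℝ := fun g => et δ (uu v g) * ((1 - nN J g) + LL v J g ^ 2) with hW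
  have cW : Continuous W := cet.mul ((continuous_const.sub cN).add (cL.pow 2))
  have hW0 : ∀ g, 0 ≤ W g := fun g => by
    have h1 := nN_le_one q J m hD g
    have h2 := et_nonneg δ (uu v g)
    have h3 := sq_nonneg (LL v J g)
    simp only [hW]
    exact mul_nonneg h2 (by linarith)
  have hWinv : ∀ g t, W (g * fr t) = W g := fun g t => by
    simp only [hW]
    rw [uu_fr, nN_fr J hD.ok, LL_fr v J hD.ok]
  have hlow : (∫ g, k0 δ (co v 2 g) * W g ∂μ) ≤
      2 * (∫ g, (Th J g - 1) * (k0 δ (co v 2 g) * w1 δ v g) ∂μ) +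
      2 * δ ^ 2 * ∫ g, k0 δ (co v 2 g) ∂μ := by
    have cA : Continuous fun g : G => (Th J g - 1) * (k0 δ (co v 2 g) * w1 δ v g) :=
      (cTh.sub continuous_const).mul (ck0.mul cw1)
    rw [← integral_const_mul, ← integral_const_mul, ← integral_add ((intg cA).const_mul 2)
      ((intg ck0).const_mul _)]
    apply integral_mono (intg (ck0.mul cW)) (((intg cA).const_mul 2).add ((intg ck0).const_mul _))
    intro g
    show k0 δ (co v 2 g) * (et δ (uu v g) * ((1 - nN J g) + LL v J g ^ 2)) ≤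
      2 * ((Th J g - 1) * (k0 δ (co v 2 g) * w1 δ v g)) + 2 * δ ^ 2 * k0 δ (co v 2 g)
    have h1 := Th_ge q J m hD g
    have h2 := et_le_w1 δ hδ v hv g
    have h3 := et_nonneg δ (uu v g)
    have h4 := et_le_one δ (uu v g)
    have hk := k0_nonneg δ (co v 2 g)
    have hN := nN_le_one q J m hD g
    by_cases hc : δ ≤ |co v 2 g|
    · rw [k0_zero δ _ hδ hc]; simp only [zero_mul, mul_zero, add_zero, le_refl]
    · push Not at hc
      have hc2 : co v 2 g ^ 2 ≤ δ ^ 2 := by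
        rw [← sq_abs]
        have := abs_nonneg (co v 2 g)
        gcongr
      have hL : LL v J g ^ 2 ≤ 2 * δ ^ 2 + 2 * J.Y g ^ 2 := by
        have h5 := uu_le_one v hv g
        have h6 : J.X g ^ 2 ≤ 1 := by
          have := hN
          unfold nN at this
          nlinarith [sq_nonneg (J.f g), sq_nonneg (J.Y g)]
        have h7 : co v 1 g ^ 2 ≤ 1 := by
          unfold uu at h5
          nlinarith [sq_nonneg (co v 2 g)]
        unfold LL
        have h8 : (co v 2 g * J.X g - co v 1 g * J.Y g) ^ 2 ≤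
            2 * (co v 2 g ^ 2 * J.X g ^ 2) + 2 * (co v 1 g ^ 2 * J.Y g ^ 2) := by
          nlinarith [sq_nonneg (co v 2 g * J.X g + co v 1 g * J.Y g)]
        have h9 : co v 2 g ^ 2 * J.X g ^ 2 ≤ δ ^ 2 * 1 :=
          mul_le_mul hc2 h6 (sq_nonneg _) (sq_nonneg _)
        have h10 : co v 1 g ^ 2 * J.Y g ^ 2 ≤ 1 * J.Y g ^ 2 :=
          mul_le_mul_of_nonneg_right h7 (sq_nonneg _)
        linarith
      have h11 : (1 - nN J g) + LL v J g ^ 2 ≤ 2 * (Th J g - 1) + 2 * δ ^ 2 := by linarith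
      have hT0 : 0 ≤ Th J g - 1 := by nlinarith [sq_nonneg (J.Y g)]
      have h12 : et δ (uu v g) * ((1 - nN J g) + LL v J g ^ 2) ≤
          2 * ((Th J g - 1) * w1 δ v g) + 2 * δ ^ 2 := by
        calc et δ (uu v g) * ((1 - nN J g) + LL v J g ^ 2)
            ≤ et δ (uu v g) * (2 * (Th J g - 1) + 2 * δ ^ 2) :=
              mul_le_mul_of_nonneg_left h11 h3
          _ = 2 * (et δ (uu v g) * (Th J g - 1)) + et δ (uu v g) * (2 * δ ^ 2) := by ring
          _ ≤ 2 * (w1 δ v g * (Th J g - 1)) + 1 * (2 * δ ^ 2) := by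
              have a1 := mul_le_mul_of_nonneg_right h2 hT0
              have a2 := mul_le_mul_of_nonneg_right h4 (by positivity : 0 ≤ 2 * δ ^ 2)
              linarith
          _ = _ := by ring
      have h13 := mul_le_mul_of_nonneg_left h12 hk
      refine h13.trans (le_of_eq ?_)
      ring
  have hk0 := int_k0_le v hv δ hδ
  have hfib := fib v hv δ hδ hδ1 W cW hW0 hWinv
  -- the integral of W
  have hWint : ∫ g, W g ∂μ ≤ 60000 * C0 * θ := by
    have h1 : δ / 20 * ∫ g, W g ∂μ ≤ 2 * (θ ^ 5 + 500 * C0 * δ ^ 2 + 100 * C0 * θ ^ 5) +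
        2 * δ ^ 2 * δ := by
      have a1 : 2 * δ ^ 2 * ∫ g, k0 δ (co v 2 g) ∂μ ≤ 2 * δ ^ 2 * δ := by gcongr
      linarith
    have h2 : θ ^ 8 ≤ θ ^ 5 := pow_le_pow_of_le_one hθ.le (by linarith) (by norm_num)
    have h3 : δ ^ 2 * δ ≤ θ ^ 5 := by
      rw [hδ2]
      calc θ ^ 8 * δ ≤ θ ^ 8 * 1 := by gcongr
        _ ≤ θ ^ 5 := by linarith
    have hθ5 : 0 < θ ^ 5 := by positivity
    have h4 : 2 * (θ ^ 5 + 500 * C0 * δ ^ 2 + 100 * C0 * θ ^ 5) + 2 * δ ^ 2 * δ ≤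
        1500 * C0 * θ ^ 5 := by
      rw [hδ2] at h3 ⊢
      have a1 : 500 * C0 * θ ^ 8 ≤ 500 * C0 * θ ^ 5 := by gcongr
      have a2 : 4 * θ ^ 5 ≤ C0 * θ ^ 5 := by gcongr
      nlinarith
    have h5 : δ / 20 * ∫ g, W g ∂μ ≤ δ / 20 * (60000 * C0 * θ) := by
      refine h1.trans (h4.trans ?_)
      rw [hδdef]
      have : θ ^ 4 / 20 * (60000 * C0 * θ) = 3000 * C0 * θ ^ 5 := by ring
      rw [this]
      have : 0 < C0 * θ ^ 5 := by positivity
      nlinarith
    exact le_of_mul_le_mul_left h5 (by positivity)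
  -- the rest
  have hrest : ∫ g, (1 - et δ (uu v g)) * ((1 - nN J g) + LL v J g ^ 2) ∂μ ≤ 16 * δ ^ 2 := by
    have hms : MeasurableSet {g : G | uu v g ≤ 8 * δ ^ 2} :=
      (isClosed_le (uu_cont v) continuous_const).measurableSet
    have h1 : ∫ g, (1 - et δ (uu v g)) * ((1 - nN J g) + LL v J g ^ 2) ∂μ ≤
        ∫ g, Set.indicator {g : G | uu v g ≤ 8 * δ ^ 2} (fun _ => (2:ℝ)) g ∂μ := by
      apply integral_mono (intg cQ4) ((integrable_const (2:ℝ)).indicator hms)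
      intro g
      simp only
      have a1 := LL_sq_le q J m hD v hv g
      have a2 := et_nonneg δ (uu v g)
      have a3 := et_le_one δ (uu v g)
      have a4 := nN_le_one q J m hD g
      have a5 : 0 ≤ nN J g := by unfold nN; positivity
      have a6 := sq_nonneg (LL v J g)
      by_cases hu : uu v g ≤ 8 * δ ^ 2
      · rw [Set.indicator_of_mem (by exact hu)]
        have : (1 - et δ (uu v g)) * ((1 - nN J g) + LL v J g ^ 2) ≤ 1 * 2 :=
          mul_le_mul (by linarith) (by linarith) (by linarith) zero_le_one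
        linarith
      · rw [Set.indicator_of_notMem (by exact hu)]
        push Not at hu
        rw [et_one δ _ hδ hu.le]
        simp
    refine h1.trans ?_
    rw [integral_indicator hms, setIntegral_const, smul_eq_mul]
    have h2 := mes_u v hv (8 * δ ^ 2) (by positivity)
    linarith
  have hfinal : ∫ g, ((1 - nN J g) + LL v J g ^ 2) ∂μ =
      (∫ g, W g ∂μ) + ∫ g, (1 - et δ (uu v g)) * ((1 - nN J g) + LL v J g ^ 2) ∂μ := by
    rw [← integral_add (intg cW) (intg cQ4)]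
    congr 1
    funext g
    simp only [hW]
    ring
  rw [hfinal]
  have h16 : 16 * δ ^ 2 ≤ 4 * C0 * θ := by
    rw [hδ2]
    have a1 : θ ^ 8 ≤ θ ^ 1 := pow_le_pow_of_le_one hθ.le (by linarith) (by norm_num)
    rw [pow_one] at a1
    nlinarith
  have e2 : 1000000 / m ^ 3 * θ = 250000 * C0 * θ := by rw [hC0]; ring
  rw [e2]
  have : 0 < C0 * θ := by positivity
  nlinarith

end Pool.Agent.Lib_MP_f78f32_gb
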