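import Pool.Agent.Lib_MP_f78f32_gb.Defs
import Pool.Agent.Lib_MP_f78f32_gt.SecArc

/-!
# SUPP: the gradient of a seminorm is a supporting functional

`VV J g = J.f g • x + J.X g • τ + J.Y g • e` for the frame `g = (x, τ, e) = (col g 0, col g 1, col g 2)`.

## Proof

(1) `supp1`: for `0 ≤ t ≤ π`: `cos t * J.f g + sin t * J.X g ≤ J.f (g * fa t)`.
Write `x_s = col (g * fa s) 0 = cos s • x + sin s • τ` (lemma `JetInvAux.ji_col_fa` in
`Pool.Agent.Lib_MP_f78f32_gt.JetInv`, or prove it from `mul_fa`).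
For `t = 0` trivial (`fa_zero`), for `t = π` it says `-J.f g ≤ J.f _`, true as seminorms are
nonnegative. For `0 < t < π` and `0 ≤ s ≤ t`: `sin t • x_s = sin (t - s) • x_0 + sin s • x_t`, so
`sin t * φ s ≤ sin (t-s) * φ 0 + sin s * φ t` with `φ s = J.f (g * fa s) = q x_s`. The function
`ψ s = sin (t-s) * φ 0 + sin s * φ t - sin t * φ s` is nonnegative on `[0,t]`, vanishes at `0` and
has derivative `-cos t * φ 0 + φ t - sin t * J.X g` at `0` (`hJ.dX.ata g 0`), which is therefore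
nonnegative (if the derivative were negative, `ψ` would be negative for small `s > 0`).

(2) `supp`: let `y` be a vector. With `α, β, γ` the scalar products of `y` with `x, τ, e`, one has
`inner (VV J g) y = α J.f g + β J.X g + γ J.Y g`. If `y = 0` trivial. There is an angle `r` with
`β = ρ cos r`, `γ = ρ sin r`, `ρ = √(β²+γ²) ≥ 0`. Let `g' = g * fr r`: `col g' 0 = x`,
`col g' 1 = cos r • τ + sin r • e`, `J.f g' = J.f g`, `J.X g' = cos r J.X g + sin r J.Y g`. Then
`y = α • col g' 0 + ρ • col g' 1` and `inner (VV J g) y = α J.f g' + ρ J.X g'`. With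
`α = R cos t`, `ρ = R sin t`, `R = ‖y‖`, `t ∈ [0, π]` (as `ρ ≥ 0`; e.g. `t = arccos (α / R)`) one has
`y = R • col (g' * fa t) 0`, `q y = R * J.f (g' * fa t)` and (1) gives the claim.

(3) `norm_VV_sq`: the frame is orthonormal (`G.col_dot`; lemmas `SecArc.inner_col_self`,
`SecArc.norm_col` in `Pool.Agent.Lib_MP_f78f32_gt.SecArc`).

(4) `nN_le_one`: apply `supp` with `y = VV J g`: `‖V‖² ≤ q V ≤ ‖V‖`, so `‖V‖ ≤ 1`.
-/

open MeasureTheory Real
open scoped Matrix
open Pool.Agent.Lib_MP_f78f32_gt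

namespace Pool.Agent.Lib_MP_f78f32_gb

lemma supp_angle (p s : ℝ) :
    ∃ t ∈ Set.Ico (0 : ℝ) (2 * π), p = √(p ^ 2 + s ^ 2) * cos t ∧ s = √(p ^ 2 + s ^ 2) * sin t := by
  by_cases h : p ^ 2 + s ^ 2 = 0
  · have hp : p = 0 := by nlinarith [sq_nonneg p, sq_nonneg s]
    have hs : s = 0 := by nlinarith [sq_nonneg p, sq_nonneg s]
    refine ⟨0, ⟨le_refl _, by positivity⟩, ?_, ?_⟩
    · rw [hp, hs]; simp
    · rw [hp, hs]; simp
  · exact SecArc.exists_angle p s h

lemma supp_col1 (g : G) (t : ℝ) :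
    col (g * fr t) 1 = cos t • col g 1 + sin t • col g 2 := by
  ext i
  simp only [col, PiLp.add_apply, PiLp.smul_apply, smul_eq_mul]
  exact (mul_fr g t i).2.1

/-- support inequality in the plane of the first two frame vectors -/
theorem supp1 (q : Seminorm ℝ E3) (J : Jet) (hJ : J.Ok) (hJq : ∀ g, J.f g = q (col g 0)) (g : G)
    (t : ℝ) (ht0 : 0 ≤ t) (htpi : t ≤ π) :
    cos t * J.f g + sin t * J.X g ≤ J.f (g * fa t) := by
  rcases eq_or_lt_of_le ht0 with h0 | h0
  · rw [← h0]; simp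
  rcases eq_or_lt_of_le htpi with h1 | h1
  · rw [h1]
    simp only [cos_pi, sin_pi, zero_mul, add_zero]
    rw [hJq, hJq]
    have a1 := apply_nonneg q (col g 0)
    have a2 := apply_nonneg q (col (g * fa π) 0)
    linarith
  have hst : 0 < sin t := sin_pos_of_pos_of_lt_pi h0 h1
  have hψ : ∃ ψ : ℝ → ℝ, ψ = fun s => sin (t - s) * J.f g + sin s * J.f (g * fa t) -
      sin t * J.f (g * fa s) := ⟨_, rfl⟩
  obtain ⟨ψ, hψ⟩ := hψ
  have hψ0 : ψ 0 = 0 := by
    rw [hψ]
    simp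
  have hpos : ∀ s, 0 ≤ s → s ≤ t → 0 ≤ ψ s := by
    intro s hs0 hs1
    have e1 : sin t • col (g * fa s) 0 =
        sin (t - s) • col g 0 + sin s • col (g * fa t) 0 := by
      rw [SecArc.col_fa, SecArc.col_fa, sin_sub]
      module
    have e2 : q (sin t • col (g * fa s) 0) ≤
        q (sin (t - s) • col g 0) + q (sin s • col (g * fa t) 0) := by
      rw [e1]
      exact map_add_le_add q _ _
    rw [map_smul_eq_mul, map_smul_eq_mul, map_smul_eq_mul, Real.norm_eq_abs, Real.norm_eq_abs,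
      Real.norm_eq_abs, abs_of_pos hst,
      abs_of_nonneg (sin_nonneg_of_nonneg_of_le_pi (sub_nonneg.2 hs1) (by linarith)),
      abs_of_nonneg (sin_nonneg_of_nonneg_of_le_pi hs0 (by linarith))] at e2
    rw [hψ]
    simp only
    rw [hJq, hJq, hJq]
    linarith
  have hd : HasDerivAt ψ (-cos t * J.f g + J.f (g * fa t) - sin t * J.X g) 0 := by
    have d1 : HasDerivAt (fun s : ℝ => sin (t - s)) (-cos t) 0 := by
      have := (hasDerivAt_sin (t - 0)).comp (0:ℝ) ((hasDerivAt_id (0:ℝ)).const_sub t)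
      simpa [Function.comp_def] using this
    have d2 : HasDerivAt (fun s : ℝ => sin s) 1 0 := by simpa using hasDerivAt_sin 0
    have d3 : HasDerivAt (fun s : ℝ => J.f (g * fa s)) (J.X g) 0 := hJ.dX g
    have := ((d1.mul_const (J.f g)).add (d2.mul_const (J.f (g * fa t)))).sub (d3.const_mul (sin t))
    rw [hψ]
    exact this.congr_deriv (by ring)
  have hnn : 0 ≤ -cos t * J.f g + J.f (g * fa t) - sin t * J.X g := by
    have h2 := (hd.hasDerivWithinAt (s := Set.Ioi 0))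
    rw [hasDerivWithinAt_iff_tendsto_slope' (Set.self_notMem_Ioi)] at h2
    apply ge_of_tendsto h2
    have h3 : Set.Ioo (0:ℝ) t ∈ nhdsWithin (0:ℝ) (Set.Ioi 0) := Ioo_mem_nhdsGT h0
    filter_upwards [h3] with s hs
    rw [slope_def_field, hψ0, sub_zero, sub_zero]
    exact div_nonneg (hpos s hs.1.le hs.2.le) hs.1.le
  linarith

theorem inner_VV (J : Jet) (g : G) (y : E3) : inner ℝ (VV J g) y =
    J.f g * inner ℝ y (col g 0) + J.X g * inner ℝ y (col g 1) + J.Y g * inner ℝ y (col g 2) := by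
  unfold VV
  rw [inner_add_left, inner_add_left, real_inner_smul_left, real_inner_smul_left,
    real_inner_smul_left, real_inner_comm y, real_inner_comm y, real_inner_comm y]

theorem supp (q : Seminorm ℝ E3) (J : Jet) (hJ : J.Ok) (hJq : ∀ g, J.f g = q (col g 0)) (g : G)
    (y : E3) : inner ℝ (VV J g) y ≤ q y := by
  rw [inner_VV]
  have hy := SecArc.expand g y
  obtain ⟨α, hα⟩ : ∃ α : ℝ, α = inner ℝ y (col g 0) := ⟨_, rfl⟩
  obtain ⟨β, hβ⟩ : ∃ β : ℝ, β = inner ℝ y (col g 1) := ⟨_, rfl⟩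
  obtain ⟨γ, hγ⟩ : ∃ γ : ℝ, γ = inner ℝ y (col g 2) := ⟨_, rfl⟩
  rw [← hα, ← hβ, ← hγ] at hy ⊢
  obtain ⟨r, -, hr1, hr2⟩ := supp_angle β γ
  obtain ⟨ρ, hρ⟩ : ∃ ρ : ℝ, ρ = √(β ^ 2 + γ ^ 2) := ⟨_, rfl⟩
  rw [← hρ] at hr1 hr2
  have hρ0 : 0 ≤ ρ := by rw [hρ]; exact sqrt_nonneg _
  obtain ⟨t, ht, ht1, ht2⟩ := supp_angle α ρ
  obtain ⟨R, hR⟩ : ∃ R : ℝ, R = √(α ^ 2 + ρ ^ 2) := ⟨_, rfl⟩
  rw [← hR] at ht1 ht2
  have hR0 : 0 ≤ R := by rw [hR]; exact sqrt_nonneg _
  have hcol0 : col (g * fr r) 0 = col g 0 := by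
    ext i
    simp only [col]
    exact (mul_fr g r i).1
  have hyy : y = R • col (g * fr r * fa t) 0 := by
    rw [SecArc.col_fa, hcol0, supp_col1]
    rw [hy, hr1, hr2]
    conv_lhs => rw [ht1, ht2]
    rw [smul_add, smul_smul, smul_smul, smul_add, smul_smul, smul_smul, add_assoc]
  have hqy : q y = R * J.f (g * fr r * fa t) := by
    rw [hyy, map_smul_eq_mul, Real.norm_eq_abs, abs_of_nonneg hR0, hJq]
  have hX : J.X (g * fr r) = cos r * J.X g + sin r * J.Y g := hJ.invX g r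
  have hf : J.f (g * fr r) = J.f g := hJ.inv g r
  rw [hqy]
  rcases eq_or_lt_of_le hR0 with h | h
  · -- trivial case
    rw [← h] at ht1 ht2 ⊢
    rw [zero_mul] at ht1 ht2
    rw [ht2, zero_mul] at hr1 hr2
    rw [ht1, hr1, hr2]
    simp
  · have htpi : t ≤ π := by
      by_contra hc
      push Not at hc
      have h1 : 0 < sin (t - π) := sin_pos_of_pos_of_lt_pi (by linarith) (by linarith [ht.2])
      rw [sin_sub_pi] at h1
      have h2 : R * sin t < 0 := mul_neg_of_pos_of_neg h (by linarith)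
      linarith
    have key := supp1 q J hJ hJq (g * fr r) t ht.1 htpi
    rw [hX, hf] at key
    have h3 := mul_le_mul_of_nonneg_left key hR0
    refine le_trans (le_of_eq ?_) h3
    have e1 : R * (cos t * J.f g + sin t * (cos r * J.X g + sin r * J.Y g)) =
        (R * cos t) * J.f g + (R * sin t) * (cos r * J.X g + sin r * J.Y g) := by ring
    rw [e1, ← ht1, ← ht2]
    have e2 : ρ * (cos r * J.X g + sin r * J.Y g) = (ρ * cos r) * J.X g + (ρ * sin r) * J.Y g := by
      ring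
    rw [e2, ← hr1, ← hr2]
    ring

theorem norm_VV_sq (J : Jet) (g : G) : ‖VV J g‖ ^ 2 = nN J g := by
  rw [← real_inner_self_eq_norm_sq, inner_VV]
  have h0 : inner ℝ (VV J g) (col g 0) = J.f g := by
    rw [inner_VV, SecArc.inner_col_self, SecArc.inner_col_self, SecArc.inner_col_self]
    simp
  have h1 : inner ℝ (VV J g) (col g 1) = J.X g := by
    rw [inner_VV, SecArc.inner_col_self, SecArc.inner_col_self, SecArc.inner_col_self]
    simp
  have h2 : inner ℝ (VV J g) (col g 2) = J.Y g := by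
    rw [inner_VV, SecArc.inner_col_self, SecArc.inner_col_self, SecArc.inner_col_self]
    simp
  rw [h0, h1, h2]
  unfold nN
  ring

theorem inner_VV_col (J : Jet) (g : G) : inner ℝ (VV J g) (col g 0) = J.f g := by
  rw [inner_VV, SecArc.inner_col_self, SecArc.inner_col_self, SecArc.inner_col_self]
  simp

theorem nN_le_one (q : Seminorm ℝ E3) (J : Jet) (m : ℝ) (hD : Dat q J m) (g : G) : nN J g ≤ 1 := by
  have h1 := supp q J hD.ok hD.jq g (VV J g)
  have h2 := hD.up (VV J g)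
  rw [real_inner_self_eq_norm_sq] at h1
  have h3 := norm_nonneg (VV J g)
  have h4 : ‖VV J g‖ ≤ 1 := by
    by_contra hc
    push Not at hc
    nlinarith
  rw [← norm_VV_sq]
  nlinarith

end Pool.Agent.Lib_MP_f78f32_gb
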